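import Mathlib

set_option autoImplicit false

namespace Pool.Agent.Results.MP_7a0cb1_an.InnerCarleson

section

open MeasureTheory AddCircle Complex Filter Topology
open scoped ENNReal ComplexConjugate

/-- The unit circle, as `ℝ / ℤ`; the point `t` stands for `e^{2 π i t}`. -/
abbrev T : Type := AddCircle (1 : ℝ)

/-- Normalised Lebesgue measure on the circle. -/
noncomputable abbrev mu : Measure T := haarAddCircle

/-- Boundary values of functions in `H^∞`: essentially bounded functions on the circle whose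
Fourier coefficients with negative index vanish. -/
def HInf : Set (T → ℂ) :=
  {f | MemLp f ∞ mu ∧ ∀ n : ℤ, n < 0 → fourierCoeff f n = 0}

/-- The `L^∞`-norm closure of `H^∞ + conj H^∞`. -/
def Lb : Set (T → ℂ) :=
  {f | MemLp f ∞ mu ∧ ∀ ε : ℝ, 0 < ε → ∃ g ∈ HInf, ∃ h ∈ HInf,
    ∀ᵐ t ∂mu, ‖f t - (g t + conj (h t))‖ ≤ ε}

/-- The multipliers of `Lb`. -/
def MultLb : Set (T → ℂ) :=
  {f | MemLp f ∞ mu ∧ ∀ g ∈ Lb, (fun t => f t * g t) ∈ Lb}

/-- The Douglas algebra `D_b = H^∞ + Mult(Lb)`. -/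
def Db : Set (T → ℂ) :=
  {f | ∃ g ∈ HInf, ∃ m ∈ MultLb, ∀ᵐ t ∂mu, f t = g t + m t}

/-- Inner functions, given by their boundary values. -/
def IsInner (f : T → ℂ) : Prop := f ∈ HInf ∧ ∀ᵐ t ∂mu, ‖f t‖ = 1

/-- The holomorphic function on the unit disc with boundary values `f` (for `f ∈ HInf`). -/
noncomputable def ext (f : T → ℂ) (z : ℂ) : ℂ := ∑' n : ℕ, fourierCoeff f n * z ^ n

/-- The function `e^{2 π i n t}`. -/
noncomputable abbrev e (n : ℤ) (t : T) : ℂ := fourier n t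

lemma e_cont (n : ℤ) : Continuous (e n) := (fourier n).continuous

lemma e_norm (n : ℤ) (t : T) : ‖e n t‖ = 1 := by
  rw [e, fourier_apply]; exact Circle.norm_coe _

lemma e_zero (t : T) : e 0 t = 1 := by simp [e]

lemma e_add (m n : ℤ) (t : T) : e (m + n) t = e m t * e n t := fourier_add

lemma e_neg (n : ℤ) (t : T) : e (-n) t = conj (e n t) := fourier_neg

lemma e_ne (n : ℤ) (t : T) : e n t ≠ 0 := by
  intro h
  have := e_norm n t
  rw [h] at this
  simp at this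

lemma e_nat (n : ℕ) (t : T) : e (n : ℤ) t = (e 1 t) ^ n := by
  induction n with
  | zero => simp
  | succ k ih => rw [Nat.cast_succ, e_add, ih, pow_succ]

lemma e_negnat (n : ℕ) (t : T) : e (-(n : ℤ)) t = (e (-1) t) ^ n := by
  rw [e_neg, e_nat, e_neg, map_pow]

lemma e_mul_neg (t : T) : e 1 t * e (-1) t = 1 := by
  rw [← e_add]; simp

lemma e_aesm (n : ℤ) : AEStronglyMeasurable (e n) mu := (e_cont n).aestronglyMeasurable

lemma fc_def (f : T → ℂ) (n : ℤ) : fourierCoeff f n = ∫ t, e (-n) t * f t ∂mu := by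
  simp [fourierCoeff, e]

lemma int_mul_e (f : T → ℂ) (n : ℤ) : ∫ t, f t * e n t ∂mu = fourierCoeff f (-n) := by
  rw [fc_def, neg_neg]
  simp_rw [mul_comm]

lemma int_e (n : ℤ) : ∫ t, e n t ∂mu = if n = 0 then 1 else 0 := by
  have h := fourierCoeff_fourier (T := (1 : ℝ)) n
  have h2 := congrFun h 0
  rw [fc_def] at h2
  simp only [neg_zero, e_zero, one_mul] at h2
  rw [h2]
  by_cases hn : n = 0
  · subst hn; simp
  · rw [Pi.single_eq_of_ne (Ne.symm hn), if_neg hn]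

lemma memLp_integrable {f : T → ℂ} (hf : MemLp f ∞ mu) : Integrable f mu :=
  hf.integrable (by simp)

/-- a bound for an essentially bounded function -/
lemma exists_bound {f : T → ℂ} (hf : MemLp f ∞ mu) : ∃ C : ℝ, 0 ≤ C ∧ ∀ᵐ t ∂mu, ‖f t‖ ≤ C := by
  refine ⟨(eLpNorm f ∞ mu).toReal, ENNReal.toReal_nonneg, ?_⟩
  have h := ae_le_eLpNormEssSup (f := f) (μ := mu)
  filter_upwards [h] with t ht
  have hfin : eLpNorm f ∞ mu ≠ ∞ := hf.2.ne
  rw [eLpNorm_exponent_top] at *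
  have := (ENNReal.toReal_le_toReal (by simp) hfin).2 ht
  simpa using this

lemma bdd_mul {f g : T → ℂ} (hf : MemLp f ∞ mu) (hg : MemLp g ∞ mu) :
    MemLp (fun t => f t * g t) ∞ mu := by
  obtain ⟨C, hC0, hC⟩ := exists_bound hf
  obtain ⟨D, hD0, hD⟩ := exists_bound hg
  refine memLp_top_of_bound (hf.1.mul hg.1) (C * D) ?_
  filter_upwards [hC, hD] with t h1 h2
  rw [norm_mul]
  exact mul_le_mul h1 h2 (norm_nonneg _) hC0

lemma bdd_conj {f : T → ℂ} (hf : MemLp f ∞ mu) : MemLp (fun t => conj (f t)) ∞ mu := by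
  obtain ⟨C, hC0, hC⟩ := exists_bound hf
  refine memLp_top_of_bound (continuous_conj.comp_aestronglyMeasurable hf.1) C ?_
  filter_upwards [hC] with t h1
  simpa using h1

lemma bdd_e (n : ℤ) : MemLp (e n) ∞ mu :=
  memLp_top_of_bound (e_aesm n) 1 (Eventually.of_forall fun t => (e_norm n t).le)

lemma bdd_cont {f : T → ℂ} (hf : Continuous f) : MemLp f ∞ mu := by
  obtain ⟨C, hC⟩ := isCompact_univ.exists_bound_of_continuousOn hf.continuousOn
  exact memLp_top_of_bound hf.aestronglyMeasurable C (Eventually.of_forall fun t => hC t trivial)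

/-- geometric series under the integral -/
lemma geom {f ψ : T → ℂ} (hf : Integrable f mu) (hψ : Continuous ψ) (h1 : ∀ t, ‖ψ t‖ ≤ 1)
    {a : ℂ} (ha : ‖a‖ < 1) :
    HasSum (fun m : ℕ => a ^ m * ∫ t, f t * ψ t ^ m ∂mu) (∫ t, f t * (1 - a * ψ t)⁻¹ ∂mu) := by
  have h2 : ∀ t, ‖a * ψ t‖ < 1 := fun t => by
    rw [norm_mul]
    calc ‖a‖ * ‖ψ t‖ ≤ ‖a‖ * 1 := mul_le_mul_of_nonneg_left (h1 t) (norm_nonneg _)
      _ < 1 := by simpa using ha
  have key := hasSum_integral_of_dominated_convergence (μ := mu)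
    (F := fun (m : ℕ) t => f t * (a * ψ t) ^ m) (f := fun t => f t * (1 - a * ψ t)⁻¹)
    (fun (m : ℕ) t => ‖f t‖ * ‖a‖ ^ m) ?_ ?_ ?_ ?_ ?_
  · have e1 : (fun m : ℕ => a ^ m * ∫ t, f t * ψ t ^ m ∂mu) =
        fun m : ℕ => ∫ t, f t * (a * ψ t) ^ m ∂mu := by
      funext m
      rw [← integral_const_mul]
      congr 1
      funext t
      rw [mul_pow]; ring
    rw [e1]; exact key
  · intro m
    exact hf.1.mul ((continuous_const.mul hψ).pow m).aestronglyMeasurable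
  · intro m
    refine Eventually.of_forall fun t => ?_
    rw [norm_mul, norm_pow, norm_mul]
    refine mul_le_mul_of_nonneg_left ?_ (norm_nonneg _)
    apply pow_le_pow_left₀ (by positivity)
    calc ‖a‖ * ‖ψ t‖ ≤ ‖a‖ * 1 := mul_le_mul_of_nonneg_left (h1 t) (norm_nonneg _)
      _ = ‖a‖ := mul_one _
  · exact Eventually.of_forall fun t =>
      (summable_geometric_of_lt_one (norm_nonneg _) ha).mul_left _
  · simp_rw [tsum_mul_left]
    exact hf.norm.mul_const _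
  · refine Eventually.of_forall fun t => ?_
    exact (hasSum_geometric_of_norm_lt_one (h2 t)).mul_left _

/-- the Cauchy kernel `1 / (1 - z e^{-it})` -/
noncomputable def ck (z : ℂ) (t : T) : ℂ := (1 - z * e (-1) t)⁻¹

/-- the kernel `1 / (1 - b e^{it})` -/
noncomputable def qk (b : ℂ) (t : T) : ℂ := (1 - b * e 1 t)⁻¹

lemma den_ne {z : ℂ} (hz : ‖z‖ < 1) (n : ℤ) (t : T) : 1 - z * e n t ≠ 0 := by
  intro h
  have h1 : z * e n t = 1 := by linear_combination -h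
  have h2 := congrArg norm h1
  rw [norm_mul, e_norm, mul_one, norm_one] at h2
  linarith

lemma ck_cont {z : ℂ} (hz : ‖z‖ < 1) : Continuous (ck z) :=
  (continuous_const.sub (continuous_const.mul (e_cont _))).inv₀ (den_ne hz _)

lemma qk_cont {z : ℂ} (hz : ‖z‖ < 1) : Continuous (qk z) :=
  (continuous_const.sub (continuous_const.mul (e_cont _))).inv₀ (den_ne hz _)

lemma ck_conj (z : ℂ) (t : T) : conj (ck z t) = qk (conj z) t := by
  simp only [ck, qk, map_inv₀, map_sub, map_one, map_mul]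
  rw [e_neg, Complex.conj_conj]

lemma qk_conj (z : ℂ) (t : T) : conj (qk z t) = ck (conj z) t := by
  simp only [ck, qk, map_inv₀, map_sub, map_one, map_mul]
  rw [e_neg]

/-- Expansion of `∫ f e_n / (1 - a e_{-1})`. -/
lemma int_ck {f : T → ℂ} (hf : Integrable f mu) {a : ℂ} (ha : ‖a‖ < 1) (n : ℤ) :
    HasSum (fun m : ℕ => a ^ m * fourierCoeff f (m - n)) (∫ t, f t * e n t * ck a t ∂mu) := by
  have h := geom (f := fun t => f t * e n t) (ψ := e (-1)) (a := a) ?_ (e_cont _)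
    (fun t => (e_norm _ t).le) ha
  · have e1 : (fun m : ℕ => a ^ m * fourierCoeff f (m - n)) =
        fun m : ℕ => a ^ m * ∫ t, f t * e n t * e (-1) t ^ m ∂mu := by
      funext m
      congr 1
      rw [show ((m : ℤ) - n) = -(n + -(m : ℤ)) by ring, ← int_mul_e]
      congr 1
      funext t
      rw [e_add, e_negnat]; ring
    rw [e1]; exact h
  · exact hf.mul_bdd (c := 1) (e_aesm n) (Eventually.of_forall fun t => (e_norm n t).le)

/-- Expansion of `∫ f e_n / (1 - b e_1)`. -/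
lemma int_qk {f : T → ℂ} (hf : Integrable f mu) {b : ℂ} (hb : ‖b‖ < 1) (n : ℤ) :
    HasSum (fun m : ℕ => b ^ m * fourierCoeff f (-(m : ℤ) - n))
      (∫ t, f t * e n t * qk b t ∂mu) := by
  have h := geom (f := fun t => f t * e n t) (ψ := e 1) (a := b) ?_ (e_cont _)
    (fun t => (e_norm _ t).le) hb
  · have e1 : (fun m : ℕ => b ^ m * fourierCoeff f (-(m : ℤ) - n)) =
        fun m : ℕ => b ^ m * ∫ t, f t * e n t * e 1 t ^ m ∂mu := by
      funext m
      congr 1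
      rw [show (-(m : ℤ) - n) = -(n + (m : ℤ)) by ring, ← int_mul_e]
      congr 1
      funext t
      rw [e_add, e_nat]; ring
    rw [e1]; exact h
  · exact hf.mul_bdd (c := 1) (e_aesm n) (Eventually.of_forall fun t => (e_norm n t).le)

/-- Cauchy formula: `∫ f / (1 - z e_{-1}) = ext f z` -/
lemma int_ck_ext {f : T → ℂ} (hf : Integrable f mu) {a : ℂ} (ha : ‖a‖ < 1) :
    ∫ t, f t * ck a t ∂mu = ext f a := by
  have h := int_ck hf ha 0
  simp only [e_zero, mul_one, sub_zero] at h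
  rw [← h.tsum_eq, ext]
  simp_rw [mul_comm]

lemma hasSum_ext {f : T → ℂ} (hf : Integrable f mu) {a : ℂ} (ha : ‖a‖ < 1) :
    HasSum (fun n : ℕ => fourierCoeff f n * a ^ n) (ext f a) := by
  have h := int_ck hf ha 0
  simp only [e_zero, mul_one, sub_zero] at h
  rw [← int_ck_ext hf ha]
  simp_rw [mul_comm] at h ⊢
  exact h

/-- for `f ∈ HInf` and `n ≥ 1` : `∫ f e_n / (1 - a e_{-1}) = a^n ext f a` -/
lemma int_ck_HInf {f : T → ℂ} (hf : f ∈ HInf) {a : ℂ} (ha : ‖a‖ < 1) (n : ℕ) :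
    ∫ t, f t * e n t * ck a t ∂mu = a ^ n * ext f a := by
  have h := int_ck (memLp_integrable hf.1) ha n
  have h2 := (hasSum_nat_add_iff' (f := fun m : ℕ => a ^ m * fourierCoeff f ((m : ℤ) - n)) n).2 h
  have h3 : ∑ i ∈ Finset.range n, a ^ i * fourierCoeff f ((i : ℤ) - n) = 0 := by
    apply Finset.sum_eq_zero
    intro i hi
    rw [hf.2 _ (by have := Finset.mem_range.1 hi; omega), mul_zero]
  rw [h3, sub_zero] at h2
  have h4 := (hasSum_ext (memLp_integrable hf.1) ha).mul_left (a ^ n)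
  refine h2.unique ?_
  have e5 : (fun m : ℕ => a ^ (m + n) * fourierCoeff f (((m + n : ℕ) : ℤ) - n)) =
      fun i : ℕ => a ^ n * (fourierCoeff f i * a ^ i) := by
    funext m
    rw [pow_add, show (((m + n : ℕ) : ℤ) - n) = m by push_cast; ring]
    ring
  rw [e5]; exact h4

/-- for `f ∈ HInf` and `n ≥ 1` : `∫ f e_n / (1 - b e_1) = 0` -/
lemma int_qk_HInf {f : T → ℂ} (hf : f ∈ HInf) {b : ℂ} (hb : ‖b‖ < 1) (n : ℤ) (hn : 0 < n) :
    ∫ t, f t * e n t * qk b t ∂mu = 0 := by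
  have h := int_qk (memLp_integrable hf.1) hb n
  refine h.unique ?_
  convert hasSum_zero with m
  rw [hf.2 _ (by omega), mul_zero]

lemma fc_one (n : ℤ) : fourierCoeff (fun _ : T => (1 : ℂ)) n = if n = 0 then 1 else 0 := by
  rw [fc_def]
  simp only [mul_one]
  rw [int_e]
  simp

/-- constants are in `HInf` -/
lemma const_HInf (c : ℂ) : (fun _ : T => c) ∈ HInf := by
  refine ⟨bdd_cont continuous_const, fun n hn => ?_⟩
  have : fourierCoeff (fun _ : T => c) n = c * fourierCoeff (fun _ : T => (1 : ℂ)) n := by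
    rw [fc_def, fc_def, ← integral_const_mul]
    congr 1; funext t; ring
  rw [this, fc_one, if_neg hn.ne, mul_zero]

lemma congr_HInf {f g : T → ℂ} (hf : f ∈ HInf) (h : f =ᵐ[mu] g) : g ∈ HInf := by
  refine ⟨(memLp_congr_ae h).1 hf.1, fun n hn => ?_⟩
  rw [← hf.2 n hn]
  rw [fourierCoeff_congr_ae h]

lemma add_HInf {f g : T → ℂ} (hf : f ∈ HInf) (hg : g ∈ HInf) : (fun t => f t + g t) ∈ HInf := by
  refine ⟨hf.1.add hg.1, fun n hn => ?_⟩
  have := fourierCoeff.add (memLp_integrable hf.1) (memLp_integrable hg.1)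
  have h2 := congrFun this n
  simp only [Pi.add_apply] at h2
  have h3 : fourierCoeff (fun t => f t + g t) n = fourierCoeff (f + g) n := rfl
  rw [h3, h2, hf.2 n hn, hg.2 n hn, add_zero]

lemma smul_HInf {f : T → ℂ} (hf : f ∈ HInf) (c : ℂ) : (fun t => c * f t) ∈ HInf := by
  refine ⟨hf.1.const_mul c, fun n hn => ?_⟩
  have h : fourierCoeff (fun t => c * f t) n = c * fourierCoeff f n := by
    rw [fc_def, fc_def, ← integral_const_mul]
    congr 1; funext t; ring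
  rw [h, hf.2 n hn, mul_zero]

lemma sub_HInf {f g : T → ℂ} (hf : f ∈ HInf) (hg : g ∈ HInf) : (fun t => f t - g t) ∈ HInf := by
  have := add_HInf hf (smul_HInf hg (-1))
  refine congr_HInf this (Eventually.of_forall fun t => ?_)
  ring

/-- criterion for membership in `HInf` -/
lemma mem_HInf_iff {f : T → ℂ} (hf : MemLp f ∞ mu) :
    f ∈ HInf ↔ ∀ n : ℕ, 0 < n → ∫ t, f t * e n t ∂mu = 0 := by
  constructor
  · intro h n hn
    rw [int_mul_e]
    exact h.2 _ (by omega)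
  · intro h
    refine ⟨hf, fun n hn => ?_⟩
    have := h (-n).toNat (by omega)
    rw [Int.toNat_of_nonneg (by omega), int_mul_e, neg_neg] at this
    exact this

/-- `HInf` times the kernel `1/(1 - b e_1)` -/
lemma mul_qk_HInf {f : T → ℂ} (hf : f ∈ HInf) {b : ℂ} (hb : ‖b‖ < 1) :
    (fun t => f t * qk b t) ∈ HInf := by
  rw [mem_HInf_iff (bdd_mul hf.1 (bdd_cont (qk_cont hb)))]
  intro n hn
  rw [← int_qk_HInf hf hb n (by exact_mod_cast hn)]
  congr 1; funext t; ring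

lemma mul_e_HInf {f : T → ℂ} (hf : f ∈ HInf) : (fun t => f t * e 1 t) ∈ HInf := by
  rw [mem_HInf_iff (bdd_mul hf.1 (bdd_e 1))]
  intro n hn
  have h := (mem_HInf_iff hf.1).1 hf (n + 1) (by omega)
  rw [← h]
  congr 1; funext t
  push_cast
  rw [e_add]; ring

lemma qk_HInf {b : ℂ} (hb : ‖b‖ < 1) : qk b ∈ HInf := by
  have := mul_qk_HInf (const_HInf 1) hb
  simpa using this

lemma fc_qk {b : ℂ} (hb : ‖b‖ < 1) (n : ℕ) : fourierCoeff (qk b) n = b ^ n := by
  rw [fc_def]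
  have h := int_qk (f := fun _ => (1 : ℂ)) (integrable_const _) hb (-(n : ℤ))
  have e1 : ∫ t, e (-(n : ℤ)) t * qk b t ∂mu = ∫ t, (1 : ℂ) * e (-(n : ℤ)) t * qk b t ∂mu := by
    simp
  rw [e1]
  refine h.unique ?_
  convert hasSum_ite_eq n (b ^ n) using 2 with m
  rw [fc_one]
  by_cases hm : m = n
  · subst hm; simp
  · rw [if_neg hm, if_neg (by omega), mul_zero]

lemma ext_qk {b : ℂ} (hb : ‖b‖ < 1) {z : ℂ} (hz : ‖z‖ < 1) : ext (qk b) z = (1 - b * z)⁻¹ := by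
  rw [ext]
  simp_rw [fc_qk hb, ← mul_pow]
  rw [tsum_geometric_of_norm_lt_one]
  rw [norm_mul]
  calc ‖b‖ * ‖z‖ ≤ ‖b‖ * 1 := mul_le_mul_of_nonneg_left hz.le (norm_nonneg _)
    _ < 1 := by simpa using hb

end

section

open MeasureTheory AddCircle Complex Filter Topology
open scoped ENNReal ComplexConjugate

/-- Poisson kernel -/
noncomputable def pk (a : ℂ) (t : T) : ℝ := (1 - ‖a‖ ^ 2) * ‖ck a t‖ ^ 2

lemma pk_cont {a : ℂ} (ha : ‖a‖ < 1) : Continuous (pk a) :=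
  continuous_const.mul ((ck_cont ha).norm.pow 2)

lemma pk_nonneg {a : ℂ} (ha : ‖a‖ < 1) (t : T) : 0 ≤ pk a t := by
  apply mul_nonneg _ (by positivity)
  have := norm_nonneg a
  nlinarith

lemma pk_eq {a : ℂ} (ha : ‖a‖ < 1) (t : T) :
    (pk a t : ℂ) = ck a t + conj a * e 1 t * qk (conj a) t := by
  have h1 := den_ne ha (-1) t
  have h2 : 1 - conj a * e 1 t ≠ 0 := den_ne (by simpa using ha) 1 t
  have h3 : ((‖ck a t‖ ^ 2 : ℝ) : ℂ) = ck a t * conj (ck a t) := by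
    rw [Complex.mul_conj, Complex.normSq_eq_norm_sq]
  have h4 : ((‖a‖ ^ 2 : ℝ) : ℂ) = a * conj a := by
    rw [Complex.mul_conj, Complex.normSq_eq_norm_sq]
  rw [pk, Complex.ofReal_mul, Complex.ofReal_sub, h3, h4, ck_conj]
  simp only [ck, qk, Complex.ofReal_one]
  have h5 := e_mul_neg t
  field_simp
  linear_combination (a * conj a) * h5

lemma re_qk {b : ℂ} (hb : ‖b‖ < 1) (t : T) : (qk b t).re = (1 + pk (conj b) t) / 2 := by
  have h1 := den_ne hb 1 t
  have hb' : ‖conj b‖ < 1 := by simpa using hb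
  have h2 : 1 - conj b * e (-1) t ≠ 0 := den_ne hb' (-1) t
  have h3 := pk_eq hb' t
  rw [Complex.conj_conj] at h3
  have h4 : ck (conj b) t = conj (qk b t) := (qk_conj b t).symm
  have h5 : ((qk b t + conj (qk b t) : ℂ)) = 1 + (pk (conj b) t : ℂ) := by
    rw [h3, h4]
    have : qk b t = 1 + b * e 1 t * qk b t := by
      simp only [qk]; field_simp; ring
    linear_combination this
  rw [Complex.add_conj] at h5
  have h6 := congrArg Complex.re h5
  simp at h6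
  linarith

lemma norm_qk_sq {b : ℂ} (hb : ‖b‖ < 1) (t : T) :
    ‖qk b t‖ ^ 2 = pk (conj b) t / (1 - ‖b‖ ^ 2) := by
  have hb' : ‖conj b‖ = ‖b‖ := by simp
  have : 1 - ‖b‖ ^ 2 ≠ 0 := by
    have := norm_nonneg b
    nlinarith
  rw [pk, hb', ← qk_conj, RCLike.norm_conj]
  field_simp

lemma int_pk_HInf {f : T → ℂ} (hf : f ∈ HInf) {a : ℂ} (ha : ‖a‖ < 1) :
    ∫ t, f t * (pk a t : ℂ) ∂mu = ext f a := by
  have ha' : ‖conj a‖ < 1 := by simpa using ha
  have h1 : ∀ t, f t * (pk a t : ℂ) = f t * ck a t + conj a * (f t * e 1 t * qk (conj a) t) := by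
    intro t; rw [pk_eq ha]; ring
  simp_rw [h1]
  rw [integral_add, int_ck_ext (memLp_integrable hf.1) ha, integral_const_mul,
    int_qk_HInf hf ha' 1 (by norm_num), mul_zero, add_zero]
  · exact memLp_integrable (bdd_mul hf.1 (bdd_cont (ck_cont ha)))
  · exact (memLp_integrable (bdd_mul (bdd_mul hf.1 (bdd_e 1)) (bdd_cont (qk_cont ha')))).const_mul _

lemma ext_one {a : ℂ} : ext (fun _ => 1) a = 1 := by
  rw [ext]
  have : (fun n : ℕ => fourierCoeff (fun _ : T => (1 : ℂ)) n * a ^ n) =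
      fun n : ℕ => if n = 0 then 1 else 0 := by
    funext n
    rw [fc_one]
    by_cases hn : n = 0
    · subst hn; simp
    · rw [if_neg (by exact_mod_cast hn), if_neg hn, zero_mul]
  rw [this, tsum_ite_eq]

lemma int_pk {a : ℂ} (ha : ‖a‖ < 1) : ∫ t, pk a t ∂mu = 1 := by
  have h := int_pk_HInf (const_HInf 1) ha
  rw [ext_one] at h
  simp only [one_mul] at h
  rw [show (∫ t, ((pk a t : ℝ) : ℂ) ∂mu) = ((∫ t, pk a t ∂mu : ℝ) : ℂ) from
    integral_ofReal] at h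
  exact_mod_cast h

lemma int_norm_qk_sq {b : ℂ} (hb : ‖b‖ < 1) : ∫ t, ‖qk b t‖ ^ 2 ∂mu = (1 - ‖b‖ ^ 2)⁻¹ := by
  simp_rw [norm_qk_sq hb, div_eq_mul_inv]
  rw [integral_mul_const, int_pk (by simpa using hb), one_mul]

/-- maximum principle -/
lemma ext_bound {f : T → ℂ} (hf : f ∈ HInf) {M : ℝ} (hM : ∀ᵐ t ∂mu, ‖f t‖ ≤ M) {a : ℂ}
    (ha : ‖a‖ < 1) : ‖ext f a‖ ≤ M := by
  rw [← int_pk_HInf hf ha]
  calc ‖∫ t, f t * (pk a t : ℂ) ∂mu‖ ≤ ∫ t, M * pk a t ∂mu := by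
        apply norm_integral_le_of_norm_le
        · exact ((pk_cont ha).integrable_of_hasCompactSupport
            (HasCompactSupport.of_compactSpace _)).const_mul _
        · filter_upwards [hM] with t ht
          rw [norm_mul, Complex.norm_real, Real.norm_of_nonneg (pk_nonneg ha t)]
          exact mul_le_mul_of_nonneg_right ht (pk_nonneg ha t)
    _ = M := by rw [integral_const_mul, int_pk ha, mul_one]

lemma int_qk_HInf0 {f : T → ℂ} (hf : f ∈ HInf) {b : ℂ} (hb : ‖b‖ < 1) :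
    ∫ t, f t * qk b t ∂mu = fourierCoeff f 0 := by
  have h := int_qk (memLp_integrable hf.1) hb 0
  simp only [e_zero, mul_one, sub_zero] at h
  refine h.unique ?_
  have e5 : (fun m : ℕ => b ^ m * fourierCoeff f (-(m : ℤ))) =
      fun m : ℕ => if m = 0 then fourierCoeff f 0 else 0 := by
    funext m
    by_cases hm : m = 0
    · subst hm; simp
    · rw [if_neg hm, hf.2 _ (by omega), mul_zero]
  rw [e5]
  exact hasSum_ite_eq 0 _

lemma cont_int {f : T → ℂ} (hf : Continuous f) : Integrable f mu :=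
  hf.integrable_of_hasCompactSupport (HasCompactSupport.of_compactSpace _)

lemma cont_intR {f : T → ℝ} (hf : Continuous f) : Integrable f mu :=
  hf.integrable_of_hasCompactSupport (HasCompactSupport.of_compactSpace _)

/-! ### the test functions -/

section test

variable (n : ℕ) (ζ : ℂ) (s0 : ℝ)

/-- distances to the circle of the test points -/
noncomputable def cc (i : ℕ) : ℝ := (1 - s0) / 2 ^ i

/-- the test points -/
noncomputable def pt (i : ℕ) : ℂ := ((1 - cc s0 i : ℝ) : ℂ) * ζ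

noncomputable def uu (t : T) : ℂ := (n : ℂ)⁻¹ * (qk (conj (pt ζ s0 n)) t - qk (conj (pt ζ s0 0)) t)

noncomputable def ww (t : T) : ℂ := uu n ζ s0 t - ((uu n ζ s0 t).re : ℂ)

noncomputable def kk (t : T) : ℂ := ∑ i ∈ Finset.range n, (cc s0 i : ℂ) * ck (pt ζ s0 i) t

noncomputable def KK (I : T → ℂ) (t : T) : ℂ :=
  ∑ i ∈ Finset.range n, (cc s0 i : ℂ) * ext I (pt ζ s0 i) * ck (pt ζ s0 i) t

noncomputable def FF (I : T → ℂ) (t : T) : ℂ :=
  I t * (kk n ζ s0 t - conj (kk n ζ s0 t)) - KK n ζ s0 I t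

end test

variable {n : ℕ} {ζ : ℂ} {s0 : ℝ}

lemma cc_pos (h : s0 < 1) (i : ℕ) : 0 < cc s0 i := by
  unfold cc
  have : 0 < 1 - s0 := by linarith
  positivity

lemma cc_le (h0 : 0 ≤ s0) (i : ℕ) (_h : s0 < 1) : cc s0 i ≤ 1 := by
  unfold cc
  rw [div_le_one (by positivity)]
  have : (1 : ℝ) ≤ 2 ^ i := one_le_pow₀ (by norm_num)
  linarith

lemma cc_succ (i : ℕ) : cc s0 (i + 1) = cc s0 i / 2 := by
  unfold cc
  rw [pow_succ]
  field_simp

lemma cc_anti (h : s0 < 1) {i j : ℕ} (hij : i ≤ j) : cc s0 j ≤ cc s0 i := by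
  unfold cc
  apply div_le_div_of_nonneg_left (by linarith) (by positivity)
  exact pow_le_pow_right₀ (by norm_num) hij

lemma pt_norm (hζ : ‖ζ‖ = 1) (h0 : 0 ≤ s0) (h : s0 < 1) (i : ℕ) :
    ‖pt ζ s0 i‖ = 1 - cc s0 i := by
  rw [pt, norm_mul, hζ, mul_one, Complex.norm_real, Real.norm_of_nonneg]
  linarith [cc_le h0 i h]

lemma pt_lt (hζ : ‖ζ‖ = 1) (h0 : 0 ≤ s0) (h : s0 < 1) (i : ℕ) : ‖pt ζ s0 i‖ < 1 := by
  rw [pt_norm hζ h0 h]
  linarith [cc_pos h i]

lemma cpt_norm (hζ : ‖ζ‖ = 1) (h0 : 0 ≤ s0) (h : s0 < 1) (i : ℕ) :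
    ‖conj (pt ζ s0 i)‖ = 1 - cc s0 i := by
  rw [RCLike.norm_conj, pt_norm hζ h0 h]

lemma cpt_lt (hζ : ‖ζ‖ = 1) (h0 : 0 ≤ s0) (h : s0 < 1) (i : ℕ) : ‖conj (pt ζ s0 i)‖ < 1 := by
  rw [RCLike.norm_conj]; exact pt_lt hζ h0 h i

lemma uu_cont (hζ : ‖ζ‖ = 1) (h0 : 0 ≤ s0) (h : s0 < 1) : Continuous (uu n ζ s0) :=
  continuous_const.mul ((qk_cont (cpt_lt hζ h0 h n)).sub (qk_cont (cpt_lt hζ h0 h 0)))

lemma ww_cont (hζ : ‖ζ‖ = 1) (h0 : 0 ≤ s0) (h : s0 < 1) : Continuous (ww n ζ s0) :=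
  (uu_cont hζ h0 h).sub (continuous_ofReal.comp (continuous_re.comp (uu_cont hζ h0 h)))

lemma ww_norm_le (t : T) : ‖ww n ζ s0 t‖ ≤ ‖uu n ζ s0 t‖ := by
  have h : ww n ζ s0 t = ((uu n ζ s0 t).im : ℂ) * Complex.I := by
    rw [ww]
    apply Complex.ext <;> simp
  rw [h, norm_mul, Complex.norm_I, mul_one, Complex.norm_real]
  exact Complex.abs_im_le_norm _

lemma norm_ck_le {z : ℂ} (hz : ‖z‖ < 1) (t : T) : ‖ck z t‖ ≤ (1 - ‖z‖)⁻¹ := by
  rw [ck, norm_inv]
  apply inv_anti₀ (by linarith)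
  have := norm_sub_norm_le (1 : ℂ) (z * e (-1) t)
  rw [norm_mul, e_norm, norm_one, mul_one] at this
  exact this

lemma norm_qk_le {z : ℂ} (hz : ‖z‖ < 1) (t : T) : ‖qk z t‖ ≤ (1 - ‖z‖)⁻¹ := by
  rw [qk, norm_inv]
  apply inv_anti₀ (by linarith)
  have := norm_sub_norm_le (1 : ℂ) (z * e 1 t)
  rw [norm_mul, e_norm, norm_one, mul_one] at this
  exact this

/-- one dyadic step -/
lemma step_L1 (hζ : ‖ζ‖ = 1) (h0 : 0 ≤ s0) (h : s0 < 1) (i : ℕ) :
    ∫ t, ‖qk (conj (pt ζ s0 (i + 1))) t - qk (conj (pt ζ s0 i)) t‖ ∂mu ≤ 3 / 4 := by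
  set a := conj (pt ζ s0 i) with ha
  set b := conj (pt ζ s0 (i + 1)) with hb
  have hna : ‖a‖ = 1 - cc s0 i := cpt_norm hζ h0 h i
  have hnb : ‖b‖ = 1 - cc s0 (i + 1) := cpt_norm hζ h0 h (i + 1)
  have hcp := cc_pos h i
  have hc1 := cc_le h0 i h
  have hs := cc_succ (s0 := s0) i
  have la : ‖a‖ < 1 := by rw [hna]; linarith
  have lb : ‖b‖ < 1 := by rw [hnb, hs]; linarith
  have hdiff : ‖b - a‖ = cc s0 i / 2 := by
    have : b - a = ((cc s0 i / 2 : ℝ) : ℂ) * conj ζ := by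
      rw [ha, hb, pt, pt, hs]
      simp only [map_mul, Complex.conj_ofReal]
      push_cast; ring
    rw [this, norm_mul, RCLike.norm_conj, hζ, mul_one, Complex.norm_real,
      Real.norm_of_nonneg (by linarith)]
  have hpt : ∀ t, ‖qk b t - qk a t‖ ≤ cc s0 i / 4 * (‖qk a t‖ ^ 2 + ‖qk b t‖ ^ 2) := by
    intro t
    have e1 : qk b t - qk a t = (b - a) * e 1 t * (qk a t * qk b t) := by
      have hA : (1 - a * e 1 t) * qk a t = 1 := mul_inv_cancel₀ (den_ne la 1 t)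
      have hB : (1 - b * e 1 t) * qk b t = 1 := mul_inv_cancel₀ (den_ne lb 1 t)
      linear_combination (-qk b t) * hA + qk a t * hB
    rw [e1, norm_mul, norm_mul, norm_mul, hdiff, e_norm]
    nlinarith [mul_nonneg hcp.le (sq_nonneg (‖qk a t‖ - ‖qk b t‖))]
  have hia : Integrable (fun t => ‖qk a t‖ ^ 2) mu := cont_intR ((qk_cont la).norm.pow 2)
  have hib : Integrable (fun t => ‖qk b t‖ ^ 2) mu := cont_intR ((qk_cont lb).norm.pow 2)
  calc ∫ t, ‖qk b t - qk a t‖ ∂mu ≤ ∫ t, cc s0 i / 4 * (‖qk a t‖ ^ 2 + ‖qk b t‖ ^ 2) ∂mu := by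
        apply integral_mono (cont_intR ((qk_cont lb).sub (qk_cont la)).norm)
          ((hia.add hib).const_mul _) hpt
    _ = cc s0 i / 4 * ((1 - ‖a‖ ^ 2)⁻¹ + (1 - ‖b‖ ^ 2)⁻¹) := by
        rw [integral_const_mul, integral_add hia hib, int_norm_qk_sq la, int_norm_qk_sq lb]
    _ ≤ cc s0 i / 4 * ((cc s0 i)⁻¹ + (cc s0 i / 2)⁻¹) := by
        apply mul_le_mul_of_nonneg_left _ (by linarith)
        apply add_le_add
        · apply inv_anti₀ hcp
          rw [hna]; nlinarith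
        · apply inv_anti₀ (by linarith)
          rw [hnb, hs]; nlinarith
    _ = 3 / 4 := by
        field_simp
        norm_num

lemma uu_L1 (hn : 0 < n) (hζ : ‖ζ‖ = 1) (h0 : 0 ≤ s0) (h : s0 < 1) :
    ∫ t, ‖uu n ζ s0 t‖ ∂mu ≤ 1 := by
  have key : ∀ m : ℕ, ∫ t, ‖qk (conj (pt ζ s0 m)) t - qk (conj (pt ζ s0 0)) t‖ ∂mu ≤
      m * (3 / 4) := by
    intro m
    induction m with
    | zero => simp
    | succ k ih =>
      calc ∫ t, ‖qk (conj (pt ζ s0 (k + 1))) t - qk (conj (pt ζ s0 0)) t‖ ∂mu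
          ≤ ∫ t, (‖qk (conj (pt ζ s0 (k + 1))) t - qk (conj (pt ζ s0 k)) t‖ +
            ‖qk (conj (pt ζ s0 k)) t - qk (conj (pt ζ s0 0)) t‖) ∂mu := by
            apply integral_mono
              (cont_intR ((qk_cont (cpt_lt hζ h0 h _)).sub (qk_cont (cpt_lt hζ h0 h _))).norm)
              ((cont_intR ((qk_cont (cpt_lt hζ h0 h _)).sub (qk_cont (cpt_lt hζ h0 h _))).norm).add
              (cont_intR ((qk_cont (cpt_lt hζ h0 h _)).sub (qk_cont (cpt_lt hζ h0 h _))).norm))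
            intro t
            exact norm_sub_le_norm_sub_add_norm_sub _ _ _
        _ = ∫ t, ‖qk (conj (pt ζ s0 (k + 1))) t - qk (conj (pt ζ s0 k)) t‖ ∂mu +
            ∫ t, ‖qk (conj (pt ζ s0 k)) t - qk (conj (pt ζ s0 0)) t‖ ∂mu :=
            integral_add
              (cont_intR ((qk_cont (cpt_lt hζ h0 h _)).sub (qk_cont (cpt_lt hζ h0 h _))).norm)
              (cont_intR ((qk_cont (cpt_lt hζ h0 h _)).sub (qk_cont (cpt_lt hζ h0 h _))).norm)
        _ ≤ 3 / 4 + k * (3 / 4) := add_le_add (step_L1 hζ h0 h k) ih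
        _ = ((k + 1 : ℕ) : ℝ) * (3 / 4) := by push_cast; ring
  have h1 : ∀ t, ‖uu n ζ s0 t‖ =
      (n : ℝ)⁻¹ * ‖qk (conj (pt ζ s0 n)) t - qk (conj (pt ζ s0 0)) t‖ := by
    intro t
    rw [uu, norm_mul, norm_inv, Complex.norm_natCast]
  simp_rw [h1]
  rw [integral_const_mul]
  have hn' : (0 : ℝ) < n := by exact_mod_cast hn
  calc (n : ℝ)⁻¹ * ∫ t, ‖qk (conj (pt ζ s0 n)) t - qk (conj (pt ζ s0 0)) t‖ ∂mu
      ≤ (n : ℝ)⁻¹ * (n * (3 / 4)) := mul_le_mul_of_nonneg_left (key n) (by positivity)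
    _ = 3 / 4 := by field_simp
    _ ≤ 1 := by norm_num

lemma ww_L1 (hn : 0 < n) (hζ : ‖ζ‖ = 1) (h0 : 0 ≤ s0) (h : s0 < 1) :
    ∫ t, ‖ww n ζ s0 t‖ ∂mu ≤ 1 :=
  le_trans (integral_mono (cont_intR (ww_cont hζ h0 h).norm) (cont_intR (uu_cont hζ h0 h).norm)
    ww_norm_le) (uu_L1 hn hζ h0 h)

lemma re_uu_L1 (hn : 0 < n) (hζ : ‖ζ‖ = 1) (h0 : 0 ≤ s0) (h : s0 < 1) :
    ∫ t, |(uu n ζ s0 t).re| ∂mu ≤ (n : ℝ)⁻¹ := by
  have hn' : (0 : ℝ) < n := by exact_mod_cast hn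
  have h1 : ∀ t, |(uu n ζ s0 t).re| ≤ (n : ℝ)⁻¹ * ((pk (pt ζ s0 n) t + pk (pt ζ s0 0) t) / 2) := by
    intro t
    have e1 : (uu n ζ s0 t).re = (n : ℝ)⁻¹ * ((pk (pt ζ s0 n) t - pk (pt ζ s0 0) t) / 2) := by
      rw [uu, show (n : ℂ)⁻¹ = (((n : ℝ)⁻¹ : ℝ) : ℂ) by push_cast; rfl, Complex.re_ofReal_mul,
        Complex.sub_re, re_qk (cpt_lt hζ h0 h n), re_qk (cpt_lt hζ h0 h 0), Complex.conj_conj,
        Complex.conj_conj]
      ring
    rw [e1, abs_mul, abs_of_pos (by positivity : (0 : ℝ) < (n : ℝ)⁻¹)]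
    apply mul_le_mul_of_nonneg_left _ (by positivity)
    have p1 := pk_nonneg (pt_lt hζ h0 h n) t
    have p2 := pk_nonneg (pt_lt hζ h0 h 0) t
    rw [abs_le]; constructor <;> linarith
  have i1 : Integrable (pk (pt ζ s0 n)) mu := cont_intR (pk_cont (pt_lt hζ h0 h n))
  have i2 : Integrable (pk (pt ζ s0 0)) mu := cont_intR (pk_cont (pt_lt hζ h0 h 0))
  calc ∫ t, |(uu n ζ s0 t).re| ∂mu
      ≤ ∫ t, (n : ℝ)⁻¹ * ((pk (pt ζ s0 n) t + pk (pt ζ s0 0) t) / 2) ∂mu := by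
        apply integral_mono (cont_intR (continuous_re.comp (uu_cont hζ h0 h)).abs) _ h1
        exact ((i1.add i2).div_const 2).const_mul _
    _ = (n : ℝ)⁻¹ := by
        rw [integral_const_mul, integral_div, integral_add i1 i2, int_pk (pt_lt hζ h0 h n),
          int_pk (pt_lt hζ h0 h 0)]
        norm_num

lemma int_uu_HInf (hζ : ‖ζ‖ = 1) (h0 : 0 ≤ s0) (h : s0 < 1) {g : T → ℂ} (hg : g ∈ HInf) :
    ∫ t, g t * uu n ζ s0 t ∂mu = 0 := by
  have e1 : ∀ t, g t * uu n ζ s0 t = (n : ℂ)⁻¹ *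
      (g t * qk (conj (pt ζ s0 n)) t - g t * qk (conj (pt ζ s0 0)) t) := by
    intro t; rw [uu]; ring
  simp_rw [e1]
  rw [integral_const_mul, integral_sub, int_qk_HInf0 hg (cpt_lt hζ h0 h n),
    int_qk_HInf0 hg (cpt_lt hζ h0 h 0), sub_self, mul_zero]
  · exact memLp_integrable (bdd_mul hg.1 (bdd_cont (qk_cont (cpt_lt hζ h0 h _))))
  · exact memLp_integrable (bdd_mul hg.1 (bdd_cont (qk_cont (cpt_lt hζ h0 h _))))

lemma int_re_bound (hn : 0 < n) (hζ : ‖ζ‖ = 1) (h0 : 0 ≤ s0) (h : s0 < 1) {g : T → ℂ}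
    {C : ℝ} (hC : ∀ᵐ t ∂mu, ‖g t‖ ≤ C) :
    ‖∫ t, g t * ((uu n ζ s0 t).re : ℂ) ∂mu‖ ≤ C * (n : ℝ)⁻¹ := by
  have hC0 : 0 ≤ C := by
    obtain ⟨t, ht⟩ := hC.exists
    exact le_trans (norm_nonneg _) ht
  calc ‖∫ t, g t * ((uu n ζ s0 t).re : ℂ) ∂mu‖ ≤ ∫ t, C * |(uu n ζ s0 t).re| ∂mu := by
        apply norm_integral_le_of_norm_le
        · exact (cont_intR (continuous_re.comp (uu_cont hζ h0 h)).abs).const_mul _
        · filter_upwards [hC] with t ht
          rw [norm_mul, Complex.norm_real, Real.norm_eq_abs]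
          exact mul_le_mul_of_nonneg_right ht (abs_nonneg _)
    _ = C * ∫ t, |(uu n ζ s0 t).re| ∂mu := integral_const_mul _ _
    _ ≤ C * (n : ℝ)⁻¹ := mul_le_mul_of_nonneg_left (re_uu_L1 hn hζ h0 h) hC0

lemma int_ww_HInf (hn : 0 < n) (hζ : ‖ζ‖ = 1) (h0 : 0 ≤ s0) (h : s0 < 1) {g : T → ℂ}
    (hg : g ∈ HInf) {C : ℝ} (hC : ∀ᵐ t ∂mu, ‖g t‖ ≤ C) :
    ‖∫ t, g t * ww n ζ s0 t ∂mu‖ ≤ C * (n : ℝ)⁻¹ := by
  have e1 : ∀ t, g t * ww n ζ s0 t = g t * uu n ζ s0 t - g t * ((uu n ζ s0 t).re : ℂ) := by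
    intro t; rw [ww]; ring
  simp_rw [e1]
  rw [integral_sub, int_uu_HInf hζ h0 h hg, zero_sub, norm_neg]
  · exact int_re_bound hn hζ h0 h hC
  · exact memLp_integrable (bdd_mul hg.1 (bdd_cont (uu_cont hζ h0 h)))
  · exact memLp_integrable (bdd_mul hg.1 (bdd_cont
      (continuous_ofReal.comp (continuous_re.comp (uu_cont hζ h0 h)))))

lemma int_ww_conj_HInf (hn : 0 < n) (hζ : ‖ζ‖ = 1) (h0 : 0 ≤ s0) (h : s0 < 1) {g : T → ℂ}
    (hg : g ∈ HInf) {C : ℝ} (hC : ∀ᵐ t ∂mu, ‖g t‖ ≤ C) :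
    ‖∫ t, conj (g t) * ww n ζ s0 t ∂mu‖ ≤ C * (n : ℝ)⁻¹ := by
  have e1 : ∀ t, conj (g t) * ww n ζ s0 t =
      conj (g t) * ((uu n ζ s0 t).re : ℂ) - conj (g t * uu n ζ s0 t) := by
    intro t
    have : ww n ζ s0 t = ((uu n ζ s0 t).re : ℂ) - conj (uu n ζ s0 t) := by
      rw [ww]
      apply Complex.ext <;> simp
    rw [this, map_mul]; ring
  simp_rw [e1]
  rw [integral_sub, integral_conj, int_uu_HInf hζ h0 h hg, map_zero, sub_zero]
  · refine int_re_bound hn hζ h0 h ?_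
    filter_upwards [hC] with t ht
    simpa using ht
  · exact memLp_integrable (bdd_mul (bdd_conj hg.1) (bdd_cont
      (continuous_ofReal.comp (continuous_re.comp (uu_cont hζ h0 h)))))
  · exact memLp_integrable (bdd_conj (bdd_mul hg.1 (bdd_cont (uu_cont hζ h0 h))))

/-- asymptotic annihilation of `Lb` by the test functions -/
lemma Lb_test {f : T → ℂ} (hf : f ∈ Lb) {ε : ℝ} (hε : 0 < ε) :
    ∃ N : ℕ, ∀ n ≥ N, ∀ (ζ : ℂ) (s0 : ℝ), ‖ζ‖ = 1 → 0 ≤ s0 → s0 < 1 →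
      ‖∫ t, f t * ww n ζ s0 t ∂mu‖ ≤ ε := by
  obtain ⟨g, hg, k, hk, hgk⟩ := hf.2 (ε / 3) (by linarith)
  obtain ⟨C, hC0, hC⟩ := exists_bound hg.1
  obtain ⟨D, hD0, hD⟩ := exists_bound hk.1
  obtain ⟨N, hN⟩ := exists_nat_gt (3 * (C + D + 1) / ε)
  refine ⟨max N 1, fun n hn ζ s0 hζ h0 h => ?_⟩
  have hn1 : 0 < n := by have := le_trans (le_max_right N 1) hn; omega
  have hnN : (N : ℝ) ≤ n := by exact_mod_cast le_trans (le_max_left N 1) hn
  have hn' : (0 : ℝ) < n := by exact_mod_cast hn1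
  have hinv : 3 * (C + D + 1) * (n : ℝ)⁻¹ ≤ ε := by
    rw [← div_eq_mul_inv, div_le_iff₀ hn']
    rw [div_lt_iff₀ hε] at hN
    nlinarith
  have hw := cont_int (ww_cont (n := n) hζ h0 h)
  have hwb := bdd_cont (ww_cont (n := n) hζ h0 h)
  have i0 : MemLp (fun t => g t + conj (k t)) ∞ mu := hg.1.add (bdd_conj hk.1)
  have e1 : ∀ t, f t * ww n ζ s0 t = (f t - (g t + conj (k t))) * ww n ζ s0 t +
      (g t * ww n ζ s0 t + conj (k t) * ww n ζ s0 t) := by intro t; ring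
  simp_rw [e1]
  rw [integral_add, integral_add]
  · have b1 : ‖∫ t, (f t - (g t + conj (k t))) * ww n ζ s0 t ∂mu‖ ≤ ε / 3 := by
      calc ‖∫ t, (f t - (g t + conj (k t))) * ww n ζ s0 t ∂mu‖
          ≤ ∫ t, ε / 3 * ‖ww n ζ s0 t‖ ∂mu := by
            apply norm_integral_le_of_norm_le (hw.norm.const_mul _)
            filter_upwards [hgk] with t ht
            rw [norm_mul]
            exact mul_le_mul_of_nonneg_right ht (norm_nonneg _)
        _ = ε / 3 * ∫ t, ‖ww n ζ s0 t‖ ∂mu := integral_const_mul _ _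
        _ ≤ ε / 3 * 1 := mul_le_mul_of_nonneg_left (ww_L1 hn1 hζ h0 h) (by linarith)
        _ = ε / 3 := mul_one _
    have b2 := int_ww_HInf hn1 hζ h0 h hg hC
    have b3 := int_ww_conj_HInf hn1 hζ h0 h hk hD
    have hnn : (0 : ℝ) ≤ (n : ℝ)⁻¹ := by positivity
    have t1 := norm_add_le (∫ t, (f t - (g t + conj (k t))) * ww n ζ s0 t ∂mu)
      ((∫ t, g t * ww n ζ s0 t ∂mu) + ∫ t, conj (k t) * ww n ζ s0 t ∂mu)
    have t2 := norm_add_le (∫ t, g t * ww n ζ s0 t ∂mu) (∫ t, conj (k t) * ww n ζ s0 t ∂mu)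
    nlinarith
  · exact memLp_integrable (bdd_mul hg.1 hwb)
  · exact memLp_integrable (bdd_mul (bdd_conj hk.1) hwb)
  · exact memLp_integrable (bdd_mul (hf.1.sub i0) hwb)
  · exact (memLp_integrable (bdd_mul hg.1 hwb)).add
      (memLp_integrable (bdd_mul (bdd_conj hk.1) hwb))

end

section

open MeasureTheory AddCircle Complex Filter Topology
open scoped ENNReal ComplexConjugate

variable {n : ℕ} {ζ : ℂ} {s0 : ℝ}

lemma sum_HInf {ι : Type*} (s : Finset ι) (f : ι → T → ℂ) (h : ∀ i ∈ s, f i ∈ HInf) :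
    (fun t => ∑ i ∈ s, f i t) ∈ HInf := by
  classical
  induction s using Finset.induction_on with
  | empty => simpa using const_HInf 0
  | insert a s ha ih =>
    simp_rw [Finset.sum_insert ha]
    exact add_HInf (h a (Finset.mem_insert_self _ _))
      (ih fun i hi => h i (Finset.mem_insert_of_mem hi))

lemma piece_HInf {I : T → ℂ} (hI : I ∈ HInf) {a : ℂ} (ha : ‖a‖ < 1) :
    (fun t => I t * ck a t - I t * qk (conj a) t - ext I a * ck a t) ∈ HInf := by
  have ha' : ‖conj a‖ < 1 := by simpa using ha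
  have b1 := bdd_mul hI.1 (bdd_cont (ck_cont ha))
  have b2 := bdd_mul hI.1 (bdd_cont (qk_cont ha'))
  have b3 : MemLp (fun t => ext I a * ck a t) ∞ mu := (bdd_cont (ck_cont ha)).const_mul _
  refine (mem_HInf_iff ((b1.sub b2).sub b3)).2 ?_
  intro m hm
  change ∫ t, (I t * ck a t - I t * qk (conj a) t - ext I a * ck a t) * e m t ∂mu = 0
  have e1 : ∀ t, (I t * ck a t - I t * qk (conj a) t - ext I a * ck a t) * e m t =
      I t * e m t * ck a t - I t * e m t * qk (conj a) t -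
        ext I a * ((1 : ℂ) * e m t * ck a t) := by
    intro t; ring
  simp_rw [e1]
  have be := bdd_e (m : ℤ)
  have i1 : Integrable (fun t => I t * e m t * ck a t) mu :=
    memLp_integrable (bdd_mul (bdd_mul hI.1 be) (bdd_cont (ck_cont ha)))
  have i2 : Integrable (fun t => I t * e m t * qk (conj a) t) mu :=
    memLp_integrable (bdd_mul (bdd_mul hI.1 be) (bdd_cont (qk_cont ha')))
  have i3 : Integrable (fun t => ext I a * ((1 : ℂ) * e m t * ck a t)) mu :=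
    (cont_int ((continuous_const.mul (e_cont m)).mul (ck_cont ha))).const_mul _
  have i12 : Integrable (fun t => I t * e m t * ck a t - I t * e m t * qk (conj a) t) mu :=
    i1.sub i2
  rw [integral_sub i12 i3, integral_sub i1 i2, integral_const_mul, int_ck_HInf hI ha,
    int_qk_HInf hI ha' m (by exact_mod_cast hm), int_ck_HInf (const_HInf 1) ha, ext_one]
  ring

lemma FF_HInf (hζ : ‖ζ‖ = 1) (h0 : 0 ≤ s0) (h : s0 < 1) {I : T → ℂ} (hI : I ∈ HInf) :
    FF n ζ s0 I ∈ HInf := by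
  have key := sum_HInf (Finset.range n) (fun i t => (cc s0 i : ℂ) *
    (I t * ck (pt ζ s0 i) t - I t * qk (conj (pt ζ s0 i)) t -
      ext I (pt ζ s0 i) * ck (pt ζ s0 i) t))
    (fun i _ => smul_HInf (piece_HInf hI (pt_lt hζ h0 h i)) _)
  refine congr_HInf key (Eventually.of_forall fun t => ?_)
  simp only [FF, kk, KK, map_sum, map_mul, Complex.conj_ofReal, ck_conj]
  rw [← Finset.sum_sub_distrib, Finset.mul_sum, ← Finset.sum_sub_distrib]
  apply Finset.sum_congr rfl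
  intro i _
  ring

lemma im_ck_bound (hζ : ‖ζ‖ = 1) (h0 : 0 ≤ s0) (h : s0 < 1) (i : ℕ) (t : T) :
    cc s0 i * |(ck (pt ζ s0 i) t).im| ≤
      15 * (cc s0 i / (cc s0 i + ‖1 - ζ * e (-1) t‖) -
        cc s0 (i + 1) / (cc s0 (i + 1) + ‖1 - ζ * e (-1) t‖)) := by
  set η := ζ * e (-1) t with hη
  set c := cc s0 i with hc
  set y := ‖1 - η‖ with hy
  have hcp : 0 < c := cc_pos h i
  have hc1 : c ≤ 1 := cc_le h0 i h
  have hηn : ‖η‖ = 1 := by rw [hη, norm_mul, hζ, e_norm, one_mul]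
  have hy0 : 0 ≤ y := norm_nonneg _
  rw [cc_succ, ← hc]
  set d := 1 - ((1 - c : ℝ) : ℂ) * η with hd
  set D := ‖d‖ with hD
  have hck : ck (pt ζ s0 i) t = d⁻¹ := by
    rw [ck, pt, hd, hη, ← hc, mul_assoc]
  have hD1 : c ≤ D := by
    have := norm_sub_norm_le (1 : ℂ) (((1 - c : ℝ) : ℂ) * η)
    rw [norm_mul, hηn, norm_one, mul_one, Complex.norm_real, Real.norm_of_nonneg (by linarith)]
      at this
    rw [hD, hd]; linarith
  have hD2 : y ≤ 2 * D := by
    have e1 : 1 - η = d - (c : ℂ) * η := by rw [hd]; push_cast; ring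
    have := norm_sub_le d ((c : ℂ) * η)
    rw [← e1, norm_mul, hηn, mul_one, Complex.norm_real, Real.norm_of_nonneg hcp.le] at this
    rw [hy]; linarith
  have hD0 : 0 < D := lt_of_lt_of_le hcp hD1
  have him : |(ck (pt ζ s0 i) t).im| ≤ y / D ^ 2 := by
    rw [hck, Complex.inv_im, Complex.normSq_eq_norm_sq, ← hD, abs_div, abs_neg,
      abs_of_pos (by positivity : 0 < D ^ 2)]
    apply div_le_div_of_nonneg_right _ (by positivity)
    have e1 : d.im = (1 - c) * (1 - η).im := by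
      rw [hd, Complex.sub_im, Complex.sub_im, Complex.im_ofReal_mul]
      simp
    rw [e1, abs_mul, abs_of_nonneg (by linarith : 0 ≤ 1 - c)]
    have := Complex.abs_im_le_norm (1 - η)
    rw [← hy] at this
    nlinarith [abs_nonneg (1 - η).im]
  have e2 : 15 * (c / (c + y) - c / 2 / (c / 2 + y)) = 15 * (c * y) / ((c + y) * (c + 2 * y)) := by
    have : c + y ≠ 0 := by positivity
    have : c + 2 * y ≠ 0 := by positivity
    have : c / 2 + y ≠ 0 := by positivity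
    field_simp
    ring
  rw [e2]
  calc c * |(ck (pt ζ s0 i) t).im| ≤ c * (y / D ^ 2) := mul_le_mul_of_nonneg_left him hcp.le
    _ = 15 * (c * y) / (15 * D ^ 2) := by field_simp
    _ ≤ 15 * (c * y) / ((c + y) * (c + 2 * y)) := by
        apply div_le_div_of_nonneg_left (by positivity) (by positivity)
        nlinarith

lemma im_kk_bound (hζ : ‖ζ‖ = 1) (h0 : 0 ≤ s0) (h : s0 < 1) (t : T) :
    |(kk n ζ s0 t).im| ≤ 15 := by
  have h1 : (kk n ζ s0 t).im = ∑ i ∈ Finset.range n, cc s0 i * (ck (pt ζ s0 i) t).im := by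
    rw [kk, Complex.im_sum]
    apply Finset.sum_congr rfl
    intro i _
    rw [Complex.im_ofReal_mul]
  rw [h1]
  set y := ‖1 - ζ * e (-1) t‖ with hy
  have hy0 : 0 ≤ y := norm_nonneg _
  calc |∑ i ∈ Finset.range n, cc s0 i * (ck (pt ζ s0 i) t).im|
      ≤ ∑ i ∈ Finset.range n, |cc s0 i * (ck (pt ζ s0 i) t).im| := Finset.abs_sum_le_sum_abs _ _
    _ ≤ ∑ i ∈ Finset.range n, 15 * (cc s0 i / (cc s0 i + y) -
          cc s0 (i + 1) / (cc s0 (i + 1) + y)) := by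
        apply Finset.sum_le_sum
        intro i _
        rw [abs_mul, abs_of_pos (cc_pos h i)]
        exact im_ck_bound hζ h0 h i t
    _ = 15 * (cc s0 0 / (cc s0 0 + y) - cc s0 n / (cc s0 n + y)) := by
        rw [← Finset.mul_sum, Finset.sum_range_sub']
    _ ≤ 15 := by
        have p0 := cc_pos h 0
        have pn := cc_pos h n
        have a1 : cc s0 0 / (cc s0 0 + y) ≤ 1 := by
          rw [div_le_one (by positivity)]; linarith
        have a2 : 0 ≤ cc s0 n / (cc s0 n + y) := by positivity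
        linarith

lemma kk_sub (t : T) : kk n ζ s0 t - conj (kk n ζ s0 t) =
    ((2 * (kk n ζ s0 t).im : ℝ) : ℂ) * Complex.I := by
  rw [Complex.sub_conj]

lemma norm_kk_sub (hζ : ‖ζ‖ = 1) (h0 : 0 ≤ s0) (h : s0 < 1) (t : T) :
    ‖kk n ζ s0 t - conj (kk n ζ s0 t)‖ ≤ 30 := by
  rw [kk_sub, norm_mul, Complex.norm_I, mul_one, Complex.norm_real, Real.norm_eq_abs, abs_mul,
    abs_of_pos (by norm_num : (0 : ℝ) < 2)]
  linarith [im_kk_bound (n := n) hζ h0 h t]

lemma norm_KK (hζ : ‖ζ‖ = 1) (h0 : 0 ≤ s0) (h : s0 < 1) {I : T → ℂ} {ε : ℝ}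
    (hε : ∀ i < n, ‖ext I (pt ζ s0 i)‖ ≤ ε) (t : T) : ‖KK n ζ s0 I t‖ ≤ n * ε := by
  rw [KK]
  calc ‖∑ i ∈ Finset.range n, (cc s0 i : ℂ) * ext I (pt ζ s0 i) * ck (pt ζ s0 i) t‖
      ≤ ∑ i ∈ Finset.range n, ε := by
        apply norm_sum_le_of_le
        intro i hi
        have hc := cc_pos h i
        have h1 := norm_ck_le (pt_lt hζ h0 h i) t
        rw [pt_norm hζ h0 h, show 1 - (1 - cc s0 i) = cc s0 i by ring] at h1
        rw [norm_mul, norm_mul, Complex.norm_real, Real.norm_of_nonneg hc.le]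
        have h2 := hε i (Finset.mem_range.1 hi)
        calc cc s0 i * ‖ext I (pt ζ s0 i)‖ * ‖ck (pt ζ s0 i) t‖
            ≤ cc s0 i * ε * (cc s0 i)⁻¹ := by
              apply mul_le_mul (mul_le_mul_of_nonneg_left h2 hc.le) h1 (norm_nonneg _)
              exact mul_nonneg hc.le (le_trans (norm_nonneg _) h2)
          _ = ε := by field_simp
    _ = n * ε := by rw [Finset.sum_const, Finset.card_range, nsmul_eq_mul]

lemma FF_bound (hζ : ‖ζ‖ = 1) (h0 : 0 ≤ s0) (h : s0 < 1) {I : T → ℂ} {ε : ℝ}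
    (hI : ∀ᵐ t ∂mu, ‖I t‖ = 1)
    (hε : ∀ i < n, ‖ext I (pt ζ s0 i)‖ ≤ ε) : ∀ᵐ t ∂mu, ‖FF n ζ s0 I t‖ ≤ 30 + n * ε := by
  filter_upwards [hI] with t ht
  rw [FF]
  refine le_trans (norm_sub_le _ _) (add_le_add ?_ (norm_KK hζ h0 h hε t))
  rw [norm_mul, ht, one_mul]
  exact norm_kk_sub hζ h0 h t

lemma kk_cont (hζ : ‖ζ‖ = 1) (h0 : 0 ≤ s0) (h : s0 < 1) : Continuous (kk n ζ s0) :=
  continuous_finsetSum _ fun i _ => continuous_const.mul (ck_cont (pt_lt hζ h0 h i))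

lemma KK_cont (hζ : ‖ζ‖ = 1) (h0 : 0 ≤ s0) (h : s0 < 1) {I : T → ℂ} :
    Continuous (KK n ζ s0 I) :=
  continuous_finsetSum _ fun i _ => continuous_const.mul (ck_cont (pt_lt hζ h0 h i))

lemma uu_HInf (hζ : ‖ζ‖ = 1) (h0 : 0 ≤ s0) (h : s0 < 1) : uu n ζ s0 ∈ HInf :=
  smul_HInf (sub_HInf (qk_HInf (cpt_lt hζ h0 h n)) (qk_HInf (cpt_lt hζ h0 h 0))) _

lemma ext_add {f g : T → ℂ} (hf : Integrable f mu) (hg : Integrable g mu) {a : ℂ} (ha : ‖a‖ < 1) :
    ext (fun t => f t + g t) a = ext f a + ext g a := by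
  have hfg : Integrable (fun t => f t + g t) mu := hf.add hg
  rw [← int_ck_ext hfg ha, ← int_ck_ext hf ha, ← int_ck_ext hg ha, ← integral_add]
  · congr 1; funext t; ring
  · exact hf.mul_bdd (c := (1 - ‖a‖)⁻¹) (ck_cont ha).aestronglyMeasurable
      (Eventually.of_forall fun t => norm_ck_le ha t)
  · exact hg.mul_bdd (c := (1 - ‖a‖)⁻¹) (ck_cont ha).aestronglyMeasurable
      (Eventually.of_forall fun t => norm_ck_le ha t)

lemma ext_smul {f : T → ℂ} (hf : Integrable f mu) (c : ℂ) {a : ℂ} (ha : ‖a‖ < 1) :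
    ext (fun t => c * f t) a = c * ext f a := by
  rw [← int_ck_ext (hf.const_mul c) ha, ← int_ck_ext hf ha, ← integral_const_mul]
  congr 1; funext t; ring

lemma ext_uu (hζ : ‖ζ‖ = 1) (h0 : 0 ≤ s0) (h : s0 < 1) {a : ℂ} (ha : ‖a‖ < 1) :
    ext (uu n ζ s0) a = (n : ℂ)⁻¹ *
      ((1 - conj (pt ζ s0 n) * a)⁻¹ - (1 - conj (pt ζ s0 0) * a)⁻¹) := by
  have h1 := cont_int (qk_cont (cpt_lt hζ h0 h n))
  have h2 := cont_int (qk_cont (cpt_lt hζ h0 h 0))
  have e1 : uu n ζ s0 = fun t => (n : ℂ)⁻¹ * (qk (conj (pt ζ s0 n)) t +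
      (-1) * qk (conj (pt ζ s0 0)) t) := by
    funext t; rw [uu]; ring
  have h12 : Integrable (fun t => qk (conj (pt ζ s0 n)) t +
      (-1) * qk (conj (pt ζ s0 0)) t) mu := h1.add (h2.const_mul _)
  rw [e1, ext_smul h12 _ ha, ext_add h1 (h2.const_mul _) ha,
    ext_smul h2 _ ha, ext_qk (cpt_lt hζ h0 h n) ha, ext_qk (cpt_lt hζ h0 h 0) ha]
  ring

lemma conj_pt_mul (hζ : ‖ζ‖ = 1) (i j : ℕ) :
    conj (pt ζ s0 i) * pt ζ s0 j = (((1 - cc s0 i) * (1 - cc s0 j) : ℝ) : ℂ) := by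
  have h1 : conj ζ * ζ = 1 := by
    rw [mul_comm, Complex.mul_conj, Complex.normSq_eq_norm_sq, hζ]; simp
  simp only [pt, map_mul, Complex.conj_ofReal]
  push_cast
  linear_combination ((1 - (cc s0 i : ℂ)) * (1 - (cc s0 j : ℂ))) * h1

/-- the main pairing `∫ u k` -/
lemma int_uu_kk (hζ : ‖ζ‖ = 1) (h0 : 0 ≤ s0) (h : s0 < 1) :
    ∫ t, uu n ζ s0 t * kk n ζ s0 t ∂mu = (((n : ℝ)⁻¹ * ∑ i ∈ Finset.range n,
      cc s0 i * ((1 - (1 - cc s0 n) * (1 - cc s0 i))⁻¹ -
        (1 - (1 - cc s0 0) * (1 - cc s0 i))⁻¹) : ℝ) : ℂ) := by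
  have e1 : ∀ t, uu n ζ s0 t * kk n ζ s0 t = ∑ i ∈ Finset.range n,
      (cc s0 i : ℂ) * (uu n ζ s0 t * ck (pt ζ s0 i) t) := by
    intro t
    rw [kk, Finset.mul_sum]
    apply Finset.sum_congr rfl
    intro i _; ring
  simp_rw [e1]
  rw [integral_finsetSum]
  · push_cast
    rw [Finset.mul_sum]
    apply Finset.sum_congr rfl
    intro i _
    rw [integral_const_mul, int_ck_ext (cont_int (uu_cont hζ h0 h)) (pt_lt hζ h0 h i),
      ext_uu hζ h0 h (pt_lt hζ h0 h i), conj_pt_mul hζ, conj_pt_mul hζ]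
    push_cast
    ring
  · intro i _
    exact (cont_int ((uu_cont hζ h0 h).mul (ck_cont (pt_lt hζ h0 h i)))).const_mul _

lemma sum_lower (h0 : 0 ≤ s0) (h : s0 < 1) (hn : 0 < n) :
    1 / 2 - 2 * (n : ℝ)⁻¹ ≤ (n : ℝ)⁻¹ * ∑ i ∈ Finset.range n,
      cc s0 i * ((1 - (1 - cc s0 n) * (1 - cc s0 i))⁻¹ -
        (1 - (1 - cc s0 0) * (1 - cc s0 i))⁻¹) := by
  have hn' : (0 : ℝ) < n := by exact_mod_cast hn
  have key : ∀ i ∈ Finset.range n, 1 / 2 - (1 / 2 : ℝ) ^ i ≤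
      cc s0 i * ((1 - (1 - cc s0 n) * (1 - cc s0 i))⁻¹ -
        (1 - (1 - cc s0 0) * (1 - cc s0 i))⁻¹) := by
    intro i hi
    have hin := (Finset.mem_range.1 hi).le
    have ci := cc_pos h i
    have ci1 := cc_le h0 i h
    have cn := cc_pos h n
    have c0 := cc_pos h 0
    have c01 := cc_le h0 0 h
    have hni := cc_anti h hin
    have a1 : 1 / 2 ≤ cc s0 i * (1 - (1 - cc s0 n) * (1 - cc s0 i))⁻¹ := by
      rw [← div_eq_mul_inv, div_le_div_iff₀ (by norm_num) (by nlinarith)]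
      nlinarith
    have a2 : cc s0 i * (1 - (1 - cc s0 0) * (1 - cc s0 i))⁻¹ ≤ (1 / 2 : ℝ) ^ i := by
      have e1 : cc s0 i = cc s0 0 * (1 / 2 : ℝ) ^ i := by
        simp [cc, div_eq_mul_inv]
      have hp : (0 : ℝ) < (1 / 2 : ℝ) ^ i := by positivity
      rw [← div_eq_mul_inv, div_le_iff₀ (by nlinarith)]
      have : cc s0 0 ≤ 1 - (1 - cc s0 0) * (1 - cc s0 i) := by nlinarith
      calc cc s0 i = (1 / 2 : ℝ) ^ i * cc s0 0 := by rw [mul_comm]; exact e1
        _ ≤ _ := mul_le_mul_of_nonneg_left this hp.le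
    rw [mul_sub]; linarith
  have h2 := Finset.sum_le_sum key
  have h3 : ∑ i ∈ Finset.range n, (1 / 2 - (1 / 2 : ℝ) ^ i) ≥ n / 2 - 2 := by
    rw [Finset.sum_sub_distrib, Finset.sum_const, Finset.card_range, nsmul_eq_mul]
    have : ∑ i ∈ Finset.range n, (1 / 2 : ℝ) ^ i ≤ 2 := sum_geometric_two_le n
    linarith
  have h4 : (n : ℝ)⁻¹ * (n / 2 - 2) = 1 / 2 - 2 * (n : ℝ)⁻¹ := by field_simp
  rw [← h4]
  exact mul_le_mul_of_nonneg_left (by linarith) (by positivity)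

lemma int_uu_conj_kk (hζ : ‖ζ‖ = 1) (h0 : 0 ≤ s0) (h : s0 < 1) :
    ∫ t, uu n ζ s0 t * conj (kk n ζ s0 t) ∂mu = 0 := by
  have e1 : ∀ t, uu n ζ s0 t * conj (kk n ζ s0 t) = ∑ i ∈ Finset.range n,
      (cc s0 i : ℂ) * (uu n ζ s0 t * qk (conj (pt ζ s0 i)) t) := by
    intro t
    simp only [kk, map_sum, map_mul, Complex.conj_ofReal, ck_conj]
    rw [Finset.mul_sum]
    apply Finset.sum_congr rfl
    intro i _; ring
  simp_rw [e1]
  rw [integral_finsetSum]
  · apply Finset.sum_eq_zero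
    intro i _
    rw [integral_const_mul]
    have := int_uu_HInf (n := n) hζ h0 h (qk_HInf (cpt_lt hζ h0 h i))
    have e2 : ∫ t, uu n ζ s0 t * qk (conj (pt ζ s0 i)) t ∂mu = 0 := by
      rw [← this]; congr 1; funext t; ring
    rw [e2, mul_zero]
  · intro i _
    exact (cont_int ((uu_cont hζ h0 h).mul (qk_cont (cpt_lt hζ h0 h i)))).const_mul _

/-- the pairing of the test function with `conj I * F` is bounded below -/
lemma FF_test (hn : 0 < n) (hζ : ‖ζ‖ = 1) (h0 : 0 ≤ s0) (h : s0 < 1) {I : T → ℂ} {ε : ℝ}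
    (hI : ∀ᵐ t ∂mu, ‖I t‖ = 1) (hIm : MemLp I ∞ mu)
    (hε : ∀ i < n, ‖ext I (pt ζ s0 i)‖ ≤ ε) :
    1 / 2 - 32 * (n : ℝ)⁻¹ - n * ε ≤
      ‖∫ t, (conj (I t) * FF n ζ s0 I t) * ww n ζ s0 t ∂mu‖ := by
  have hn' : (0 : ℝ) < n := by exact_mod_cast hn
  have cu := uu_cont (n := n) hζ h0 h
  have cw := ww_cont (n := n) hζ h0 h
  have ck' := kk_cont (n := n) hζ h0 h
  have cK := KK_cont (n := n) (I := I) hζ h0 h
  have ckk : Continuous fun t => kk n ζ s0 t - conj (kk n ζ s0 t) :=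
    ck'.sub (continuous_conj.comp ck')
  have cre : Continuous fun t => (((uu n ζ s0 t).re : ℝ) : ℂ) :=
    continuous_ofReal.comp (continuous_re.comp cu)
  have e1 : (fun t => (conj (I t) * FF n ζ s0 I t) * ww n ζ s0 t) =ᵐ[mu] fun t =>
      uu n ζ s0 t * (kk n ζ s0 t - conj (kk n ζ s0 t)) -
      (kk n ζ s0 t - conj (kk n ζ s0 t)) * ((uu n ζ s0 t).re : ℂ) -
      conj (I t) * (KK n ζ s0 I t * ww n ζ s0 t) := by
    filter_upwards [hI] with t ht
    have h1 : conj (I t) * I t = 1 := by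
      rw [mul_comm, Complex.mul_conj, Complex.normSq_eq_norm_sq, ht]; simp
    rw [FF, ww]
    linear_combination ((kk n ζ s0 t - conj (kk n ζ s0 t)) *
      (uu n ζ s0 t - ((uu n ζ s0 t).re : ℂ))) * h1
  rw [integral_congr_ae e1]
  have i1 : Integrable (fun t => uu n ζ s0 t * (kk n ζ s0 t - conj (kk n ζ s0 t))) mu :=
    cont_int (cu.mul ckk)
  have i2 : Integrable (fun t => (kk n ζ s0 t - conj (kk n ζ s0 t)) *
      ((uu n ζ s0 t).re : ℂ)) mu := cont_int (ckk.mul cre)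
  have i3 : Integrable (fun t => conj (I t) * (KK n ζ s0 I t * ww n ζ s0 t)) mu :=
    memLp_integrable (bdd_mul (bdd_conj hIm) (bdd_cont (cK.mul cw)))
  have i12 : Integrable (fun t => uu n ζ s0 t * (kk n ζ s0 t - conj (kk n ζ s0 t)) -
      (kk n ζ s0 t - conj (kk n ζ s0 t)) * ((uu n ζ s0 t).re : ℂ)) mu := i1.sub i2
  rw [integral_sub i12 i3, integral_sub i1 i2]
  have v1 : ∫ t, uu n ζ s0 t * (kk n ζ s0 t - conj (kk n ζ s0 t)) ∂mu =
      ∫ t, uu n ζ s0 t * kk n ζ s0 t ∂mu := by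
    simp_rw [mul_sub]
    have j1 : Integrable (fun t => uu n ζ s0 t * kk n ζ s0 t) mu := cont_int (cu.mul ck')
    have j2 : Integrable (fun t => uu n ζ s0 t * conj (kk n ζ s0 t)) mu :=
      cont_int (cu.mul (continuous_conj.comp ck'))
    rw [integral_sub j1 j2, int_uu_conj_kk hζ h0 h, sub_zero]
  have b1 : 1 / 2 - 2 * (n : ℝ)⁻¹ ≤
      ‖∫ t, uu n ζ s0 t * (kk n ζ s0 t - conj (kk n ζ s0 t)) ∂mu‖ := by
    rw [v1, int_uu_kk hζ h0 h, Complex.norm_real, Real.norm_eq_abs]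
    exact le_trans (sum_lower h0 h hn) (le_abs_self _)
  have b2 : ‖∫ t, (kk n ζ s0 t - conj (kk n ζ s0 t)) * ((uu n ζ s0 t).re : ℂ) ∂mu‖ ≤
      30 * (n : ℝ)⁻¹ :=
    int_re_bound hn hζ h0 h (Eventually.of_forall fun t => norm_kk_sub hζ h0 h t)
  have hnε : 0 ≤ n * ε := le_trans (norm_nonneg _) (norm_KK hζ h0 h hε (0 : T))
  have b3 : ‖∫ t, conj (I t) * (KK n ζ s0 I t * ww n ζ s0 t) ∂mu‖ ≤ n * ε := by
    calc ‖∫ t, conj (I t) * (KK n ζ s0 I t * ww n ζ s0 t) ∂mu‖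
        ≤ ∫ t, n * ε * ‖ww n ζ s0 t‖ ∂mu := by
          apply norm_integral_le_of_norm_le ((cont_intR cw.norm).const_mul _)
          filter_upwards [hI] with t ht
          rw [norm_mul, norm_mul, RCLike.norm_conj, ht, one_mul]
          exact mul_le_mul_of_nonneg_right (norm_KK hζ h0 h hε t) (norm_nonneg _)
      _ = n * ε * ∫ t, ‖ww n ζ s0 t‖ ∂mu := integral_const_mul _ _
      _ ≤ n * ε * 1 := mul_le_mul_of_nonneg_left (ww_L1 hn hζ h0 h) hnε
      _ = n * ε := mul_one _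
  set A := ∫ t, uu n ζ s0 t * (kk n ζ s0 t - conj (kk n ζ s0 t)) ∂mu
  set B := ∫ t, (kk n ζ s0 t - conj (kk n ζ s0 t)) * ((uu n ζ s0 t).re : ℂ) ∂mu
  set C := ∫ t, conj (I t) * (KK n ζ s0 I t * ww n ζ s0 t) ∂mu
  have t1 : ‖A‖ ≤ ‖A - B - C‖ + (‖B‖ + ‖C‖) := by
    calc ‖A‖ = ‖(A - B - C) + (B + C)‖ := by congr 1; ring
      _ ≤ ‖A - B - C‖ + ‖B + C‖ := norm_add_le _ _
      _ ≤ ‖A - B - C‖ + (‖B‖ + ‖C‖) := by gcongr; exact norm_add_le _ _
  linarith

end

section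

open MeasureTheory AddCircle Complex Filter Topology
open scoped ENNReal ComplexConjugate

/-- distance of `e^{it}` to `ξ` -/
noncomputable def yy (ξ : ℂ) (t : T) : ℝ := ‖1 - conj ξ * e 1 t‖

/-- the localiser `ρ / (ρ + v)`, `v = 1 - conj ξ e_1` -/
noncomputable def pr (ξ : ℂ) (ρ : ℝ) (t : T) : ℂ := (ρ : ℂ) / ((ρ : ℂ) + (1 - conj ξ * e 1 t))

variable {ξ : ℂ}

lemma re_v (hξ : ‖ξ‖ = 1) (t : T) : 0 ≤ (1 - conj ξ * e 1 t).re := by
  have h := Complex.re_le_norm (conj ξ * e 1 t)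
  rw [norm_mul, RCLike.norm_conj, hξ, e_norm, one_mul] at h
  simp only [Complex.sub_re, Complex.one_re]
  linarith

lemma den_ge_rho (hξ : ‖ξ‖ = 1) {ρ : ℝ} (t : T) :
    ρ ≤ ‖(ρ : ℂ) + (1 - conj ξ * e 1 t)‖ := by
  refine le_trans ?_ (Complex.re_le_norm _)
  have := re_v hξ t
  simp only [Complex.add_re, Complex.ofReal_re]
  linarith

lemma den_ge_y (hξ : ‖ξ‖ = 1) {ρ : ℝ} (hρ : 0 < ρ) (t : T) :
    yy ξ t ≤ ‖(ρ : ℂ) + (1 - conj ξ * e 1 t)‖ := by
  have h := re_v hξ t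
  rw [yy]
  set v := 1 - conj ξ * e 1 t with hv
  apply le_of_sq_le_sq _ (norm_nonneg _)
  rw [← Complex.normSq_eq_norm_sq, ← Complex.normSq_eq_norm_sq, Complex.normSq_apply,
    Complex.normSq_apply]
  simp only [Complex.add_re, Complex.add_im, Complex.ofReal_re, Complex.ofReal_im]
  nlinarith

lemma pr_den_ne (hξ : ‖ξ‖ = 1) {ρ : ℝ} (hρ : 0 < ρ) (t : T) :
    (ρ : ℂ) + (1 - conj ξ * e 1 t) ≠ 0 := by
  have := den_ge_rho hξ (ρ := ρ) t
  rw [← norm_pos_iff]; linarith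

lemma pr_cont (hξ : ‖ξ‖ = 1) {ρ : ℝ} (hρ : 0 < ρ) : Continuous (pr ξ ρ) :=
  continuous_const.div (continuous_const.add (continuous_const.sub
    (continuous_const.mul (e_cont _)))) (pr_den_ne hξ hρ)

lemma yy_cont : Continuous (yy ξ) :=
  (continuous_const.sub (continuous_const.mul (e_cont _))).norm

lemma yy_nonneg (t : T) : 0 ≤ yy ξ t := norm_nonneg _

lemma pr_eq_qk (hξ : ‖ξ‖ = 1) {ρ : ℝ} (hρ : 0 < ρ) (t : T) :
    pr ξ ρ t = ((ρ / (1 + ρ) : ℝ) : ℂ) * qk (((1 + ρ)⁻¹ : ℝ) * conj ξ) t := by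
  have h1 := pr_den_ne hξ hρ t
  have h2 : ((1 : ℂ) + ρ) ≠ 0 := by
    have : ((1 + ρ : ℝ) : ℂ) ≠ 0 := by exact_mod_cast (by linarith : (1 + ρ) ≠ 0)
    simpa using this
  rw [pr, qk]
  push_cast
  have e1 : (1 : ℂ) - ((1 : ℂ) + (ρ : ℂ))⁻¹ * conj ξ * e 1 t =
      ((1 : ℂ) + (ρ : ℂ))⁻¹ * ((ρ : ℂ) + (1 - conj ξ * e 1 t)) := by
    field_simp
    ring
  rw [e1, mul_inv, inv_inv, div_eq_mul_inv, div_eq_mul_inv]
  field_simp

lemma b_lt (hξ : ‖ξ‖ = 1) {ρ : ℝ} (hρ : 0 < ρ) : ‖(((1 + ρ)⁻¹ : ℝ) : ℂ) * conj ξ‖ < 1 := by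
  rw [norm_mul, RCLike.norm_conj, hξ, mul_one, Complex.norm_real,
    Real.norm_of_nonneg (by positivity)]
  exact inv_lt_one_of_one_lt₀ (by linarith)

lemma pr_HInf (hξ : ‖ξ‖ = 1) {ρ : ℝ} (hρ : 0 < ρ) {f : T → ℂ} (hf : f ∈ HInf) :
    (fun t => f t * pr ξ ρ t) ∈ HInf := by
  have := smul_HInf (mul_qk_HInf hf (b_lt hξ hρ)) ((ρ / (1 + ρ) : ℝ) : ℂ)
  refine congr_HInf this (Eventually.of_forall fun t => ?_)
  simp only [pr_eq_qk hξ hρ]
  ring

lemma pr_le_one (hξ : ‖ξ‖ = 1) {ρ : ℝ} (hρ : 0 < ρ) (t : T) : ‖pr ξ ρ t‖ ≤ 1 := by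
  have h1 := den_ge_rho hξ (ρ := ρ) t
  rw [pr, norm_div, Complex.norm_real, Real.norm_of_nonneg hρ.le, div_le_one (by linarith)]
  exact h1

lemma pr_mul_y (hξ : ‖ξ‖ = 1) {ρ : ℝ} (hρ : 0 < ρ) (t : T) : ‖pr ξ ρ t‖ * yy ξ t ≤ ρ := by
  have h1 := den_ge_rho hξ (ρ := ρ) t
  have h2 := den_ge_y hξ hρ t
  have h3 : 0 < ‖(ρ : ℂ) + (1 - conj ξ * e 1 t)‖ := by linarith
  rw [pr, norm_div, Complex.norm_real, Real.norm_of_nonneg hρ.le, div_mul_eq_mul_div,
    div_le_iff₀ h3]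
  exact mul_le_mul_of_nonneg_left h2 hρ.le

lemma pr_int_sq (hξ : ‖ξ‖ = 1) {ρ : ℝ} (hρ : 0 < ρ) :
    ∫ t, ‖pr ξ ρ t‖ ^ 2 ∂mu ≤ ρ := by
  have hb : ‖(((1 + ρ)⁻¹ : ℝ) : ℂ) * conj ξ‖ = (1 + ρ)⁻¹ := by
    rw [norm_mul, RCLike.norm_conj, hξ, mul_one, Complex.norm_real,
      Real.norm_of_nonneg (by positivity)]
  have e1 : ∀ t, ‖pr ξ ρ t‖ ^ 2 = (ρ / (1 + ρ)) ^ 2 *
      ‖qk ((((1 + ρ)⁻¹ : ℝ) : ℂ) * conj ξ) t‖ ^ 2 := by
    intro t
    rw [pr_eq_qk hξ hρ, norm_mul, mul_pow, Complex.norm_real, Real.norm_of_nonneg (by positivity)]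
  have e2 : ∫ t, ‖pr ξ ρ t‖ ^ 2 ∂mu = (ρ / (1 + ρ)) ^ 2 * (1 - (1 + ρ)⁻¹ ^ 2)⁻¹ := by
    rw [integral_congr_ae (Eventually.of_forall e1), integral_const_mul,
      int_norm_qk_sq (b_lt hξ hρ), hb]
  have h5 : (1 - (1 + ρ)⁻¹ ^ 2) = ρ * (2 + ρ) / (1 + ρ) ^ 2 := by field_simp; ring
  have h6 : (ρ / (1 + ρ)) ^ 2 * (1 - (1 + ρ)⁻¹ ^ 2)⁻¹ = ρ / (2 + ρ) := by
    rw [h5]
    field_simp
  rw [e2, h6, div_le_iff₀ (by linarith)]
  nlinarith

lemma pr_int (hξ : ‖ξ‖ = 1) {δ ρ : ℝ} (hδ : 0 < δ) (hρ : 0 < ρ) (h : ρ ≤ δ ^ 2) :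
    ∫ t, ‖pr ξ ρ t‖ ∂mu ≤ δ := by
  have h1 := pr_int_sq hξ hρ
  have h2 : ∀ t, ‖pr ξ ρ t‖ ≤ δ / 2 + (2 * δ)⁻¹ * ‖pr ξ ρ t‖ ^ 2 := by
    intro t
    set x := ‖pr ξ ρ t‖ with hx
    have h7 : 0 ≤ (2 * δ)⁻¹ * (x - δ) ^ 2 := by positivity
    have e2 : (2 * δ)⁻¹ * (x - δ) ^ 2 = δ / 2 + (2 * δ)⁻¹ * x ^ 2 - x := by
      field_simp; ring
    linarith
  have c1 := (pr_cont hξ hρ)
  have i2 : Integrable (fun t => (2 * δ)⁻¹ * ‖pr ξ ρ t‖ ^ 2) mu :=
    cont_intR (continuous_const.mul (c1.norm.pow 2))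
  have i1 : Integrable (fun _ : T => δ / 2) mu := integrable_const _
  have i3 : Integrable (fun t => δ / 2 + (2 * δ)⁻¹ * ‖pr ξ ρ t‖ ^ 2) mu := i1.add i2
  have s1 : ∫ t, ‖pr ξ ρ t‖ ∂mu ≤ ∫ t, (δ / 2 + (2 * δ)⁻¹ * ‖pr ξ ρ t‖ ^ 2) ∂mu :=
    integral_mono (cont_intR c1.norm) i3 h2
  have s2 : ∫ t, (δ / 2 + (2 * δ)⁻¹ * ‖pr ξ ρ t‖ ^ 2) ∂mu =
      δ / 2 + (2 * δ)⁻¹ * ∫ t, ‖pr ξ ρ t‖ ^ 2 ∂mu := by
    rw [integral_add i1 i2, integral_const_mul, integral_const]
    simp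
  have s3 : (2 * δ)⁻¹ * ∫ t, ‖pr ξ ρ t‖ ^ 2 ∂mu ≤ (2 * δ)⁻¹ * δ ^ 2 :=
    mul_le_mul_of_nonneg_left (le_trans h1 h) (by positivity)
  have s4 : (2 * δ)⁻¹ * δ ^ 2 = δ / 2 := by field_simp
  linarith

lemma one_sub_pr (hξ : ‖ξ‖ = 1) {ρ : ℝ} (hρ : 0 < ρ) (t : T) :
    ‖1 - pr ξ ρ t‖ = yy ξ t / ‖(ρ : ℂ) + (1 - conj ξ * e 1 t)‖ := by
  have h1 := pr_den_ne hξ hρ t
  rw [yy, ← norm_div, pr]
  congr 1
  field_simp
  ring

lemma one_sub_pr_le (hξ : ‖ξ‖ = 1) {ρ : ℝ} (hρ : 0 < ρ) (t : T) :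
    ‖1 - pr ξ ρ t‖ ≤ yy ξ t / ρ := by
  rw [one_sub_pr hξ hρ]
  exact div_le_div_of_nonneg_left (yy_nonneg t) hρ (den_ge_rho hξ t)

lemma one_sub_pr_le_one (hξ : ‖ξ‖ = 1) {ρ : ℝ} (hρ : 0 < ρ) (t : T) :
    ‖1 - pr ξ ρ t‖ ≤ 1 := by
  rw [one_sub_pr hξ hρ, div_le_one]
  · exact den_ge_y hξ hρ t
  · linarith [den_ge_rho hξ (ρ := ρ) t]

lemma chi_eq (hξ : ‖ξ‖ = 1) {ρ τ : ℝ} (hρ : 0 < ρ) (hτ : 0 < τ) (t : T) :
    pr ξ ρ t - pr ξ τ t = (((1 - τ / ρ : ℝ)) : ℂ) * (pr ξ ρ t * (1 - pr ξ τ t)) := by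
  have h1 := pr_den_ne hξ hρ t
  have h2 := pr_den_ne hξ hτ t
  have h3 : (ρ : ℂ) ≠ 0 := by exact_mod_cast hρ.ne'
  simp only [pr]
  push_cast
  field_simp
  ring

lemma chi_le (hξ : ‖ξ‖ = 1) {ρ τ : ℝ} (hρ : 0 < ρ) (hτ : 0 < τ) (h : τ ≤ ρ) (t : T) :
    ‖pr ξ ρ t - pr ξ τ t‖ ≤ ‖pr ξ ρ t‖ * ‖1 - pr ξ τ t‖ := by
  rw [chi_eq hξ hρ hτ, norm_mul, norm_mul]
  have h1 : ‖((1 - τ / ρ : ℝ) : ℂ)‖ ≤ 1 := by
    rw [Complex.norm_real, Real.norm_of_nonneg]
    · have : 0 ≤ τ / ρ := by positivity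
      linarith
    · have : τ / ρ ≤ 1 := by rw [div_le_one hρ]; exact h
      linarith
  calc ‖((1 - τ / ρ : ℝ) : ℂ)‖ * (‖pr ξ ρ t‖ * ‖1 - pr ξ τ t‖)
      ≤ 1 * (‖pr ξ ρ t‖ * ‖1 - pr ξ τ t‖) := mul_le_mul_of_nonneg_right h1 (by positivity)
    _ = _ := one_mul _

/-- `y` vanishes only on a null set -/
lemma yy_pos_ae (hξ : ‖ξ‖ = 1) : ∀ᵐ t ∂mu, 0 < yy ξ t := by
  -- the integral of `‖pr ρ‖` tends to zero while `pr = 1` where `y = 0`
  rw [ae_iff]
  have hm : MeasurableSet {t : T | ¬ 0 < yy ξ t} :=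
    (measurableSet_lt measurable_const yy_cont.measurable).compl
  set s := {t : T | ¬ 0 < yy ξ t} with hs
  have key : ∀ δ : ℝ, 0 < δ → (mu s).toReal ≤ δ := by
    intro δ hδ
    have hρ : 0 < min (δ ^ 2) 1 := by positivity
    refine le_trans ?_ (pr_int hξ hδ hρ (min_le_left _ _))
    have h1 : (mu s).toReal = ∫ t, s.indicator (fun _ => (1 : ℝ)) t ∂mu := by
      rw [integral_indicator hm]; simp [Measure.real]
    rw [h1]
    apply integral_mono
    · exact (integrable_const (1 : ℝ)).indicator hm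
    · exact cont_intR (pr_cont hξ hρ).norm
    · intro t
      by_cases ht : t ∈ s
      · rw [Set.indicator_of_mem ht]
        have h0 : yy ξ t = 0 := le_antisymm (not_lt.1 ht) (yy_nonneg t)
        have h2 := one_sub_pr_le hξ hρ t
        rw [h0, zero_div] at h2
        have h3 : 1 - pr ξ (min (δ ^ 2) 1) t = 0 := norm_le_zero_iff.1 h2
        have h4 : pr ξ (min (δ ^ 2) 1) t = 1 := by linear_combination -h3
        simp only [h4, norm_one, le_refl]
      · rw [Set.indicator_of_notMem ht]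
        exact norm_nonneg _
  have h0 : (mu s).toReal = 0 := by
    apply le_antisymm _ ENNReal.toReal_nonneg
    exact le_of_forall_pos_le_add fun ε hε => by simpa using key ε hε
  rcases (ENNReal.toReal_eq_zero_iff _).1 h0 with h | h
  · exact h
  · exact absurd h (measure_ne_top _ _)

/-- abstract recursion principle -/
lemma exists_seq_rec {α : Type*} (P : ℕ → α → Prop) (R : ℕ → α → α → Prop) (h0 : ∃ a, P 0 a)
    (hs : ∀ n a, P n a → ∃ b, P (n + 1) b ∧ R n a b) :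
    ∃ f : ℕ → α, (∀ n, P n (f n)) ∧ ∀ n, R n (f n) (f (n + 1)) := by
  obtain ⟨a0, ha0⟩ := h0
  choose g hg using hs
  let F : (n : ℕ) → {a // P n a} := fun n => Nat.rec ⟨a0, ha0⟩
    (fun n x => ⟨g n x.1 x.2, (hg n x.1 x.2).1⟩) n
  exact ⟨fun n => (F n).1, fun n => (F n).2, fun n => (hg n (F n).1 (F n).2).2⟩

/-- the induction step of the gliding hump argument -/
lemma hump_step {I : T → ℂ} (hI : ∀ᵐ t ∂mu, ‖I t‖ = 1) (hIm : MemLp I ∞ mu) (hξ : ‖ξ‖ = 1)
    {W F : ℕ → T → ℂ} (hW : ∀ k, Continuous (W k)) (hFm : ∀ k, F k ∈ HInf)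
    (hFb : ∀ k, ∀ᵐ t ∂mu, ‖F k t‖ ≤ 31)
    (h1 : ∀ G ∈ HInf, ∀ ε : ℝ, 0 < ε → ∃ N, ∀ k ≥ N,
      ‖∫ t, (conj (I t) * G t) * W k t ∂mu‖ ≤ ε)
    (h2 : ∀ ρ : ℝ, 0 < ρ → ∀ ε : ℝ, 0 < ε → ∃ N, ∀ k ≥ N,
      ∫ t, ‖W k t‖ * ‖1 - pr ξ ρ t‖ ∂mu ≤ ε)
    (h3 : ∀ k, 1 / 4 ≤ ‖∫ t, (conj (I t) * F k t) * W k t ∂mu‖)
    {G : T → ℂ} (hG : G ∈ HInf) {A B Cw δ : ℝ} (hA : 0 ≤ A) (hB : 31 ≤ B)
    (hGB : ∀ᵐ t ∂mu, ‖G t‖ ≤ B) (hGA : ∀ᵐ t ∂mu, ‖G t‖ ≤ A * yy ξ t) (hCw : 0 ≤ Cw)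
    (hδ : 0 < δ) (N : ℕ) :
    ∃ k ≥ N, ∃ H ∈ HInf, ∃ A' ≥ 0, (∀ᵐ t ∂mu, ‖G t + H t‖ ≤ B + δ) ∧
      (∀ᵐ t ∂mu, ‖G t + H t‖ ≤ A' * yy ξ t) ∧ (Cw * ∫ t, ‖H t‖ ∂mu ≤ δ) ∧
      (∀ᵐ t ∂mu, ‖H t‖ * yy ξ t ≤ δ) ∧
      1 / 5 ≤ ‖∫ t, (conj (I t) * (G t + H t)) * W k t ∂mu‖ := by
  -- choose ρ
  set η := δ / (A + 1) with hη
  have hη0 : 0 < η := by positivity
  have hAη : A * η ≤ δ := by
    rw [hη, mul_div_assoc', div_le_iff₀ (by linarith)]
    nlinarith
  set δ1 := δ / (31 * (Cw + 1)) with hδ1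
  have hδ10 : 0 < δ1 := by positivity
  set ρ := min (min (δ * η / 31) (δ / 31)) (δ1 ^ 2) with hρdef
  have hρ : 0 < ρ := by
    apply lt_min (lt_min (by positivity) (by positivity)) (by positivity)
  have hρ1 : 31 * ρ ≤ δ * η := by
    have : ρ ≤ δ * η / 31 := le_trans (min_le_left _ _) (min_le_left _ _)
    linarith
  have hρ2 : 31 * ρ ≤ δ := by
    have : ρ ≤ δ / 31 := le_trans (min_le_left _ _) (min_le_right _ _)
    linarith
  have hρ3 : ∫ t, ‖pr ξ ρ t‖ ∂mu ≤ δ1 := pr_int hξ hδ10 hρ (min_le_right _ _)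
  -- choose k
  obtain ⟨N1, hN1⟩ := h1 G hG (1 / 100) (by norm_num)
  obtain ⟨N2, hN2⟩ := h2 ρ hρ (1 / 3100) (by norm_num)
  set k := max N (max N1 N2) with hk
  have hkN : N ≤ k := le_max_left _ _
  have hk1 := hN1 k (le_trans (le_max_left _ _) (le_max_right _ _))
  have hk2 := hN2 k (le_trans (le_max_right _ _) (le_max_right _ _))
  have hk3 := h3 k
  obtain ⟨b, hb⟩ := isCompact_univ.exists_bound_of_continuousOn (hW k).continuousOn
  have hb0 : 0 ≤ b := le_trans (norm_nonneg _) (hb 0 trivial)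
  -- choose τ
  set δ2 := 1 / (3100 * (b + 1)) with hδ2
  have hδ20 : 0 < δ2 := by positivity
  set τ := min ρ (δ2 ^ 2) with hτdef
  have hτ : 0 < τ := lt_min hρ (by positivity)
  have hτρ : τ ≤ ρ := min_le_left _ _
  have hτ2 : ∫ t, ‖pr ξ τ t‖ ∂mu ≤ δ2 := pr_int hξ hδ20 hτ (min_le_right _ _)
  -- the new function
  set H : T → ℂ := fun t => F k t * pr ξ ρ t - F k t * pr ξ τ t with hH
  have hHm : H ∈ HInf := sub_HInf (pr_HInf hξ hρ (hFm k)) (pr_HInf hξ hτ (hFm k))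
  have hHle : ∀ᵐ t ∂mu, ‖H t‖ ≤ 31 * (‖pr ξ ρ t‖ * ‖1 - pr ξ τ t‖) := by
    filter_upwards [hFb k] with t ht
    have : H t = F k t * (pr ξ ρ t - pr ξ τ t) := by rw [hH]; ring
    rw [this, norm_mul]
    exact mul_le_mul ht (chi_le hξ hρ hτ hτρ t) (norm_nonneg _) (by norm_num)
  have hH31 : ∀ᵐ t ∂mu, ‖H t‖ ≤ 31 := by
    filter_upwards [hHle] with t ht
    have a1 := pr_le_one hξ hρ t
    have a2 := one_sub_pr_le_one hξ hτ t
    have a3 := norm_nonneg (pr ξ ρ t)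
    have a4 := norm_nonneg (1 - pr ξ τ t)
    nlinarith
  have hHρ : ∀ᵐ t ∂mu, ‖H t‖ ≤ 31 * ‖pr ξ ρ t‖ := by
    filter_upwards [hHle] with t ht
    have a2 := one_sub_pr_le_one hξ hτ t
    have a3 := norm_nonneg (pr ξ ρ t)
    nlinarith
  have hHy : ∀ᵐ t ∂mu, ‖H t‖ * yy ξ t ≤ 31 * ρ := by
    filter_upwards [hHρ] with t ht
    have a1 := pr_mul_y hξ hρ t
    have a2 := yy_nonneg (ξ := ξ) t
    nlinarith
  have hHτ : ∀ᵐ t ∂mu, ‖H t‖ ≤ 31 / τ * yy ξ t := by
    filter_upwards [hHle] with t ht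
    have a1 := pr_le_one hξ hρ t
    have a2 := one_sub_pr_le hξ hτ t
    have a4 := norm_nonneg (1 - pr ξ τ t)
    calc ‖H t‖ ≤ 31 * (‖pr ξ ρ t‖ * ‖1 - pr ξ τ t‖) := ht
      _ ≤ 31 * (1 * ‖1 - pr ξ τ t‖) := by gcongr
      _ ≤ 31 * (1 * (yy ξ t / τ)) := by gcongr
      _ = 31 / τ * yy ξ t := by ring
  have hHint : Integrable H mu := memLp_integrable hHm.1
  refine ⟨k, hkN, H, hHm, A + 31 / τ, by positivity, ?_, ?_, ?_, ?_, ?_⟩
  · filter_upwards [hGB, hGA, hH31, hHy] with t g1 g2 g3 g4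
    refine le_trans (norm_add_le _ _) ?_
    by_cases hy : yy ξ t ≤ η
    · have : ‖G t‖ ≤ δ := le_trans g2 (le_trans (mul_le_mul_of_nonneg_left hy hA) hAη)
      linarith
    · push Not at hy
      have : ‖H t‖ ≤ δ := by
        have h5 : ‖H t‖ * η ≤ δ * η :=
          le_trans (mul_le_mul_of_nonneg_left hy.le (norm_nonneg _)) (le_trans g4 hρ1)
        exact le_of_mul_le_mul_right h5 hη0
      linarith
  · filter_upwards [hGA, hHτ] with t g1 g2
    refine le_trans (norm_add_le _ _) ?_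
    rw [add_mul]; linarith
  · have h5 : ∫ t, ‖H t‖ ∂mu ≤ 31 * δ1 := by
      calc ∫ t, ‖H t‖ ∂mu ≤ ∫ t, 31 * ‖pr ξ ρ t‖ ∂mu :=
            integral_mono_ae hHint.norm ((cont_intR (pr_cont hξ hρ).norm).const_mul _) hHρ
        _ = 31 * ∫ t, ‖pr ξ ρ t‖ ∂mu := integral_const_mul _ _
        _ ≤ 31 * δ1 := by linarith
    calc Cw * ∫ t, ‖H t‖ ∂mu ≤ Cw * (31 * δ1) := mul_le_mul_of_nonneg_left h5 hCw
      _ = Cw * δ / (Cw + 1) := by rw [hδ1]; field_simp
      _ ≤ δ := by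
        rw [div_le_iff₀ (by linarith)]
        nlinarith
  · filter_upwards [hHy] with t ht
    linarith
  · -- lower bound
    have cW := bdd_cont (hW k)
    have i1 : Integrable (fun t => (conj (I t) * G t) * W k t) mu :=
      memLp_integrable (bdd_mul (bdd_mul (bdd_conj hIm) hG.1) cW)
    have i2 : Integrable (fun t => (conj (I t) * F k t) * W k t) mu :=
      memLp_integrable (bdd_mul (bdd_mul (bdd_conj hIm) (hFm k).1) cW)
    have cE : Continuous fun t => (1 - pr ξ ρ t) + pr ξ τ t :=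
      (continuous_const.sub (pr_cont hξ hρ)).add (pr_cont hξ hτ)
    have i3 : Integrable (fun t => ((conj (I t) * F k t) * W k t) *
        ((1 - pr ξ ρ t) + pr ξ τ t)) mu :=
      memLp_integrable (bdd_mul (bdd_mul (bdd_mul (bdd_conj hIm) (hFm k).1) cW) (bdd_cont cE))
    have e1 : ∀ t, (conj (I t) * (G t + H t)) * W k t =
        (conj (I t) * G t) * W k t + ((conj (I t) * F k t) * W k t -
          ((conj (I t) * F k t) * W k t) * ((1 - pr ξ ρ t) + pr ξ τ t)) := by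
      intro t; rw [hH]; ring
    simp_rw [e1]
    have i23 : Integrable (fun t => (conj (I t) * F k t) * W k t -
          ((conj (I t) * F k t) * W k t) * ((1 - pr ξ ρ t) + pr ξ τ t)) mu := i2.sub i3
    rw [integral_add i1 i23, integral_sub i2 i3]
    have b3 : ‖∫ t, ((conj (I t) * F k t) * W k t) * ((1 - pr ξ ρ t) + pr ξ τ t) ∂mu‖ ≤
        1 / 50 := by
      have j1 : Integrable (fun t => ‖W k t‖ * ‖1 - pr ξ ρ t‖) mu :=
        cont_intR ((hW k).norm.mul (continuous_const.sub (pr_cont hξ hρ)).norm)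
      have j2 : Integrable (fun t => ‖pr ξ τ t‖) mu := cont_intR (pr_cont hξ hτ).norm
      have j12 : Integrable (fun t => 31 * (‖W k t‖ * ‖1 - pr ξ ρ t‖) +
          31 * b * ‖pr ξ τ t‖) mu := (j1.const_mul _).add (j2.const_mul _)
      calc ‖∫ t, ((conj (I t) * F k t) * W k t) * ((1 - pr ξ ρ t) + pr ξ τ t) ∂mu‖
          ≤ ∫ t, (31 * (‖W k t‖ * ‖1 - pr ξ ρ t‖) + 31 * b * ‖pr ξ τ t‖) ∂mu := by
            apply norm_integral_le_of_norm_le j12
            filter_upwards [hI, hFb k] with t g1 g2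
            rw [norm_mul, norm_mul, norm_mul, RCLike.norm_conj, g1, one_mul]
            have g3 := hb t trivial
            have g4 := norm_add_le (1 - pr ξ ρ t) (pr ξ τ t)
            have g5 := norm_nonneg (W k t)
            have g6 := norm_nonneg (pr ξ τ t)
            have g7 := norm_nonneg (1 - pr ξ ρ t)
            calc ‖F k t‖ * ‖W k t‖ * ‖1 - pr ξ ρ t + pr ξ τ t‖
                ≤ 31 * ‖W k t‖ * (‖1 - pr ξ ρ t‖ + ‖pr ξ τ t‖) := by gcongr
              _ = 31 * (‖W k t‖ * ‖1 - pr ξ ρ t‖) + 31 * ‖W k t‖ * ‖pr ξ τ t‖ := by ring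
              _ ≤ 31 * (‖W k t‖ * ‖1 - pr ξ ρ t‖) + 31 * b * ‖pr ξ τ t‖ := by gcongr
        _ = 31 * ∫ t, ‖W k t‖ * ‖1 - pr ξ ρ t‖ ∂mu + 31 * b * ∫ t, ‖pr ξ τ t‖ ∂mu := by
            rw [integral_add (j1.const_mul _) (j2.const_mul _), integral_const_mul,
              integral_const_mul]
        _ ≤ 31 * (1 / 3100) + 31 * b * δ2 := by gcongr
        _ ≤ 1 / 50 := by
            have : 31 * b * δ2 ≤ 1 / 100 := by
              rw [hδ2, mul_one_div, div_le_iff₀ (by positivity)]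
              nlinarith
            linarith
    set X := ∫ t, (conj (I t) * G t) * W k t ∂mu
    set Y := ∫ t, (conj (I t) * F k t) * W k t ∂mu
    set Z := ∫ t, ((conj (I t) * F k t) * W k t) * ((1 - pr ξ ρ t) + pr ξ τ t) ∂mu
    have t1 : ‖Y‖ ≤ ‖X + (Y - Z)‖ + (‖X‖ + ‖Z‖) := by
      calc ‖Y‖ = ‖(X + (Y - Z)) + (Z - X)‖ := by congr 1; ring
        _ ≤ ‖X + (Y - Z)‖ + ‖Z - X‖ := norm_add_le _ _
        _ ≤ ‖X + (Y - Z)‖ + (‖X‖ + ‖Z‖) := by
          gcongr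
          rw [add_comm]; exact norm_sub_le _ _
    linarith

end

section

open MeasureTheory AddCircle Complex Filter Topology
open scoped ENNReal ComplexConjugate

variable {ξ : ℂ}

/-- The gliding hump theorem. -/
theorem gliding {I : T → ℂ} (hI : ∀ᵐ t ∂mu, ‖I t‖ = 1) (hIm : MemLp I ∞ mu) (hξ : ‖ξ‖ = 1)
    {W F : ℕ → T → ℂ} (hW : ∀ k, Continuous (W k)) (hFm : ∀ k, F k ∈ HInf)
    (hFb : ∀ k, ∀ᵐ t ∂mu, ‖F k t‖ ≤ 31)
    (h1 : ∀ G ∈ HInf, ∀ ε : ℝ, 0 < ε → ∃ N, ∀ k ≥ N,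
      ‖∫ t, (conj (I t) * G t) * W k t ∂mu‖ ≤ ε)
    (h2 : ∀ ρ : ℝ, 0 < ρ → ∀ ε : ℝ, 0 < ε → ∃ N, ∀ k ≥ N,
      ∫ t, ‖W k t‖ * ‖1 - pr ξ ρ t‖ ∂mu ≤ ε)
    (h3 : ∀ k, 1 / 4 ≤ ‖∫ t, (conj (I t) * F k t) * W k t ∂mu‖) : False := by
  -- states: (k, G, A, Cw)
  let P : ℕ → ℕ × (T → ℂ) × ℝ × ℝ → Prop := fun j s => s.2.1 ∈ HInf ∧ 0 ≤ s.2.2.1 ∧
    0 ≤ s.2.2.2 ∧ (∀ᵐ t ∂mu, ‖s.2.1 t‖ ≤ 32 - (1 / 2) ^ j) ∧
      (∀ᵐ t ∂mu, ‖s.2.1 t‖ ≤ s.2.2.1 * yy ξ t)
  let R : ℕ → ℕ × (T → ℂ) × ℝ × ℝ → ℕ × (T → ℂ) × ℝ × ℝ → Prop := fun j s s' =>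
    j + 1 ≤ s'.1 ∧ (∀ t, ‖W s'.1 t‖ ≤ s'.2.2.2) ∧ s.2.2.2 ≤ s'.2.2.2 ∧
      (s.2.2.2 * ∫ t, ‖s'.2.1 t - s.2.1 t‖ ∂mu ≤ (1 / 2) ^ j / 80) ∧
      (∀ᵐ t ∂mu, ‖s'.2.1 t - s.2.1 t‖ * yy ξ t ≤ (1 / 2) ^ j / 80) ∧
      1 / 5 ≤ ‖∫ t, (conj (I t) * s'.2.1 t) * W s'.1 t ∂mu‖
  have hstart : ∃ a, P 0 a := ⟨(0, fun _ => 0, 0, 0), const_HInf 0, le_rfl, le_rfl,
    Eventually.of_forall fun t => by norm_num, Eventually.of_forall fun t => by simp⟩
  have hnext : ∀ n a, P n a → ∃ b, P (n + 1) b ∧ R n a b := by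
    rintro j ⟨k, G, A, Cw⟩ ⟨p1, p2, p3, p4, p5⟩
    simp only at p1 p2 p3 p4 p5
    have hj1 : ((1 : ℝ) / 2) ^ j ≤ 1 := pow_le_one₀ (by norm_num) (by norm_num)
    have hjp : (0 : ℝ) < (1 / 2) ^ j := by positivity
    obtain ⟨k', hk', H, hH, A', hA', q1, q2, q3, q4, q5⟩ :=
      hump_step hI hIm hξ hW hFm hFb h1 h2 h3 p1 (A := A) (B := 32 - (1 / 2) ^ j) (Cw := Cw)
        (δ := (1 / 2) ^ j / 80) p2 (by linarith) p4 p5 p3 (by positivity) (j + 1)
    obtain ⟨b, hb⟩ := isCompact_univ.exists_bound_of_continuousOn (hW k').continuousOn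
    refine ⟨(k', fun t => G t + H t, A', max Cw b), ⟨add_HInf p1 hH, hA',
      le_trans p3 (le_max_left _ _), ?_, q2⟩, hk',
      fun t => le_trans (hb t trivial) (le_max_right _ _), le_max_left _ _, ?_, ?_, q5⟩
    · filter_upwards [q1] with t ht
      rw [pow_succ]
      linarith
    · simp only [add_sub_cancel_left]
      exact q3
    · simp only [add_sub_cancel_left]
      exact q4
  obtain ⟨f, hP, hR⟩ := exists_seq_rec P R hstart hnext
  set G : ℕ → T → ℂ := fun j => (f j).2.1 with hG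
  set C : ℕ → ℝ := fun j => (f j).2.2.2 with hC
  set κ : ℕ → ℕ := fun j => (f j).1 with hκ
  have hGm : ∀ j, G j ∈ HInf := fun j => (hP j).1
  have hCn : ∀ j, 0 ≤ C j := fun j => (hP j).2.2.1
  have hCmono : Monotone C := monotone_nat_of_le_succ fun j => (hR j).2.2.1
  have hGb : ∀ j, ∀ᵐ t ∂mu, ‖G j t‖ ≤ 32 := fun j => by
    filter_upwards [(hP j).2.2.2.1] with t ht
    have : (0 : ℝ) < (1 / 2) ^ j := by positivity
    linarith
  -- pointwise convergence
  have hconv : ∀ᵐ t ∂mu, ∃ l, Tendsto (fun j => G j t) atTop (𝓝 l) := by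
    have ha : ∀ᵐ t ∂mu, ∀ j, ‖G (j + 1) t - G j t‖ * yy ξ t ≤ (1 / 2) ^ j / 80 :=
      ae_all_iff.2 fun j => (hR j).2.2.2.2.1
    filter_upwards [ha, yy_pos_ae hξ] with t ht hy
    apply cauchySeq_tendsto_of_complete
    refine cauchySeq_of_le_geometric (1 / 2) (1 / (80 * yy ξ t)) (by norm_num) fun j => ?_
    rw [dist_eq_norm, norm_sub_rev]
    have := ht j
    rw [← le_div_iff₀ hy] at this
    refine le_trans this (le_of_eq ?_)
    field_simp
  classical
  set L : T → ℂ := fun t => if h : ∃ l, Tendsto (fun j => G j t) atTop (𝓝 l) then h.choose else 0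
    with hL
  have hLlim : ∀ᵐ t ∂mu, Tendsto (fun j => G j t) atTop (𝓝 (L t)) := by
    filter_upwards [hconv] with t ht
    simp only [hL, dif_pos ht]
    exact ht.choose_spec
  have hLmeas : AEStronglyMeasurable L mu :=
    aestronglyMeasurable_of_tendsto_ae atTop (fun j => (hGm j).1.1) hLlim
  have hLb : ∀ᵐ t ∂mu, ‖L t‖ ≤ 32 := by
    filter_upwards [hLlim, ae_all_iff.2 hGb] with t h5 h6
    exact le_of_tendsto h5.norm (Eventually.of_forall h6)
  have hLm : MemLp L ∞ mu := memLp_top_of_bound hLmeas 32 hLb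
  -- integrals converge
  have hint : ∀ g : T → ℂ, MemLp g ∞ mu →
      Tendsto (fun j => ∫ t, G j t * g t ∂mu) atTop (𝓝 (∫ t, L t * g t ∂mu)) := by
    intro g hg
    obtain ⟨D, hD0, hD⟩ := exists_bound hg
    apply tendsto_integral_of_dominated_convergence (fun _ => 32 * D)
    · exact fun j => (hGm j).1.1.mul hg.1
    · exact integrable_const _
    · intro j
      filter_upwards [hGb j, hD] with t h5 h6
      rw [norm_mul]
      exact mul_le_mul h5 h6 (norm_nonneg _) (by norm_num)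
    · filter_upwards [hLlim] with t ht
      exact ht.mul_const _
  have hLH : L ∈ HInf := by
    refine (mem_HInf_iff hLm).2 fun n hn => ?_
    have h5 := hint (e n) (bdd_e n)
    have h6 : ∀ j, ∫ t, G j t * e n t ∂mu = 0 := fun j => (mem_HInf_iff (hGm j).1).1 (hGm j) n hn
    simp_rw [h6] at h5
    exact tendsto_nhds_unique h5 tendsto_const_nhds |>.symm ▸ rfl
  obtain ⟨N, hN⟩ := h1 L hLH (1 / 20) (by norm_num)
  -- use index N + 1
  set i := N with hi
  have hk : N ≤ κ (i + 1) := by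
    have := (hR i).1
    have h7 : i + 1 ≤ κ (i + 1) := this
    omega
  have hup := hN (κ (i + 1)) hk
  have hlow : 1 / 5 ≤ ‖∫ t, (conj (I t) * G (i + 1) t) * W (κ (i + 1)) t ∂mu‖ :=
    (hR i).2.2.2.2.2
  have hWb : ∀ t, ‖W (κ (i + 1)) t‖ ≤ C (i + 1) := (hR i).2.1
  set w := W (κ (i + 1)) with hw
  have hwm := bdd_cont (hW (κ (i + 1)))
  have hg : MemLp (fun t => conj (I t) * w t) ∞ mu := bdd_mul (bdd_conj hIm) hwm
  have hstep : ∀ j, i + 1 ≤ j → ‖∫ t, G (j + 1) t * (conj (I t) * w t) ∂mu -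
      ∫ t, G j t * (conj (I t) * w t) ∂mu‖ ≤ (1 / 2) ^ j / 80 := by
    intro j hj
    have k1 := memLp_integrable (bdd_mul (hGm (j + 1)).1 hg)
    have k2 := memLp_integrable (bdd_mul (hGm j).1 hg)
    have kd : Integrable (fun t => G (j + 1) t - G j t) mu :=
      (memLp_integrable (hGm (j + 1)).1).sub (memLp_integrable (hGm j).1)
    rw [← integral_sub k1 k2]
    calc ‖∫ t, (G (j + 1) t * (conj (I t) * w t) - G j t * (conj (I t) * w t)) ∂mu‖
        ≤ ∫ t, C j * ‖G (j + 1) t - G j t‖ ∂mu := by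
          apply norm_integral_le_of_norm_le (kd.norm.const_mul _)
          filter_upwards [hI] with t ht
          rw [← sub_mul, norm_mul, norm_mul, RCLike.norm_conj, ht, one_mul, mul_comm]
          exact mul_le_mul_of_nonneg_right (le_trans (hWb t) (hCmono hj)) (norm_nonneg _)
      _ = C j * ∫ t, ‖G (j + 1) t - G j t‖ ∂mu := integral_const_mul _ _
      _ ≤ (1 / 2) ^ j / 80 := (hR j).2.2.2.1
  have hsum : ∀ m, ‖∫ t, G (i + 1 + m) t * (conj (I t) * w t) ∂mu -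
      ∫ t, G (i + 1) t * (conj (I t) * w t) ∂mu‖ ≤ (1 / 20) * (1 - (1 / 2) ^ m) := by
    intro m
    induction m with
    | zero => simp
    | succ m ih =>
      have h8 := hstep (i + 1 + m) (by omega)
      have h9 : ((1 : ℝ) / 2) ^ (i + 1 + m) ≤ (1 / 2) ^ m := by
        apply pow_le_pow_of_le_one (by norm_num) (by norm_num) (by omega)
      rw [show i + 1 + (m + 1) = i + 1 + m + 1 by ring]
      set a1 := ∫ t, G (i + 1 + m + 1) t * (conj (I t) * w t) ∂mu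
      set a2 := ∫ t, G (i + 1 + m) t * (conj (I t) * w t) ∂mu
      set a3 := ∫ t, G (i + 1) t * (conj (I t) * w t) ∂mu
      have h10 : ‖a1 - a3‖ ≤ ‖a1 - a2‖ + ‖a2 - a3‖ := norm_sub_le_norm_sub_add_norm_sub _ _ _
      have h12 : (0 : ℝ) < (1 / 2) ^ m := by positivity
      rw [pow_succ]
      linarith
  have hlim := hint _ hg
  have hlim2 : Tendsto (fun m => ‖∫ t, G (i + 1 + m) t * (conj (I t) * w t) ∂mu -
      ∫ t, G (i + 1) t * (conj (I t) * w t) ∂mu‖) atTop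
      (𝓝 ‖∫ t, L t * (conj (I t) * w t) ∂mu -
        ∫ t, G (i + 1) t * (conj (I t) * w t) ∂mu‖) := by
    apply Tendsto.norm
    apply Tendsto.sub_const
    exact hlim.comp (tendsto_atTop_mono (fun m => by simp only [id]; omega) tendsto_id)
  have hfin : ‖∫ t, L t * (conj (I t) * w t) ∂mu -
        ∫ t, G (i + 1) t * (conj (I t) * w t) ∂mu‖ ≤ 1 / 20 := by
    refine le_of_tendsto hlim2 (Eventually.of_forall fun m => le_trans (hsum m) ?_)
    have : (0 : ℝ) < (1 / 2) ^ m := by positivity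
    linarith
  have e1 : ∀ g : T → ℂ, ∫ t, (conj (I t) * g t) * w t ∂mu =
      ∫ t, g t * (conj (I t) * w t) ∂mu := fun g => by
    congr 1; funext t; ring
  rw [e1] at hup hlow
  set a1 := ∫ t, L t * (conj (I t) * w t) ∂mu
  set a2 := ∫ t, G (i + 1) t * (conj (I t) * w t) ∂mu
  have h11 : ‖a2‖ ≤ ‖a1‖ + ‖a1 - a2‖ := by
    calc ‖a2‖ = ‖a1 - (a1 - a2)‖ := by congr 1; ring
      _ ≤ ‖a1‖ + ‖a1 - a2‖ := norm_sub_le _ _
  linarith

end

section

open MeasureTheory AddCircle Complex Filter Topology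
open scoped ENNReal ComplexConjugate

lemma memLp2 {f : T → ℂ} (hf : MemLp f ∞ mu) : MemLp f 2 mu := hf.mono_exponent le_top

/-- Parseval for inner products. -/
lemma parseval2 {f g : T → ℂ} (hf : MemLp f 2 mu) (hg : MemLp g 2 mu) :
    HasSum (fun i : ℤ => conj (fourierCoeff f i) * fourierCoeff g i)
      (∫ t, conj (f t) * g t ∂mu) := by
  set x : Lp ℂ 2 mu := hf.toLp f
  set y : Lp ℂ 2 mu := hg.toLp g
  have h := (fourierBasis (T := (1 : ℝ))).hasSum_inner_mul_inner x y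
  have hx : ∀ i, fourierCoeff x i = fourierCoeff f i := fun i => by
    rw [fourierCoeff_congr_ae (MemLp.coeFn_toLp hf)]
  have hy : ∀ i, fourierCoeff y i = fourierCoeff g i := fun i => by
    rw [fourierCoeff_congr_ae (MemLp.coeFn_toLp hg)]
  have e1 : ∀ i : ℤ, inner ℂ x (fourierBasis (T := (1 : ℝ)) i) *
      inner ℂ (fourierBasis (T := (1 : ℝ)) i) y =
      conj (fourierCoeff f i) * fourierCoeff g i := by
    intro i
    rw [← inner_conj_symm, ← HilbertBasis.repr_apply_apply, ← HilbertBasis.repr_apply_apply,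
      fourierBasis_repr, fourierBasis_repr, hx, hy]
  simp_rw [e1] at h
  have e2 : inner ℂ x y = ∫ t, conj (f t) * g t ∂mu := by
    rw [L2.inner_def]
    apply integral_congr_ae
    filter_upwards [MemLp.coeFn_toLp hf, MemLp.coeFn_toLp hg] with t h1 h2
    rw [RCLike.inner_apply, h1, h2]
    ring
  rw [e2] at h
  exact h

lemma fc_conj (f : T → ℂ) (n : ℤ) : fourierCoeff (fun t => conj (f t)) n =
    conj (fourierCoeff f (-n)) := by
  rw [fc_def, fc_def, ← integral_conj, neg_neg]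
  congr 1; funext t
  rw [map_mul, ← e_neg]

lemma fc_mul_e (f : T → ℂ) (m n : ℤ) : fourierCoeff (fun t => f t * e m t) n =
    fourierCoeff f (n - m) := by
  rw [fc_def, fc_def]
  congr 1; funext t
  rw [show -(n - m) = -n + m by ring, e_add]
  ring

/-- `H^∞` is an algebra. -/
lemma mul_HInf {f g : T → ℂ} (hf : f ∈ HInf) (hg : g ∈ HInf) : (fun t => f t * g t) ∈ HInf := by
  refine (mem_HInf_iff (bdd_mul hf.1 hg.1)).2 fun n hn => ?_
  have h := parseval2 (memLp2 (bdd_conj hf.1)) (memLp2 (bdd_mul hg.1 (bdd_e n)))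
  simp only [fc_conj, fc_mul_e, Complex.conj_conj] at h
  have e1 : ∀ t, f t * g t * e n t = f t * (g t * e n t) := fun t => by ring
  simp_rw [e1]
  refine h.unique ?_
  convert hasSum_zero with i
  rcases lt_or_ge (-i) 0 with h1 | h1
  · rw [hf.2 _ h1, zero_mul]
  · rw [hg.2 _ (by omega), mul_zero]

/-- Parseval -/
lemma parseval {f : T → ℂ} (hf : MemLp f 2 mu) :
    HasSum (fun i : ℤ => ‖fourierCoeff f i‖ ^ 2) (∫ t, ‖f t‖ ^ 2 ∂mu) := by
  have h := parseval2 hf hf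
  have e1 : ∀ z : ℂ, conj z * z = ((‖z‖ ^ 2 : ℝ) : ℂ) := fun z => by
    rw [mul_comm, Complex.mul_conj, Complex.normSq_eq_norm_sq]
  simp_rw [e1] at h
  have e2 : (∫ t, ((‖f t‖ ^ 2 : ℝ) : ℂ) ∂mu) = ((∫ t, ‖f t‖ ^ 2 ∂mu : ℝ) : ℂ) := integral_ofReal
  rw [e2] at h
  exact_mod_cast h

/-- functions with vanishing Fourier coefficients vanish -/
lemma ae_zero_of_fc {f : T → ℂ} (hf : MemLp f 2 mu) (h : ∀ n, fourierCoeff f n = 0) :
    ∀ᵐ t ∂mu, f t = 0 := by
  have h1 := parseval hf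
  simp_rw [h, norm_zero] at h1
  have h2 : ∫ t, ‖f t‖ ^ 2 ∂mu = 0 := by
    refine h1.unique ?_
    convert hasSum_zero using 2
    norm_num
  have h3 : Integrable (fun t => ‖f t‖ ^ 2) mu := hf.integrable_norm_pow (by norm_num)
  rw [integral_eq_zero_iff_of_nonneg (fun t => by positivity) h3] at h2
  filter_upwards [h2] with t ht
  simpa using ht

/-- L² Cauchy–Schwarz style bound of L¹ by L² via AM-GM: `∫ ‖f‖ ≤ δ` if `∫ ‖f‖² ≤ δ²`. -/
lemma L1_le_of_L2 {f : T → ℂ} (hf : MemLp f 2 mu) {δ : ℝ} (hδ : 0 < δ)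
    (h : ∫ t, ‖f t‖ ^ 2 ∂mu ≤ δ ^ 2) : ∫ t, ‖f t‖ ∂mu ≤ δ := by
  have hp : ∀ t, ‖f t‖ ≤ δ / 2 + (2 * δ)⁻¹ * ‖f t‖ ^ 2 := by
    intro t
    set x := ‖f t‖ with hx
    have h7 : 0 ≤ (2 * δ)⁻¹ * (x - δ) ^ 2 := by positivity
    have e2 : (2 * δ)⁻¹ * (x - δ) ^ 2 = δ / 2 + (2 * δ)⁻¹ * x ^ 2 - x := by
      field_simp; ring
    linarith
  have h3 : Integrable (fun t => ‖f t‖ ^ 2) mu := hf.integrable_norm_pow (by norm_num)
  have i2 : Integrable (fun t => (2 * δ)⁻¹ * ‖f t‖ ^ 2) mu := h3.const_mul _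
  have i1 : Integrable (fun _ : T => δ / 2) mu := integrable_const _
  have i3 : Integrable (fun t => δ / 2 + (2 * δ)⁻¹ * ‖f t‖ ^ 2) mu := i1.add i2
  have s1 : ∫ t, ‖f t‖ ∂mu ≤ ∫ t, (δ / 2 + (2 * δ)⁻¹ * ‖f t‖ ^ 2) ∂mu :=
    integral_mono (hf.integrable (by norm_num)).norm i3 hp
  have s2 : ∫ t, (δ / 2 + (2 * δ)⁻¹ * ‖f t‖ ^ 2) ∂mu =
      δ / 2 + (2 * δ)⁻¹ * ∫ t, ‖f t‖ ^ 2 ∂mu := by
    rw [integral_add i1 i2, integral_const_mul, integral_const]
    simp
  have s3 : (2 * δ)⁻¹ * ∫ t, ‖f t‖ ^ 2 ∂mu ≤ (2 * δ)⁻¹ * δ ^ 2 :=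
    mul_le_mul_of_nonneg_left h (by positivity)
  have s4 : (2 * δ)⁻¹ * δ ^ 2 = δ / 2 := by field_simp
  linarith

end

section

open MeasureTheory AddCircle Complex Filter Topology
open scoped ENNReal ComplexConjugate

variable {ξ : ℂ}

lemma norm_qk_le_y {ζ : ℂ} (hζ : ‖ζ‖ = 1) {s0 : ℝ} (h0 : 0 ≤ s0) (h : s0 < 1) (i : ℕ) (t : T)
    (hy : 0 < yy ζ t) : ‖qk (conj (pt ζ s0 i)) t‖ ≤ 2 / yy ζ t := by
  have hc := cc_pos h i
  have hc1 := cc_le h0 i h
  rw [qk, norm_inv, ← one_div, div_le_div_iff₀ _ hy, one_mul]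
  · -- y ≤ 2 * D
    have e1 : 1 - conj ζ * e 1 t =
        (1 - conj (pt ζ s0 i) * e 1 t) - ((cc s0 i : ℝ) : ℂ) * (conj ζ * e 1 t) := by
      rw [pt, map_mul, Complex.conj_ofReal]; push_cast; ring
    have h1 := norm_sub_le (1 - conj (pt ζ s0 i) * e 1 t) (((cc s0 i : ℝ) : ℂ) * (conj ζ * e 1 t))
    rw [← e1] at h1
    have h2 : ‖((cc s0 i : ℝ) : ℂ) * (conj ζ * e 1 t)‖ = cc s0 i := by
      rw [norm_mul, norm_mul, RCLike.norm_conj, hζ, e_norm, Complex.norm_real,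
        Real.norm_of_nonneg hc.le]; ring
    rw [h2] at h1
    have h3 := norm_sub_norm_le (1 : ℂ) (conj (pt ζ s0 i) * e 1 t)
    rw [norm_mul, e_norm, norm_one, mul_one, cpt_norm hζ h0 h] at h3
    rw [yy]
    linarith
  · rw [norm_pos_iff]; exact den_ne (cpt_lt hζ h0 h i) 1 t

lemma conc (hξ : ‖ξ‖ = 1) {ρ ε : ℝ} (hρ : 0 < ρ) (hε : 0 < ε) :
    ∃ η : ℝ, 0 < η ∧ ∃ N : ℕ, ∀ n ≥ N, ∀ (ζ : ℂ) (s0 : ℝ), ‖ζ‖ = 1 → 0 ≤ s0 → s0 < 1 →
      ‖ζ - ξ‖ ≤ η → ∫ t, ‖ww n ζ s0 t‖ * ‖1 - pr ξ ρ t‖ ∂mu ≤ ε := by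
  set η' := ε * ρ / 2 with hη'
  have hη0 : 0 < η' := by positivity
  obtain ⟨N, hN⟩ := exists_nat_gt (16 / (η' * ε))
  refine ⟨η' / 2, by positivity, N + 1, fun n hn ζ s0 hζ h0 h hζξ => ?_⟩
  have hn0 : 0 < n := by omega
  have hn' : (0 : ℝ) < n := by exact_mod_cast hn0
  have hnN : (N : ℝ) ≤ n := by exact_mod_cast (by omega : N ≤ n)
  have hb : 8 / (n * η') ≤ ε / 2 := by
    rw [div_lt_iff₀ (by positivity)] at hN
    rw [div_le_iff₀ (by positivity)]
    nlinarith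
  have cw := ww_cont (n := n) hζ h0 h
  have hpt : ∀ t, ‖ww n ζ s0 t‖ * ‖1 - pr ξ ρ t‖ ≤ η' / ρ * ‖ww n ζ s0 t‖ + 8 / (n * η') := by
    intro t
    by_cases hy : yy ξ t ≤ η'
    · have h1 : ‖1 - pr ξ ρ t‖ ≤ η' / ρ :=
        le_trans (one_sub_pr_le hξ hρ t) (div_le_div_of_nonneg_right hy hρ.le)
      have : 0 ≤ 8 / (n * η') := by positivity
      nlinarith [mul_le_mul_of_nonneg_left h1 (norm_nonneg (ww n ζ s0 t))]
    · push Not at hy
      have h1 : η' / 2 ≤ yy ζ t := by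
        have e1 : 1 - conj ξ * e 1 t = (1 - conj ζ * e 1 t) + conj (ζ - ξ) * e 1 t := by
          rw [map_sub]; ring
        have h2 := norm_add_le (1 - conj ζ * e 1 t) (conj (ζ - ξ) * e 1 t)
        rw [← e1, norm_mul, e_norm, mul_one, RCLike.norm_conj] at h2
        have h3 : yy ξ t ≤ yy ζ t + ‖ζ - ξ‖ := h2
        linarith
      have hyp : 0 < yy ζ t := by linarith
      have h4 : ∀ i, ‖qk (conj (pt ζ s0 i)) t‖ ≤ 4 / η' := by
        intro i
        refine le_trans (norm_qk_le_y hζ h0 h i t hyp) ?_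
        rw [div_le_div_iff₀ hyp hη0]
        linarith
      have h5 : ‖ww n ζ s0 t‖ ≤ 8 / (n * η') := by
        refine le_trans (ww_norm_le t) ?_
        rw [uu, norm_mul, norm_inv, Complex.norm_natCast]
        have h6 := norm_sub_le (qk (conj (pt ζ s0 n)) t) (qk (conj (pt ζ s0 0)) t)
        have h7 := h4 n
        have h8 := h4 0
        calc (n : ℝ)⁻¹ * ‖qk (conj (pt ζ s0 n)) t - qk (conj (pt ζ s0 0)) t‖
            ≤ (n : ℝ)⁻¹ * (4 / η' + 4 / η') := by gcongr; linarith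
          _ = 8 / (n * η') := by field_simp; norm_num
      have h9 := one_sub_pr_le_one hξ hρ t
      have h10 : 0 ≤ η' / ρ * ‖ww n ζ s0 t‖ := by positivity
      calc ‖ww n ζ s0 t‖ * ‖1 - pr ξ ρ t‖ ≤ 8 / (n * η') * 1 :=
            mul_le_mul h5 h9 (norm_nonneg _) (by positivity)
        _ ≤ _ := by linarith
  have j1 : Integrable (fun t => ‖ww n ζ s0 t‖ * ‖1 - pr ξ ρ t‖) mu :=
    cont_intR (cw.norm.mul (continuous_const.sub (pr_cont hξ hρ)).norm)
  have j2 : Integrable (fun t => η' / ρ * ‖ww n ζ s0 t‖) mu := cont_intR (continuous_const.mul cw.norm)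
  have j3 : Integrable (fun _ : T => 8 / (n * η')) mu := integrable_const _
  have j4 : Integrable (fun t => η' / ρ * ‖ww n ζ s0 t‖ + 8 / (n * η')) mu := j2.add j3
  calc ∫ t, ‖ww n ζ s0 t‖ * ‖1 - pr ξ ρ t‖ ∂mu
      ≤ ∫ t, (η' / ρ * ‖ww n ζ s0 t‖ + 8 / (n * η')) ∂mu := integral_mono j1 j4 hpt
    _ = η' / ρ * ∫ t, ‖ww n ζ s0 t‖ ∂mu + 8 / (n * η') := by
        rw [integral_add j2 j3, integral_const_mul, integral_const]
        simp
    _ ≤ η' / ρ * 1 + ε / 2 := by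
        gcongr
        exact ww_L1 hn0 hζ h0 h
    _ = ε := by rw [hη']; field_simp; norm_num

/-- If `conj I * F ∈ Lb` for every `F ∈ H^∞`, then `I` is not small on long dyadic radial
sequences. -/
theorem radial_lower {I : T → ℂ} (hI : IsInner I)
    (hmul : ∀ F ∈ HInf, (fun t => conj (I t) * F t) ∈ Lb) :
    ∃ n : ℕ, 0 < n ∧ ∃ ε : ℝ, 0 < ε ∧ ∀ ζ : ℂ, ‖ζ‖ = 1 → ∀ s0 : ℝ, 0 ≤ s0 → s0 < 1 →
      ∃ i < n, ε < ‖ext I (pt ζ s0 i)‖ := by
  by_contra hcon
  push Not at hcon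
  have hc : ∀ j : ℕ, ∃ ζ : ℂ, ‖ζ‖ = 1 ∧ ∃ s0 : ℝ, 0 ≤ s0 ∧ s0 < 1 ∧
      ∀ i < j + 200, ‖ext I (pt ζ s0 i)‖ ≤ 1 / ((j + 200 : ℕ) : ℝ) ^ 2 := fun j =>
    hcon (j + 200) (by omega) (1 / ((j + 200 : ℕ) : ℝ) ^ 2) (by positivity)
  choose Z hZ S hS0 hS1 hsmall using hc
  obtain ⟨ξ, hξ, φ, hφ, hlim⟩ := (isCompact_sphere (0 : ℂ) 1).tendsto_subseq
    (x := Z) (fun j => by simp [hZ j])
  have hξ1 : ‖ξ‖ = 1 := by simpa using hξ
  refine gliding hI.2 hI.1.1 hξ1
    (W := fun k => ww (φ k + 200) (Z (φ k)) (S (φ k)))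
    (F := fun k => FF (φ k + 200) (Z (φ k)) (S (φ k)) I) ?_ ?_ ?_ ?_ ?_ ?_
  · exact fun k => ww_cont (hZ _) (hS0 _) (hS1 _)
  · exact fun k => FF_HInf (hZ _) (hS0 _) (hS1 _) hI.1
  · intro k
    filter_upwards [FF_bound (hZ (φ k)) (hS0 _) (hS1 _) hI.2 (hsmall (φ k))] with t ht
    refine le_trans ht ?_
    have h200 : (1 : ℝ) ≤ ((φ k + 200 : ℕ) : ℝ) := by exact_mod_cast (by omega)
    have : ((φ k + 200 : ℕ) : ℝ) * (1 / ((φ k + 200 : ℕ) : ℝ) ^ 2) ≤ 1 := by
      rw [mul_one_div, div_le_one (by positivity)]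
      nlinarith
    linarith
  · intro G hG ε hε
    obtain ⟨N, hN⟩ := Lb_test (hmul G hG) hε
    refine ⟨N, fun k hk => hN _ ?_ _ _ (hZ _) (hS0 _) (hS1 _)⟩
    have := hφ.id_le k
    simp only [id] at this
    omega
  · intro ρ hρ ε hε
    obtain ⟨η, hη, N, hN⟩ := conc hξ1 hρ hε
    obtain ⟨M, hM⟩ := Metric.tendsto_atTop.1 hlim η hη
    refine ⟨max N M, fun k hk => hN _ ?_ _ _ (hZ _) (hS0 _) (hS1 _) ?_⟩
    · have := hφ.id_le k
      simp only [id] at this
      have := le_trans (le_max_left N M) hk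
      omega
    · have := hM k (le_trans (le_max_right N M) hk)
      rw [dist_eq_norm] at this
      exact this.le
  · intro k
    have h1 := FF_test (n := φ k + 200) (by omega) (hZ (φ k)) (hS0 _) (hS1 _) hI.2 hI.1.1
      (hsmall (φ k))
    refine le_trans ?_ h1
    have h200 : (200 : ℝ) ≤ ((φ k + 200 : ℕ) : ℝ) := by exact_mod_cast (by omega)
    set x := ((φ k + 200 : ℕ) : ℝ) with hx
    have hx0 : 0 < x := by linarith
    have e1 : 1 / 2 - 32 * x⁻¹ - x * (1 / x ^ 2) = 1 / 2 - 33 * x⁻¹ := by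
      field_simp; ring
    rw [e1]
    have : x⁻¹ ≤ (200 : ℝ)⁻¹ := inv_anti₀ (by norm_num) h200
    linarith

/-- consequence for inner functions invertible in `Db` -/
theorem radial_lower_of_inv {I : T → ℂ} (hI : IsInner I)
    (hinv : ∃ g ∈ Db, ∀ᵐ t ∂mu, I t * g t = 1) :
    ∃ n : ℕ, 0 < n ∧ ∃ ε : ℝ, 0 < ε ∧ ∀ ζ : ℂ, ‖ζ‖ = 1 → ∀ s0 : ℝ, 0 ≤ s0 → s0 < 1 →
      ∃ i < n, ε < ‖ext I (pt ζ s0 i)‖ := by
  apply radial_lower hI
  obtain ⟨g, ⟨a, ha, m, hm, hgam⟩, hIg⟩ := hinv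
  intro F hF
  -- `F ∈ Lb`
  have hFLb : F ∈ Lb := ⟨hF.1, fun ε hε => ⟨F, hF, fun _ => 0, const_HInf 0,
    Eventually.of_forall fun t => by simp [hε.le]⟩⟩
  have h1 := hm.2 F hFLb
  refine ⟨bdd_mul (bdd_conj hI.1.1) hF.1, fun ε hε => ?_⟩
  obtain ⟨p, hp, q, hq, hpq⟩ := h1.2 ε hε
  refine ⟨fun t => a t * F t + p t, ?_, q, hq, ?_⟩
  · exact add_HInf (mul_HInf ha hF) hp
  · filter_upwards [hpq, hgam, hIg, hI.2] with t h2 h3 h4 h5
    have h6 : conj (I t) = g t := by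
      have h7 : conj (I t) * I t = 1 := by
        rw [mul_comm, Complex.mul_conj, Complex.normSq_eq_norm_sq, h5]; simp
      calc conj (I t) = conj (I t) * (I t * g t) := by rw [h4, mul_one]
        _ = g t := by rw [← mul_assoc, h7, one_mul]
    have e1 : conj (I t) * F t - (a t * F t + p t + conj (q t)) =
        m t * F t - (p t + conj (q t)) := by
      rw [h6, h3]; ring
    rw [e1]; exact h2

end

section

open MeasureTheory AddCircle Complex Filter Topology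
open scoped ENNReal ComplexConjugate

/-- The Blaschke factor `z ↦ (|a|/a) (a - z)/(1 - conj a z)`, and `z ↦ z` for `a = 0`. -/
noncomputable def blaschkeFactor (a z : ℂ) : ℂ :=
  if a = 0 then z else (‖a‖ / a) * ((a - z) / (1 - conj a * z))

/-- `B` is on the unit disc an interpolating Blaschke product: the Blaschke product of a set `Z`
of points of the disc with `∑ (1 - |a|) < ∞` and
`inf_a ∏_{b ≠ a} |(a - b)/(1 - conj b a)| > 0`. -/
def IsInterpolatingBlaschke (B : ℂ → ℂ) : Prop :=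
  ∃ Z : Set ℂ, (∀ a ∈ Z, ‖a‖ < 1) ∧ Summable (fun a : Z => 1 - ‖(a : ℂ)‖) ∧
    (∃ δ : ℝ, 0 < δ ∧ ∀ a ∈ Z, ∀ F : Finset ℂ, (∀ b ∈ F, b ∈ Z ∧ b ≠ a) →
      δ ≤ ∏ b ∈ F, ‖(a - b) / (1 - conj b * a)‖) ∧
    ∀ z : ℂ, ‖z‖ < 1 → HasProd (fun a : Z => blaschkeFactor a z) (B z)

/-- The Carleson condition: up to a unimodular constant a finite product of interpolating
Blaschke products. -/
def CarlesonCondition (I : T → ℂ) : Prop :=
  ∃ c : ℂ, ‖c‖ = 1 ∧ ∃ (N : ℕ) (B : Fin N → ℂ → ℂ), (∀ j, IsInterpolatingBlaschke (B j)) ∧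
    ∀ z : ℂ, ‖z‖ < 1 → ext I z = c * ∏ j, B j z

/-! ### multiplicativity of the extension -/

lemma ext_mul {f g : T → ℂ} (hf : f ∈ HInf) (hg : g ∈ HInf) {z : ℂ} (hz : ‖z‖ < 1) :
    ext (fun t => f t * g t) z = ext f z * ext g z := by
  have bc := bdd_cont (ck_cont hz)
  -- the function `k' = (f - ext f z) ck z e_{-1}` is in `HInf`
  have hk : (fun t => (f t - ext f z) * ck z t * e (-1) t) ∈ HInf := by
    have hb : MemLp (fun t => (f t - ext f z)) ∞ mu := hf.1.sub (memLp_const _)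
    refine (mem_HInf_iff (bdd_mul (bdd_mul hb bc) (bdd_e _))).2 fun n hn => ?_
    obtain ⟨m, rfl⟩ : ∃ m, n = m + 1 := ⟨n - 1, by omega⟩
    have e1 : ∀ t, (f t - ext f z) * ck z t * e (-1) t * e ((m + 1 : ℕ) : ℤ) t =
        f t * e m t * ck z t - ext f z * ((1 : ℂ) * e m t * ck z t) := by
      intro t
      have : e ((m + 1 : ℕ) : ℤ) t = e 1 t * e m t := by rw [← e_add]; congr 2; push_cast; ring
      rw [this]
      linear_combination ((f t - ext f z) * ck z t * e m t) * (e_mul_neg t)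
    simp_rw [e1]
    have i1 : Integrable (fun t => f t * e m t * ck z t) mu :=
      memLp_integrable (bdd_mul (bdd_mul hf.1 (bdd_e m)) bc)
    have i2 : Integrable (fun t => ext f z * ((1 : ℂ) * e m t * ck z t)) mu :=
      (cont_int ((continuous_const.mul (e_cont m)).mul (ck_cont hz))).const_mul _
    rw [integral_sub i1 i2, integral_const_mul, int_ck_HInf hf hz,
      int_ck_HInf (const_HInf 1) hz, ext_one]
    ring
  have h0 := (mem_HInf_iff (mul_HInf hg hk).1).1 (mul_HInf hg hk) 1 one_pos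
  have hfg := mul_HInf hf hg
  rw [← int_ck_ext (memLp_integrable hfg.1) hz]
  have e2 : ∀ t, f t * g t * ck z t = ext f z * (g t * ck z t) +
      (g t * ((f t - ext f z) * ck z t * e (-1) t)) * e ((1 : ℕ) : ℤ) t := by
    intro t
    have := e_mul_neg t
    simp only [Nat.cast_one]
    linear_combination (-(g t * (f t - ext f z) * ck z t)) * this
  simp_rw [e2]
  have i1 : Integrable (fun t => ext f z * (g t * ck z t)) mu :=
    (memLp_integrable (bdd_mul hg.1 bc)).const_mul _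
  have i2 : Integrable (fun t => (g t * ((f t - ext f z) * ck z t * e (-1) t)) *
      e ((1 : ℕ) : ℤ) t) mu := memLp_integrable (bdd_mul (mul_HInf hg hk).1 (bdd_e _))
  rw [integral_add i1 i2, h0, add_zero, integral_const_mul,
    int_ck_ext (memLp_integrable hg.1) hz]

lemma ext_congr {f g : T → ℂ} (h : f =ᵐ[mu] g) (z : ℂ) : ext f z = ext g z := by
  simp only [ext, fourierCoeff_congr_ae h]

lemma ext_const (c : ℂ) {z : ℂ} (hz : ‖z‖ < 1) : ext (fun _ => c) z = c := by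
  have h1 : (fun _ : T => c) = fun t => c * (fun _ : T => (1 : ℂ)) t := by funext t; simp
  rw [h1, ext_smul (integrable_const _) c hz, ext_one, mul_one]

lemma ext_sub {f g : T → ℂ} (hf : Integrable f mu) (hg : Integrable g mu) {a : ℂ} (ha : ‖a‖ < 1) :
    ext (fun t => f t - g t) a = ext f a - ext g a := by
  have e1 : (fun t => f t - g t) = fun t => f t + (-1) * g t := by funext t; ring
  rw [e1, ext_add hf (hg.const_mul _) ha, ext_smul hg _ ha]
  ring

lemma e1_HInf : e 1 ∈ HInf := by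
  refine congr_HInf (mul_e_HInf (const_HInf 1)) (Eventually.of_forall fun t => ?_)
  simp only [one_mul]

lemma ext_e1 {z : ℂ} (hz : ‖z‖ < 1) : ext (e 1) z = z := by
  have h := int_ck_HInf (const_HInf 1) hz 1
  rw [ext_one] at h
  simp only [Nat.cast_one, one_mul, pow_one, mul_one] at h
  rw [← int_ck_ext (memLp_integrable e1_HInf.1) hz, h]

/-! ### Blaschke factors on the circle -/

/-- unimodular normalising constant -/
noncomputable def kap (a : ℂ) : ℂ := if a = 0 then -1 else ‖a‖ / a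

lemma kap_norm (a : ℂ) : ‖kap a‖ = 1 := by
  rw [kap]
  split_ifs with h
  · simp
  · have : ‖a‖ ≠ 0 := norm_ne_zero_iff.2 h
    rw [norm_div, Complex.norm_real, norm_norm, div_self this]

lemma bf_eq (a z : ℂ) : blaschkeFactor a z = kap a * ((a - z) / (1 - conj a * z)) := by
  rw [blaschkeFactor, kap]
  split_ifs with h
  · subst h; simp
  · rfl

lemma bf_norm (a z : ℂ) : ‖blaschkeFactor a z‖ = ‖(a - z) / (1 - conj a * z)‖ := by
  rw [bf_eq, norm_mul, kap_norm, one_mul]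

/-- boundary values of the Blaschke factor -/
noncomputable def bb (a : ℂ) (t : T) : ℂ := blaschkeFactor a (e 1 t)

lemma bb_eq (a : ℂ) (t : T) : bb a t = kap a * ((a - e 1 t) * qk (conj a) t) := by
  rw [bb, bf_eq, qk, div_eq_mul_inv]

lemma bb_norm {a : ℂ} (ha : ‖a‖ < 1) (t : T) : ‖bb a t‖ = 1 := by
  rw [bb, bf_norm, norm_div]
  have h1 : 1 - conj a * e 1 t = - e 1 t * conj (a - e 1 t) := by
    rw [map_sub, ← e_neg]
    linear_combination - e_mul_neg t
  have h2 : ‖1 - conj a * e 1 t‖ = ‖a - e 1 t‖ := by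
    rw [h1, norm_mul, norm_neg, e_norm, one_mul, RCLike.norm_conj]
  rw [h2, div_self]
  rw [← h2, norm_ne_zero_iff]
  exact den_ne (by simpa using ha) 1 t

lemma bb_HInf {a : ℂ} (ha : ‖a‖ < 1) : bb a ∈ HInf := by
  have ha' : ‖conj a‖ < 1 := by simpa using ha
  have h1 := smul_HInf (mul_HInf (sub_HInf (const_HInf a) e1_HInf) (qk_HInf ha')) (kap a)
  refine congr_HInf h1 (Eventually.of_forall fun t => ?_)
  simp only [bb_eq]

lemma bb_cont {a : ℂ} (ha : ‖a‖ < 1) : Continuous (bb a) := by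
  have ha' : ‖conj a‖ < 1 := by simpa using ha
  have : bb a = fun t => kap a * ((a - e 1 t) * qk (conj a) t) := funext (bb_eq a)
  rw [this]
  exact continuous_const.mul ((continuous_const.sub (e_cont 1)).mul (qk_cont ha'))

lemma ext_bb {a : ℂ} (ha : ‖a‖ < 1) {z : ℂ} (hz : ‖z‖ < 1) : ext (bb a) z = blaschkeFactor a z := by
  have ha' : ‖conj a‖ < 1 := by simpa using ha
  have h1 : bb a = fun t => kap a * ((a - e 1 t) * qk (conj a) t) := funext (bb_eq a)
  have hsub := sub_HInf (const_HInf a) e1_HInf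
  have hm := mul_HInf hsub (qk_HInf ha')
  rw [h1, ext_smul (memLp_integrable hm.1) _ hz, ext_mul hsub (qk_HInf ha') hz, ext_qk ha' hz,
    ext_sub (integrable_const _) (memLp_integrable e1_HInf.1) hz, ext_const a hz, ext_e1 hz, bf_eq,
    div_eq_mul_inv]

/-- division by a Blaschke factor -/
lemma div_bb {f : T → ℂ} (hf : f ∈ HInf) {a : ℂ} (ha : ‖a‖ < 1) (h0 : ext f a = 0) :
    (fun t => f t * conj (bb a t)) ∈ HInf := by
  refine (mem_HInf_iff (bdd_mul hf.1 (bdd_conj (bb_HInf ha).1))).2 fun n hn => ?_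
  obtain ⟨m, rfl⟩ : ∃ m, n = m + 1 := ⟨n - 1, by omega⟩
  have e1 : ∀ t, f t * conj (bb a t) * e ((m + 1 : ℕ) : ℤ) t = conj (kap a) *
      (conj a * (f t * e ((m + 1 : ℕ) : ℤ) t * ck a t) - f t * e m t * ck a t) := by
    intro t
    have h2 : e ((m + 1 : ℕ) : ℤ) t = e 1 t * e m t := by rw [← e_add]; congr 2; push_cast; ring
    have h3 : conj (bb a t) = conj (kap a) * ((conj a - e (-1) t) * ck a t) := by
      rw [bb_eq, map_mul, map_mul, map_sub, qk_conj, Complex.conj_conj, ← e_neg]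
    rw [h3, h2]
    linear_combination (-(conj (kap a) * f t * e m t * ck a t)) * e_mul_neg t
  simp_rw [e1]
  have bc := bdd_cont (ck_cont ha)
  have i1 : Integrable (fun t => conj a * (f t * e ((m + 1 : ℕ) : ℤ) t * ck a t)) mu :=
    (memLp_integrable (bdd_mul (bdd_mul hf.1 (bdd_e _)) bc)).const_mul _
  have i2 : Integrable (fun t => f t * e m t * ck a t) mu :=
    memLp_integrable (bdd_mul (bdd_mul hf.1 (bdd_e _)) bc)
  rw [integral_const_mul, integral_sub i1 i2, integral_const_mul, int_ck_HInf hf ha,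
    int_ck_HInf hf ha, h0]
  ring

/-! ### finite Blaschke products as lists -/

/-- boundary values of a finite Blaschke product -/
noncomputable def bP (s : List ℂ) (t : T) : ℂ := (s.map fun a => bb a t).prod

lemma bP_nil (t : T) : bP [] t = 1 := by simp [bP]

lemma bP_cons (a : ℂ) (s : List ℂ) (t : T) : bP (a :: s) t = bb a t * bP s t := by simp [bP]

lemma bP_norm {s : List ℂ} (hs : ∀ a ∈ s, ‖a‖ < 1) (t : T) : ‖bP s t‖ = 1 := by
  induction s with
  | nil => simp [bP]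
  | cons a s ih =>
    rw [bP_cons, norm_mul, bb_norm (hs a (by simp)), ih (fun b hb => hs b (by simp [hb])), one_mul]

lemma bP_HInf {s : List ℂ} (hs : ∀ a ∈ s, ‖a‖ < 1) : bP s ∈ HInf := by
  induction s with
  | nil =>
    have : bP [] = fun _ : T => (1 : ℂ) := funext bP_nil
    rw [this]; exact const_HInf 1
  | cons a s ih =>
    have : bP (a :: s) = fun t => bb a t * bP s t := funext (bP_cons a s)
    rw [this]
    exact mul_HInf (bb_HInf (hs a (by simp))) (ih fun b hb => hs b (by simp [hb]))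

lemma bP_cont {s : List ℂ} (hs : ∀ a ∈ s, ‖a‖ < 1) : Continuous (bP s) := by
  induction s with
  | nil =>
    have : bP [] = fun _ : T => (1 : ℂ) := funext bP_nil
    rw [this]; exact continuous_const
  | cons a s ih =>
    have : bP (a :: s) = fun t => bb a t * bP s t := funext (bP_cons a s)
    rw [this]
    exact (bb_cont (hs a (by simp))).mul (ih fun b hb => hs b (by simp [hb]))

lemma ext_bP {s : List ℂ} (hs : ∀ a ∈ s, ‖a‖ < 1) {z : ℂ} (hz : ‖z‖ < 1) :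
    ext (bP s) z = (s.map fun a => blaschkeFactor a z).prod := by
  induction s with
  | nil =>
    have : bP [] = fun _ : T => (1 : ℂ) := funext bP_nil
    rw [this, ext_one]; simp
  | cons a s ih =>
    have h1 : bP (a :: s) = fun t => bb a t * bP s t := funext (bP_cons a s)
    have ha := hs a (by simp)
    have hs' : ∀ b ∈ s, ‖b‖ < 1 := fun b hb => hs b (by simp [hb])
    rw [h1, ext_mul (bb_HInf ha) (bP_HInf hs') hz, ext_bb ha hz, ih hs']
    simp

/-- the finite Blaschke product with zero list `s` divides `f` -/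
def DivB (f : T → ℂ) (s : List ℂ) : Prop := (fun t => f t * conj (bP s t)) ∈ HInf

lemma mul_conj_of_norm_one {z : ℂ} (h : ‖z‖ = 1) : z * conj z = 1 := by
  rw [Complex.mul_conj, Complex.normSq_eq_norm_sq, h]; simp

lemma ext_of_DivB {f : T → ℂ} {s : List ℂ} (hs : ∀ a ∈ s, ‖a‖ < 1)
    (h : DivB f s) {z : ℂ} (hz : ‖z‖ < 1) :
    ext f z = (s.map fun a => blaschkeFactor a z).prod * ext (fun t => f t * conj (bP s t)) z := by
  rw [← ext_bP hs hz, ← ext_mul (bP_HInf hs) h hz]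
  apply ext_congr
  refine Eventually.of_forall fun t => ?_
  have := mul_conj_of_norm_one (bP_norm hs t)
  simp only
  linear_combination (-f t) * this

lemma norm_ext_le_of_DivB {f : T → ℂ} (hf1 : ∀ᵐ t ∂mu, ‖f t‖ = 1) {s : List ℂ}
    (hs : ∀ a ∈ s, ‖a‖ < 1) (h : DivB f s) {z : ℂ} (hz : ‖z‖ < 1) :
    ‖ext f z‖ ≤ (s.map fun a => ‖blaschkeFactor a z‖).prod := by
  rw [ext_of_DivB hs h hz, norm_mul]
  have h1 : ‖ext (fun t => f t * conj (bP s t)) z‖ ≤ 1 := by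
    apply ext_bound h _ hz
    filter_upwards [hf1] with t ht
    rw [norm_mul, ht, RCLike.norm_conj, bP_norm hs, one_mul]
  have h2 : ‖(s.map fun a => blaschkeFactor a z).prod‖ =
      (s.map fun a => ‖blaschkeFactor a z‖).prod := by
    rw [List.norm_prod, List.map_map]; rfl
  rw [h2]
  have h3 : 0 ≤ (s.map fun a => ‖blaschkeFactor a z‖).prod := by
    apply List.prod_nonneg
    intro x hx
    obtain ⟨a, -, rfl⟩ := List.mem_map.1 hx
    exact norm_nonneg _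
  calc _ ≤ (s.map fun a => ‖blaschkeFactor a z‖).prod * 1 := mul_le_mul_of_nonneg_left h1 h3
    _ = _ := mul_one _

lemma bf_zero_iff {a z : ℂ} (ha : ‖a‖ < 1) (hz : ‖z‖ < 1) : blaschkeFactor a z = 0 ↔ z = a := by
  have hk : kap a ≠ 0 := by
    rw [← norm_ne_zero_iff, kap_norm]; norm_num
  have hd : 1 - conj a * z ≠ 0 := by
    intro h
    have h1 : conj a * z = 1 := by linear_combination -h
    have h2 := congrArg norm h1
    rw [norm_mul, RCLike.norm_conj, norm_one] at h2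
    have h3 : ‖a‖ * ‖z‖ < 1 := by
      calc ‖a‖ * ‖z‖ ≤ ‖a‖ * 1 := mul_le_mul_of_nonneg_left hz.le (norm_nonneg _)
        _ < 1 := by simpa using ha
    linarith
  rw [bf_eq, mul_eq_zero, div_eq_zero_iff]
  constructor
  · rintro (h | h | h)
    · exact absurd h hk
    · exact (sub_eq_zero.1 h).symm
    · exact absurd h hd
  · intro h
    right; left; rw [h, sub_self]

/-- distinct zeros can be divided out -/
lemma DivB_of_zeros {f : T → ℂ} (hf : f ∈ HInf) {s : List ℂ} (hnd : s.Nodup)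
    (hs : ∀ a ∈ s, ‖a‖ < 1) (h0 : ∀ a ∈ s, ext f a = 0) : DivB f s := by
  induction s with
  | nil =>
    refine congr_HInf hf (Eventually.of_forall fun t => ?_)
    simp [bP]
  | cons a s ih =>
    have hnd' := List.nodup_cons.1 hnd
    have hs' : ∀ b ∈ s, ‖b‖ < 1 := fun b hb => hs b (by simp [hb])
    have ih' := ih hnd'.2 hs' (fun b hb => h0 b (by simp [hb]))
    have ha := hs a (by simp)
    have h1 := ext_of_DivB hs' ih' ha
    rw [h0 a (by simp)] at h1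
    have h2 : (s.map fun b => blaschkeFactor b a).prod ≠ 0 := by
      apply List.prod_ne_zero
      intro hc
      obtain ⟨b, hb, hb0⟩ := List.mem_map.1 hc
      rw [bf_zero_iff (hs' b hb) ha] at hb0
      exact hnd'.1 (hb0 ▸ hb)
    have h3 : ext (fun t => f t * conj (bP s t)) a = 0 := by
      rcases mul_eq_zero.1 h1.symm with h | h
      · exact absurd h h2
      · exact h
    have h4 := div_bb ih' ha h3
    refine congr_HInf h4 (Eventually.of_forall fun t => ?_)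
    simp only [bP_cons, map_mul]
    ring

end

section

open MeasureTheory AddCircle Complex Filter Topology
open scoped ENNReal ComplexConjugate

lemma int_HInf {f : T → ℂ} (hf : f ∈ HInf) : ∫ t, f t ∂mu = ext f 0 := by
  rw [← int_ck_ext (memLp_integrable hf.1) (by simp)]
  congr 1; funext t; simp [ck]

lemma norm_toLp_sq {f : T → ℂ} (hf : MemLp f 2 mu) : ‖hf.toLp f‖ ^ 2 = ∫ t, ‖f t‖ ^ 2 ∂mu := by
  have h := @inner_self_eq_norm_sq ℂ _ _ _ _ (hf.toLp f)
  rw [← h, L2.inner_def]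
  have e2 : (∫ t, inner ℂ ((hf.toLp f : T → ℂ) t) ((hf.toLp f : T → ℂ) t) ∂mu) =
      ((∫ t, ‖f t‖ ^ 2 ∂mu : ℝ) : ℂ) := by
    rw [show ((∫ t, ‖f t‖ ^ 2 ∂mu : ℝ) : ℂ) = ∫ t, ((‖f t‖ ^ 2 : ℝ) : ℂ) ∂mu from
      integral_ofReal.symm]
    apply integral_congr_ae
    filter_upwards [MemLp.coeFn_toLp hf] with t h1
    rw [RCLike.inner_apply, h1, Complex.mul_conj, Complex.normSq_eq_norm_sq]
  rw [e2]
  simp

variable {Z : Set ℂ}

/-- finite subproducts of the Blaschke product with zero set `Z`, on the circle -/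
noncomputable def bF (F : Finset Z) (t : T) : ℂ := ∏ a ∈ F, bb (a : ℂ) t

lemma bF_norm (hZ : ∀ a ∈ Z, ‖a‖ < 1) (F : Finset Z) (t : T) : ‖bF F t‖ = 1 := by
  rw [bF, norm_prod]
  exact Finset.prod_eq_one fun a _ => bb_norm (hZ a a.2) t

lemma bF_HInf (hZ : ∀ a ∈ Z, ‖a‖ < 1) (F : Finset Z) : bF F ∈ HInf := by
  classical
  induction F using Finset.induction_on with
  | empty =>
    have : (bF (∅ : Finset Z)) = fun _ : T => (1 : ℂ) := by funext t; simp [bF]
    rw [this]; exact const_HInf 1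
  | insert a s ha ih =>
    have : bF (insert a s) = fun t => bb (a : ℂ) t * bF s t := by
      funext t; rw [bF, Finset.prod_insert ha]; rfl
    rw [this]
    exact mul_HInf (bb_HInf (hZ a a.2)) ih

lemma ext_bF (hZ : ∀ a ∈ Z, ‖a‖ < 1) (F : Finset Z) {z : ℂ} (hz : ‖z‖ < 1) :
    ext (bF F) z = ∏ a ∈ F, blaschkeFactor (a : ℂ) z := by
  classical
  induction F using Finset.induction_on with
  | empty =>
    have : (bF (∅ : Finset Z)) = fun _ : T => (1 : ℂ) := by funext t; simp [bF]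
    rw [this, ext_one]; simp
  | insert a s ha ih =>
    have : bF (insert a s) = fun t => bb (a : ℂ) t * bF s t := by
      funext t; rw [bF, Finset.prod_insert ha]; rfl
    rw [this, ext_mul (bb_HInf (hZ a a.2)) (bF_HInf hZ s) hz, ext_bb (hZ a a.2) hz, ih,
      Finset.prod_insert ha]

lemma bf_zero (a : ℂ) : blaschkeFactor a 0 = (‖a‖ : ℂ) := by
  rw [blaschkeFactor]
  split_ifs with h
  · subst h; simp
  · field_simp
    simp

lemma prod_ge {ι : Type*} (F : Finset ι) (x : ι → ℝ) (h0 : ∀ i ∈ F, 0 ≤ x i)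
    (h1 : ∀ i ∈ F, x i ≤ 1) : 1 - ∑ i ∈ F, (1 - x i) ≤ ∏ i ∈ F, x i := by
  classical
  have key : 0 ≤ ∏ i ∈ F, x i ∧ ∏ i ∈ F, x i ≤ 1 ∧ 1 - ∑ i ∈ F, (1 - x i) ≤ ∏ i ∈ F, x i := by
    induction F using Finset.induction_on with
    | empty => simp
    | insert a s ha ih =>
      rw [Finset.sum_insert ha, Finset.prod_insert ha]
      obtain ⟨i1, i2, i3⟩ := ih (fun i hi => h0 i (Finset.mem_insert_of_mem hi))
        (fun i hi => h1 i (Finset.mem_insert_of_mem hi))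
      have a0 := h0 a (Finset.mem_insert_self _ _)
      have a1 := h1 a (Finset.mem_insert_self _ _)
      refine ⟨by positivity, ?_, ?_⟩ <;> nlinarith
  exact key.2.2

lemma dist_sq (hZ : ∀ a ∈ Z, ‖a‖ < 1) [DecidableEq Z] {F₀ F : Finset Z} (h : F₀ ⊆ F) :
    ∫ t, ‖bF F t - bF F₀ t‖ ^ 2 ∂mu = 2 - 2 * ∏ a ∈ F \ F₀, ‖(a : ℂ)‖ := by
  have e1 : ∀ t, ‖bF F t - bF F₀ t‖ ^ 2 = 2 - 2 * (bF (F \ F₀) t).re := by
    intro t
    have h1 : bF F t = bF (F \ F₀) t * bF F₀ t := by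
      rw [bF, bF, bF, Finset.prod_sdiff h]
    rw [h1, show bF (F \ F₀) t * bF F₀ t - bF F₀ t = (bF (F \ F₀) t - 1) * bF F₀ t by ring,
      norm_mul, bF_norm hZ, mul_one, ← Complex.normSq_eq_norm_sq, Complex.normSq_apply]
    have h2 := bF_norm hZ (F \ F₀) t
    have h3 : (bF (F \ F₀) t).re * (bF (F \ F₀) t).re + (bF (F \ F₀) t).im * (bF (F \ F₀) t).im =
        1 := by
      rw [← Complex.normSq_apply, Complex.normSq_eq_norm_sq, h2]; norm_num
    simp only [Complex.sub_re, Complex.sub_im, Complex.one_re, Complex.one_im]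
    linarith
  simp_rw [e1]
  have hH := bF_HInf hZ (F \ F₀)
  have i1 : Integrable (fun t => (bF (F \ F₀) t).re) mu := (memLp_integrable hH.1).re
  rw [integral_sub (integrable_const _) (i1.const_mul _), integral_const_mul, integral_const]
  have e2 : ∫ t, (bF (F \ F₀) t).re ∂mu = ∏ a ∈ F \ F₀, ‖(a : ℂ)‖ := by
    have h4 := int_HInf hH
    rw [ext_bF hZ _ (by simp)] at h4
    have h5 : ∫ t, (bF (F \ F₀) t).re ∂mu = (∫ t, bF (F \ F₀) t ∂mu).re :=
      integral_re (memLp_integrable hH.1)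
    rw [h5, h4]
    simp_rw [bf_zero]
    rw [← Complex.ofReal_prod, Complex.ofReal_re]
  rw [e2]
  simp

/-- The (infinite) Blaschke product with zero set `Z`, by its boundary values. -/
theorem exists_blaschke (hZ : ∀ a ∈ Z, ‖a‖ < 1) (hs : Summable fun a : Z => 1 - ‖(a : ℂ)‖) :
    ∃ B : T → ℂ, IsInner B ∧
      (∀ z : ℂ, ‖z‖ < 1 → HasProd (fun a : Z => blaschkeFactor a z) (ext B z)) ∧
      ∀ f : T → ℂ, MemLp f ∞ mu → (∀ F : Finset Z, (fun t => f t * conj (bF F t)) ∈ HInf) →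
        (fun t => f t * conj (B t)) ∈ HInf := by
  classical
  have hm : ∀ F : Finset Z, MemLp (bF F) 2 mu := fun F => memLp2 (bF_HInf hZ F).1
  set u : Finset Z → Lp ℂ 2 mu := fun F => (hm F).toLp (bF F) with hu
  have hcau : CauchySeq u := by
    rw [Metric.cauchySeq_iff']
    intro ε hε
    obtain ⟨F₀, hF₀⟩ := summable_iff_vanishing_norm.1 hs (ε ^ 2 / 4) (by positivity)
    refine ⟨F₀, fun F hF => ?_⟩
    have h1 : dist (u F) (u F₀) ^ 2 = ∫ t, ‖bF F t - bF F₀ t‖ ^ 2 ∂mu := by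
      rw [dist_eq_norm, hu]
      simp only
      rw [← MemLp.toLp_sub, norm_toLp_sq]
      rfl
    rw [dist_sq hZ hF] at h1
    have h2 := hF₀ (F \ F₀) Finset.sdiff_disjoint
    have h3 := prod_ge (F \ F₀) (fun a => ‖(a : ℂ)‖) (fun a _ => norm_nonneg _)
      (fun a _ => (hZ a a.2).le)
    have h4 := lt_of_le_of_lt (le_abs_self _) h2
    have h5 : dist (u F) (u F₀) ^ 2 < ε ^ 2 := by rw [h1]; nlinarith
    exact lt_of_pow_lt_pow_left₀ 2 hε.le h5
  obtain ⟨B0, hB0⟩ := cauchySeq_tendsto_of_complete hcau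
  set B : T → ℂ := (B0 : T → ℂ) with hB
  have hBm : MemLp B 2 mu := Lp.memLp B0
  have hBeq : hBm.toLp B = B0 := Lp.toLp_coeFn B0 hBm
  -- `L¹` convergence
  have hL1 : ∀ δ : ℝ, 0 < δ → ∀ᶠ F : Finset Z in atTop, ∫ t, ‖bF F t - B t‖ ∂mu ≤ δ := by
    intro δ hδ
    filter_upwards [Metric.tendsto_nhds.1 hB0 δ hδ] with F hF
    have hsub : MemLp (fun t => bF F t - B t) 2 mu := (hm F).sub hBm
    refine L1_le_of_L2 hsub hδ ?_
    have h1 : dist (u F) B0 ^ 2 = ∫ t, ‖bF F t - B t‖ ^ 2 ∂mu := by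
      rw [dist_eq_norm, ← hBeq, hu]
      simp only
      rw [← MemLp.toLp_sub, norm_toLp_sq]
      rfl
    rw [← h1]
    exact pow_le_pow_left₀ dist_nonneg hF.le 2
  have hBint : Integrable B mu := hBm.integrable (by norm_num)
  have hbint : ∀ F : Finset Z, Integrable (bF F) mu := fun F => memLp_integrable (bF_HInf hZ F).1
  -- modulus one
  have hB1 : ∀ᵐ t ∂mu, ‖B t‖ = 1 := by
    have hi : Integrable (fun t => |1 - ‖B t‖|) mu :=
      ((integrable_const (1 : ℝ)).sub hBint.norm).abs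
    have h0 : ∫ t, |1 - ‖B t‖| ∂mu = 0 := by
      apply le_antisymm _ (integral_nonneg fun t => abs_nonneg _)
      refine le_of_forall_pos_le_add fun δ hδ => ?_
      rw [zero_add]
      obtain ⟨F, hF⟩ := (hL1 δ hδ).exists
      refine le_trans ?_ hF
      have hd : Integrable (fun t => bF F t - B t) mu := (hbint F).sub hBint
      apply integral_mono hi hd.norm
      intro t
      simp only
      rw [← bF_norm hZ F t]
      exact abs_norm_sub_norm_le _ _
    rw [integral_eq_zero_iff_of_nonneg (fun t => abs_nonneg _) hi] at h0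
    filter_upwards [h0] with t ht
    have h1 : 1 - ‖B t‖ = 0 := abs_eq_zero.1 ht
    linarith
  have hBtop : MemLp B ∞ mu := memLp_top_of_bound hBm.1 1 (by
    filter_upwards [hB1] with t ht; rw [ht])
  -- weak convergence
  have hint : ∀ g : T → ℂ, MemLp g ∞ mu →
      Tendsto (fun F : Finset Z => ∫ t, bF F t * g t ∂mu) atTop (𝓝 (∫ t, B t * g t ∂mu)) := by
    intro g hg
    obtain ⟨D, hD0, hD⟩ := exists_bound hg
    rw [Metric.tendsto_nhds]
    intro ε hε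
    filter_upwards [hL1 (ε / (2 * (D + 1))) (by positivity)] with F hF
    rw [dist_eq_norm]
    have i1 := memLp_integrable (bdd_mul (bF_HInf hZ F).1 hg)
    have i2 := memLp_integrable (bdd_mul hBtop hg)
    have i3 : Integrable (fun t => D * ‖bF F t - B t‖) mu :=
      (((hbint F).sub hBint).norm).const_mul D
    rw [← integral_sub i1 i2]
    calc ‖∫ t, (bF F t * g t - B t * g t) ∂mu‖ ≤ ∫ t, D * ‖bF F t - B t‖ ∂mu := by
          apply norm_integral_le_of_norm_le i3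
          filter_upwards [hD] with t ht
          rw [← sub_mul, norm_mul, mul_comm]
          exact mul_le_mul_of_nonneg_right ht (norm_nonneg _)
      _ = D * ∫ t, ‖bF F t - B t‖ ∂mu := integral_const_mul _ _
      _ ≤ D * (ε / (2 * (D + 1))) := mul_le_mul_of_nonneg_left hF hD0
      _ < ε := by
        rw [mul_div_assoc', div_lt_iff₀ (by positivity)]
        nlinarith
  have hintc : ∀ g : T → ℂ, MemLp g ∞ mu →
      Tendsto (fun F : Finset Z => ∫ t, conj (bF F t) * g t ∂mu) atTop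
        (𝓝 (∫ t, conj (B t) * g t ∂mu)) := by
    intro g hg
    have h1 := hint _ (bdd_conj hg)
    have h2 := (continuous_conj.tendsto _).comp h1
    have e1 : ∀ f : T → ℂ, conj (∫ t, f t * conj (g t) ∂mu) = ∫ t, conj (f t) * g t ∂mu := by
      intro f
      rw [← integral_conj]
      congr 1; funext t
      rw [map_mul, Complex.conj_conj]
    rw [e1] at h2
    refine h2.congr fun F => ?_
    simp only [Function.comp]
    rw [e1]
  have hBH : B ∈ HInf := by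
    refine (mem_HInf_iff hBtop).2 fun n hn => ?_
    have h1 := hint (e n) (bdd_e n)
    have h2 : ∀ F : Finset Z, ∫ t, bF F t * e n t ∂mu = 0 := fun F =>
      (mem_HInf_iff (bF_HInf hZ F).1).1 (bF_HInf hZ F) n hn
    simp_rw [h2] at h1
    exact (tendsto_nhds_unique tendsto_const_nhds h1).symm
  refine ⟨B, ⟨hBH, hB1⟩, fun z hz => ?_, fun f hf hF => ?_⟩
  · have h1 := hint (ck z) (bdd_cont (ck_cont hz))
    rw [int_ck_ext hBint hz] at h1
    have h2 : ∀ F : Finset Z, ∫ t, bF F t * ck z t ∂mu = ∏ a ∈ F, blaschkeFactor (a : ℂ) z :=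
      fun F => by rw [int_ck_ext (hbint F) hz, ext_bF hZ F hz]
    simp_rw [h2] at h1
    simpa [HasProd] using h1
  · refine (mem_HInf_iff (bdd_mul hf (bdd_conj hBtop))).2 fun n hn => ?_
    have h1 := hintc (fun t => f t * e n t) (bdd_mul hf (bdd_e n))
    have h2 : ∀ F : Finset Z, ∫ t, conj (bF F t) * (f t * e n t) ∂mu = 0 := fun F => by
      have := (mem_HInf_iff (hF F).1).1 (hF F) n hn
      rw [← this]
      congr 1; funext t; ring
    simp_rw [h2] at h1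
    have h3 := (tendsto_nhds_unique tendsto_const_nhds h1).symm
    rw [← h3]
    congr 1; funext t; ring

end

section

open MeasureTheory AddCircle Complex Filter Topology
open scoped ENNReal ComplexConjugate

/-- pseudo-hyperbolic distance -/
noncomputable def rh (a b : ℂ) : ℝ := ‖(a - b) / (1 - conj b * a)‖

lemma one_sub_ne {a b : ℂ} (ha : ‖a‖ < 1) (hb : ‖b‖ < 1) : 1 - conj b * a ≠ 0 := by
  intro h
  have h1 : conj b * a = 1 := by linear_combination -h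
  have h2 := congrArg norm h1
  rw [norm_mul, RCLike.norm_conj, norm_one] at h2
  have h3 : ‖b‖ * ‖a‖ < 1 := by
    calc ‖b‖ * ‖a‖ ≤ ‖b‖ * 1 := mul_le_mul_of_nonneg_left ha.le (norm_nonneg _)
      _ < 1 := by simpa using hb
  linarith

lemma rh_sq {a b : ℂ} (ha : ‖a‖ < 1) (hb : ‖b‖ < 1) :
    1 - rh a b ^ 2 = (1 - ‖a‖ ^ 2) * (1 - ‖b‖ ^ 2) / ‖1 - conj b * a‖ ^ 2 := by
  have h := one_sub_ne ha hb
  have h1 : ‖1 - conj b * a‖ ^ 2 ≠ 0 := by
    have := norm_ne_zero_iff.2 h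
    positivity
  rw [rh, norm_div, div_pow, eq_div_iff h1, sub_mul, div_mul_cancel₀ _ h1]
  rw [← Complex.normSq_eq_norm_sq, ← Complex.normSq_eq_norm_sq, ← Complex.normSq_eq_norm_sq,
    ← Complex.normSq_eq_norm_sq]
  simp only [Complex.normSq_apply, Complex.sub_re, Complex.sub_im, Complex.one_re, Complex.one_im,
    Complex.mul_re, Complex.mul_im, Complex.conj_re, Complex.conj_im]
  ring

lemma rh_nonneg (a b : ℂ) : 0 ≤ rh a b := norm_nonneg _

lemma rh_self (a : ℂ) : rh a a = 0 := by simp [rh]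

lemma rh_le_one {a b : ℂ} (ha : ‖a‖ < 1) (hb : ‖b‖ < 1) : rh a b ≤ 1 := by
  have h := rh_sq ha hb
  have h1 : 0 ≤ (1 - ‖a‖ ^ 2) * (1 - ‖b‖ ^ 2) / ‖1 - conj b * a‖ ^ 2 := by
    have := norm_nonneg a
    have := norm_nonneg b
    apply div_nonneg _ (by positivity)
    apply mul_nonneg <;> nlinarith
  have h2 := rh_nonneg a b
  nlinarith

lemma rh_comm (a b : ℂ) : rh a b = rh b a := by
  rw [rh, rh, norm_div, norm_div, norm_sub_rev]
  congr 1
  rw [← RCLike.norm_conj]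
  congr 1
  simp only [map_sub, map_one, map_mul, Complex.conj_conj]
  ring

lemma norm_bf {a z : ℂ} : ‖blaschkeFactor a z‖ = rh z a := by
  rw [bf_norm, rh, norm_div, norm_div, norm_sub_rev]

/-- `ext f` is not small near any point, at a point comparable to it -/
def Good (c ε : ℝ) (f : T → ℂ) : Prop :=
  ∀ z : ℂ, ‖z‖ < 1 → ∃ w : ℂ, ‖w‖ < 1 ∧ ε < ‖ext f w‖ ∧
    ∀ b : ℂ, ‖b‖ < 1 → c * (1 - rh z b ^ 2) ≤ 1 - rh w b ^ 2

lemma good_of_radial {f : T → ℂ} {n : ℕ} {ε : ℝ}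
    (h : ∀ ζ : ℂ, ‖ζ‖ = 1 → ∀ s0 : ℝ, 0 ≤ s0 → s0 < 1 → ∃ i < n, ε < ‖ext f (pt ζ s0 i)‖) :
    Good (1 / (8 * 2 ^ n)) ε f := by
  intro z hz
  obtain ⟨ζ, hζ, hz2⟩ : ∃ ζ : ℂ, ‖ζ‖ = 1 ∧ z = (‖z‖ : ℂ) * ζ := by
    by_cases h0 : z = 0
    · exact ⟨1, by simp, by simp [h0]⟩
    · have : ‖z‖ ≠ 0 := norm_ne_zero_iff.2 h0
      have hc : (‖z‖ : ℂ) ≠ 0 := by exact_mod_cast this
      refine ⟨z / ‖z‖, ?_, ?_⟩
      · rw [norm_div, Complex.norm_real, norm_norm, div_self this]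
      · field_simp
  obtain ⟨i, hi, hw⟩ := h ζ hζ ‖z‖ (norm_nonneg _) hz
  set w := pt ζ ‖z‖ i with hwdef
  have hw1 : ‖w‖ < 1 := pt_lt hζ (norm_nonneg _) hz i
  refine ⟨w, hw1, hw, fun b hb => ?_⟩
  have hc := cc_pos hz i
  have hwn : ‖w‖ = 1 - cc ‖z‖ i := pt_norm hζ (norm_nonneg _) hz i
  have hcle : cc ‖z‖ i ≤ 1 - ‖z‖ := by
    have := cc_anti hz (Nat.zero_le i)
    simpa [cc] using this
  have hcge : (1 - ‖z‖) / 2 ^ n ≤ cc ‖z‖ i := by
    have := cc_anti hz hi.le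
    exact this
  rw [rh_sq hz hb, rh_sq hw1 hb]
  have hzn := norm_nonneg z
  have hbn := norm_nonneg b
  have hp1 : 0 < ‖1 - conj b * z‖ := norm_pos_iff.2 (one_sub_ne hz hb)
  have hp2 : 0 < ‖1 - conj b * w‖ := norm_pos_iff.2 (one_sub_ne hw1 hb)
  -- comparison of denominators
  have hwz : ‖w - z‖ ≤ 1 - ‖z‖ := by
    have : w - z = ((1 - cc ‖z‖ i - ‖z‖ : ℝ) : ℂ) * ζ := by
      rw [hwdef, pt]; nth_rw 2 [hz2]; push_cast; ring
    rw [this, norm_mul, hζ, mul_one, Complex.norm_real, Real.norm_eq_abs, abs_le]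
    constructor <;> linarith
  have hd : ‖1 - conj b * w‖ ≤ 2 * ‖1 - conj b * z‖ := by
    have e1 : 1 - conj b * w = (1 - conj b * z) - conj b * (w - z) := by ring
    have h1 := norm_sub_le (1 - conj b * z) (conj b * (w - z))
    rw [← e1, norm_mul, RCLike.norm_conj] at h1
    have h2 : 1 - ‖z‖ ≤ ‖1 - conj b * z‖ := by
      have := norm_sub_norm_le (1 : ℂ) (conj b * z)
      rw [norm_mul, RCLike.norm_conj, norm_one] at this
      nlinarith
    have h3 : ‖b‖ * ‖w - z‖ ≤ 1 * (1 - ‖z‖) :=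
      mul_le_mul hb.le hwz (norm_nonneg _) (by norm_num)
    linarith
  have hnum : (1 - ‖z‖ ^ 2) / (2 * 2 ^ n) ≤ 1 - ‖w‖ ^ 2 := by
    have h1 : (1 - ‖z‖ ^ 2) / (2 * 2 ^ n) ≤ (1 - ‖z‖) / 2 ^ n := by
      rw [div_le_div_iff₀ (by positivity) (by positivity)]
      have : (0 : ℝ) < 2 ^ n := by positivity
      have : 1 - ‖z‖ ^ 2 ≤ 2 * (1 - ‖z‖) := by nlinarith
      nlinarith
    have h2 : cc ‖z‖ i ≤ 1 - ‖w‖ ^ 2 := by
      rw [hwn]
      nlinarith
    linarith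
  have hb2 : 0 < 1 - ‖b‖ ^ 2 := by nlinarith
  have hz2' : 0 < 1 - ‖z‖ ^ 2 := by nlinarith
  calc 1 / (8 * 2 ^ n) * ((1 - ‖z‖ ^ 2) * (1 - ‖b‖ ^ 2) / ‖1 - conj b * z‖ ^ 2)
      = ((1 - ‖z‖ ^ 2) / (2 * 2 ^ n)) * (1 - ‖b‖ ^ 2) / (2 * ‖1 - conj b * z‖) ^ 2 := by
        field_simp; ring
    _ ≤ (1 - ‖w‖ ^ 2) * (1 - ‖b‖ ^ 2) / (2 * ‖1 - conj b * z‖) ^ 2 := by
        apply div_le_div_of_nonneg_right _ (by positivity)
        exact mul_le_mul_of_nonneg_right hnum hb2.le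
    _ ≤ (1 - ‖w‖ ^ 2) * (1 - ‖b‖ ^ 2) / ‖1 - conj b * w‖ ^ 2 := by
        apply div_le_div_of_nonneg_left _ (by positivity)
        · exact pow_le_pow_left₀ hp2.le hd 2
        · apply mul_nonneg _ hb2.le
          have := norm_nonneg w
          nlinarith

/-- a zero-free holomorphic function on the disc has a logarithm -/
lemma exists_log {g : ℂ → ℂ} (hg : DifferentiableOn ℂ g (Metric.ball 0 1))
    (h0 : ∀ z ∈ Metric.ball (0 : ℂ) 1, g z ≠ 0) :
    ∃ p : ℂ → ℂ, DifferentiableOn ℂ p (Metric.ball 0 1) ∧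
      ∀ z ∈ Metric.ball (0 : ℂ) 1, g z = Complex.exp (p z) := by
  have hdg : DifferentiableOn ℂ (deriv g) (Metric.ball 0 1) := hg.deriv Metric.isOpen_ball
  have hq : DifferentiableOn ℂ (fun z => deriv g z / g z) (Metric.ball 0 1) := hdg.div hg h0
  obtain ⟨F, hF⟩ := hq.isExactOn_ball
  -- `g exp(-F)` is constant
  have hder : ∀ z ∈ Metric.ball (0 : ℂ) 1,
      HasDerivAt (fun z => g z * Complex.exp (-F z)) 0 z := by
    intro z hz
    have h1 : HasDerivAt g (deriv g z) z :=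
      (hg.differentiableAt (Metric.isOpen_ball.mem_nhds hz)).hasDerivAt
    have h2 : HasDerivAt (fun z => Complex.exp (-F z))
        (Complex.exp (-F z) * -(deriv g z / g z)) z := (hF z hz).neg.cexp
    have h3 : HasDerivAt (fun z => g z * Complex.exp (-F z)) (deriv g z * Complex.exp (-F z) +
        g z * (Complex.exp (-F z) * -(deriv g z / g z))) z := h1.mul h2
    have h5 := h0 z hz
    have h4 : deriv g z * Complex.exp (-F z) +
        g z * (Complex.exp (-F z) * -(deriv g z / g z)) = 0 := by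
      have : g z * (deriv g z / g z) = deriv g z := by field_simp
      linear_combination (-Complex.exp (-F z)) * this
    rw [h4] at h3
    exact h3
  have hconst : ∀ z ∈ Metric.ball (0 : ℂ) 1,
      g z * Complex.exp (-F z) = g 0 * Complex.exp (-F 0) := by
    intro z hz
    have hconv : Convex ℝ (Metric.ball (0 : ℂ) 1) := convex_ball _ _
    apply (convex_ball (0 : ℂ) 1).is_const_of_fderivWithin_eq_zero (𝕜 := ℂ)
      (f := fun z => g z * Complex.exp (-F z)) _ _ hz (Metric.mem_ball_self one_pos)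
    · exact fun w hw => (hder w hw).differentiableAt.differentiableWithinAt
    · intro w hw
      rw [fderivWithin_of_isOpen Metric.isOpen_ball hw]
      have := (hder w hw).hasFDerivAt.fderiv
      rw [this]
      ext; simp
  have hk : g 0 * Complex.exp (-F 0) ≠ 0 :=
    mul_ne_zero (h0 0 (Metric.mem_ball_self one_pos)) (Complex.exp_ne_zero _)
  refine ⟨fun z => F z + Complex.log (g 0 * Complex.exp (-F 0)), ?_, ?_⟩
  · exact DifferentiableOn.add_const _
      (fun z hz => (hF z hz).differentiableAt.differentiableWithinAt)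
  · intro z hz
    rw [Complex.exp_add, Complex.exp_log hk, ← hconst z hz, Complex.exp_neg]
    field_simp

/-- Harnack-type lower bound for zero-free functions bounded by one -/
lemma lower_of_zero_free {g : ℂ → ℂ} (hg : DifferentiableOn ℂ g (Metric.ball 0 1))
    (h0 : ∀ z ∈ Metric.ball (0 : ℂ) 1, g z ≠ 0) (h1 : ∀ z ∈ Metric.ball (0 : ℂ) 1, ‖g z‖ ≤ 1)
    {z w : ℂ} (hz : ‖z‖ < 1) (hw : ‖w‖ < 1) {ε c : ℝ} (hε : 0 < ε) (hε1 : ε < 1)
    (hwε : ε < ‖g w‖) (hc : 0 < c) (hcr : c ≤ 1 - rh z w ^ 2) :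
    Real.exp (-(4 / c * (1 - Real.log ε))) ≤ ‖g z‖ := by
  obtain ⟨p, hp, hpe⟩ := exists_log hg h0
  have hre : ∀ ξ ∈ Metric.ball (0 : ℂ) 1, Real.log ‖g ξ‖ = (p ξ).re := by
    intro ξ hξ
    rw [hpe ξ hξ, Complex.norm_exp, Real.log_exp]
  have hre0 : ∀ ξ ∈ Metric.ball (0 : ℂ) 1, (p ξ).re ≤ 0 := by
    intro ξ hξ
    rw [← hre ξ hξ]
    exact Real.log_nonpos (norm_nonneg _) (h1 ξ hξ)
  -- P = 1 - p has real part ≥ 1
  set P : ℂ → ℂ := fun ξ => 1 - p ξ with hP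
  have hPre : ∀ ξ ∈ Metric.ball (0 : ℂ) 1, 1 ≤ (P ξ).re := by
    intro ξ hξ
    have := hre0 ξ hξ
    simp only [hP, Complex.sub_re, Complex.one_re]; linarith
  have hPd : DifferentiableOn ℂ P (Metric.ball 0 1) := (differentiableOn_const _).sub hp
  have hzB : z ∈ Metric.ball (0 : ℂ) 1 := by simpa using hz
  have hwB : w ∈ Metric.ball (0 : ℂ) 1 := by simpa using hw
  set B := P w with hB
  have hB1 : 1 ≤ B.re := hPre w hwB
  -- the Moebius map
  set φ : ℂ → ℂ := fun ξ => (ξ + w) / (1 + conj w * ξ) with hφ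
  have hden : ∀ ξ ∈ Metric.ball (0 : ℂ) 1, 1 + conj w * ξ ≠ 0 := by
    intro ξ hξ
    have h2 : ‖-ξ‖ < 1 := by simpa using hξ
    have := one_sub_ne h2 hw
    intro h; apply this; rw [← h]; ring
  have hφmaps : ∀ ξ ∈ Metric.ball (0 : ℂ) 1, φ ξ ∈ Metric.ball (0 : ℂ) 1 := by
    intro ξ hξ
    have h2 : ‖ξ‖ < 1 := by simpa using hξ
    have h3 : ‖-ξ‖ < 1 := by simpa using hξ
    have h4 := rh_sq h3 hw
    have h5 : rh (-ξ) w = ‖φ ξ‖ := by
      rw [rh, hφ, norm_div]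
      simp only [norm_div]
      congr 1
      · rw [← norm_neg]; congr 1; ring
      · congr 1; ring
    have h6 : 0 < (1 - ‖-ξ‖ ^ 2) * (1 - ‖w‖ ^ 2) / ‖1 - conj w * -ξ‖ ^ 2 := by
      have a1 : 0 < ‖1 - conj w * -ξ‖ := norm_pos_iff.2 (one_sub_ne h3 hw)
      have a2 := norm_nonneg (-ξ)
      have a3 := norm_nonneg w
      apply div_pos _ (by positivity)
      apply mul_pos <;> nlinarith
    rw [← h4, h5] at h6
    have h7 := norm_nonneg (φ ξ)
    simp only [Metric.mem_ball, dist_zero_right]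
    nlinarith
  have hφd : DifferentiableOn ℂ φ (Metric.ball 0 1) := by
    apply DifferentiableOn.div
    · exact differentiableOn_id.add_const _
    · exact (differentiableOn_const _).add ((differentiableOn_const _).mul differentiableOn_id)
    · exact hden
  have hsum_ne : ∀ ξ ∈ Metric.ball (0 : ℂ) 1, P (φ ξ) + conj B ≠ 0 := by
    intro ξ hξ h
    have h2 := congrArg Complex.re h
    simp only [Complex.add_re, Complex.conj_re, Complex.zero_re] at h2
    have := hPre _ (hφmaps ξ hξ)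
    linarith
  set ψ : ℂ → ℂ := fun ξ => (P (φ ξ) - B) / (P (φ ξ) + conj B) with hψ
  have hψd : DifferentiableOn ℂ ψ (Metric.ball 0 1) := by
    have hcomp : DifferentiableOn ℂ (fun ξ => P (φ ξ)) (Metric.ball 0 1) :=
      hPd.comp hφd hφmaps
    exact (hcomp.sub_const _).div (hcomp.add_const _) hsum_ne
  have hψmaps : Set.MapsTo ψ (Metric.ball 0 1) (Metric.closedBall 0 1) := by
    intro ξ hξ
    have h2 := hPre _ (hφmaps ξ hξ)
    simp only [Metric.mem_closedBall, dist_zero_right, hψ, norm_div]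
    rw [div_le_one (norm_pos_iff.2 (hsum_ne ξ hξ))]
    apply le_of_sq_le_sq _ (norm_nonneg _)
    rw [← Complex.normSq_eq_norm_sq, ← Complex.normSq_eq_norm_sq, Complex.normSq_apply,
      Complex.normSq_apply]
    simp only [Complex.sub_re, Complex.sub_im, Complex.add_re, Complex.add_im, Complex.conj_re,
      Complex.conj_im]
    nlinarith
  have hψ0 : ψ 0 = 0 := by
    have : φ 0 = w := by simp [hφ]
    simp [hψ, this, hB]
  -- evaluate at ξ with φ ξ = z
  set ξ := (z - w) / (1 - conj w * z) with hξ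
  have hdz := one_sub_ne hz hw
  have hξn : ‖ξ‖ = rh z w := rfl
  have hξ1 : ‖ξ‖ < 1 := by
    rw [hξn]
    have := rh_nonneg z w
    nlinarith
  have hξB : ξ ∈ Metric.ball (0 : ℂ) 1 := by simpa using hξ1
  have hφξ : φ ξ = z := by
    have h2 := hden ξ hξB
    have hmul : ξ * (1 - conj w * z) = z - w := div_mul_cancel₀ _ hdz
    rw [hφ]
    simp only
    rw [div_eq_iff h2]
    apply mul_right_cancel₀ hdz
    linear_combination (1 - z * conj w) * hmul
  have hS := Complex.norm_le_norm_of_mapsTo_ball hψd hψmaps hψ0 hξ1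
  rw [hξn, hψ] at hS
  simp only [hφξ] at hS
  set A := P z with hA
  have hA1 : 1 ≤ A.re := hPre z hzB
  have hsn : P z + conj B ≠ 0 := by
    have := hsum_ne ξ hξB
    rwa [hφξ] at this
  set r := rh z w with hr
  have hr0 : 0 ≤ r := rh_nonneg _ _
  rw [norm_div, div_le_iff₀ (norm_pos_iff.2 hsn)] at hS
  have hS2 : ‖A - B‖ ^ 2 ≤ r ^ 2 * ‖A + conj B‖ ^ 2 := by
    rw [← mul_pow]
    exact pow_le_pow_left₀ (norm_nonneg _) hS 2
  rw [← Complex.normSq_eq_norm_sq, ← Complex.normSq_eq_norm_sq, Complex.normSq_apply,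
    Complex.normSq_apply] at hS2
  simp only [Complex.sub_re, Complex.sub_im, Complex.add_re, Complex.add_im, Complex.conj_re,
    Complex.conj_im] at hS2
  have hr1 : r < 1 := by rw [← hξn]; exact hξ1
  have hS3 : (A.re - B.re) ^ 2 ≤ (r * (A.re + B.re)) ^ 2 := by
    have h2 : 0 ≤ (1 - r ^ 2) * (A.im - B.im) ^ 2 := by
      apply mul_nonneg _ (sq_nonneg _); nlinarith
    nlinarith
  have hS4 : A.re - B.re ≤ r * (A.re + B.re) := by
    apply le_of_sq_le_sq hS3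
    apply mul_nonneg hr0; linarith
  have hAB : A.re ≤ 4 / c * B.re := by
    have h2 : (1 - r) * A.re ≤ (1 + r) * B.re := by linarith
    have h3 : c * A.re ≤ 4 * B.re := by
      have h4 : c ≤ (1 + r) * (1 - r) := by nlinarith
      have h5 : c * A.re ≤ (1 + r) * ((1 - r) * A.re) := by
        have := mul_le_mul_of_nonneg_right h4 (by linarith : 0 ≤ A.re)
        linarith
      have h6 : (1 + r) * ((1 - r) * A.re) ≤ (1 + r) * ((1 + r) * B.re) :=
        mul_le_mul_of_nonneg_left h2 (by linarith)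
      have h7 : (1 + r) * ((1 + r) * B.re) ≤ 4 * B.re := by
        have : (1 + r) * (1 + r) ≤ 4 := by nlinarith
        nlinarith
      linarith
    rw [div_mul_eq_mul_div, le_div_iff₀ hc]
    linarith
  have hBre : B.re ≤ 1 - Real.log ε := by
    rw [hB, hP]
    simp only [Complex.sub_re, Complex.one_re]
    rw [← hre w hwB]
    have := Real.log_le_log hε hwε.le
    linarith
  have hgz : 0 < ‖g z‖ := norm_pos_iff.2 (h0 z hzB)
  rw [← Real.le_log_iff_exp_le hgz, hre z hzB]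
  have hAre : A.re = 1 - (p z).re := by rw [hA, hP]; simp
  have : 4 / c * B.re ≤ 4 / c * (1 - Real.log ε) :=
    mul_le_mul_of_nonneg_left hBre (by positivity)
  linarith

end

section

open MeasureTheory AddCircle Complex Filter Topology
open scoped ENNReal ComplexConjugate

lemma norm_fc_le {f : T → ℂ} {M : ℝ} (hM : ∀ᵐ t ∂mu, ‖f t‖ ≤ M) (n : ℤ) :
    ‖fourierCoeff f n‖ ≤ M := by
  rw [fc_def]
  calc ‖∫ t, e (-n) t * f t ∂mu‖ ≤ ∫ _t, M ∂mu := by
        apply norm_integral_le_of_norm_le (integrable_const _)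
        filter_upwards [hM] with t ht
        rw [norm_mul, e_norm, one_mul]; exact ht
    _ = M := by rw [integral_const]; simp

/-- the extension is holomorphic -/
lemma ext_diff {f : T → ℂ} (hf : MemLp f ∞ mu) :
    DifferentiableOn ℂ (ext f) (Metric.ball 0 1) := by
  obtain ⟨M, hM0, hM⟩ := exists_bound hf
  intro z hz
  have hz' : ‖z‖ < 1 := by simpa using hz
  obtain ⟨r, hr1, hr2⟩ := exists_between hz'
  have hr0 : 0 ≤ r := le_trans (norm_nonneg z) hr1.le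
  have h1 : DifferentiableOn ℂ (ext f) (Metric.ball 0 r) := by
    have h2 : Summable fun n : ℕ => M * r ^ n :=
      (summable_geometric_of_lt_one hr0 hr2).mul_left _
    refine differentiableOn_tsum_of_summable_norm (u := fun n : ℕ => M * r ^ n) h2 ?_
      Metric.isOpen_ball ?_
    · intro n
      exact (differentiableOn_const _).mul (differentiableOn_pow n)
    · intro n w hw
      have hw' : ‖w‖ < r := by simpa using hw
      rw [norm_mul, norm_pow]
      exact mul_le_mul (norm_fc_le hM n) (pow_le_pow_left₀ (norm_nonneg _) hw'.le n)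
        (by positivity) hM0
  exact (h1.differentiableAt (Metric.isOpen_ball.mem_nhds (by simpa using hr1))).differentiableWithinAt

lemma exists_coeff {G : ℂ → ℂ} (hG : DifferentiableOn ℂ G (Metric.ball 0 1)) :
    ∃ a : ℕ → ℂ, ∀ w : ℂ, ‖w‖ < 1 → HasSum (fun n : ℕ => a n * w ^ n) (G w) := by
  refine ⟨fun n => (n.factorial : ℂ)⁻¹ * iteratedDeriv n G 0, fun w hw => ?_⟩
  have h1 := Complex.hasSum_taylorSeries_on_ball hG (z := w) (by simpa using hw)
  have e1 : (fun n : ℕ => (n.factorial : ℂ)⁻¹ * iteratedDeriv n G 0 * w ^ n) =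
      fun n : ℕ => (n.factorial : ℂ)⁻¹ • (w - 0) ^ n • iteratedDeriv n G 0 := by
    funext n
    rw [smul_eq_mul, smul_eq_mul, sub_zero]; ring
  rw [e1]; exact h1

/-- integral of a holomorphic function against `e_m`, `m > 0`, over a circle of radius `r < 1` -/
lemma int_circle {G : ℂ → ℂ} (hG : DifferentiableOn ℂ G (Metric.ball 0 1)) {r : ℝ} (hr0 : 0 ≤ r)
    (hr1 : r < 1) (m : ℕ) (hm : 0 < m) : ∫ t, G (r * e 1 t) * e m t ∂mu = 0 := by
  obtain ⟨a, ha⟩ := exists_coeff hG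
  have hrn : ‖(r : ℂ)‖ = r := by rw [Complex.norm_real, Real.norm_of_nonneg hr0]
  have hn1 : ∀ t, ‖(r : ℂ) * e 1 t‖ = r := fun t => by rw [norm_mul, e_norm, hrn, mul_one]
  have hsum : Summable fun n : ℕ => ‖a n‖ * r ^ n := by
    have h1 := (ha r (by rw [hrn]; exact hr1)).summable.norm
    have e1 : (fun n : ℕ => ‖a n‖ * r ^ n) = fun n : ℕ => ‖a n * (r : ℂ) ^ n‖ := by
      funext n; rw [norm_mul, norm_pow, hrn]
    rw [e1]; exact h1
  have key := hasSum_integral_of_dominated_convergence (μ := mu)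
    (F := fun (n : ℕ) t => a n * (r * e 1 t) ^ n * e m t)
    (f := fun t => G (r * e 1 t) * e m t)
    (fun (n : ℕ) _ => ‖a n‖ * r ^ n) ?_ ?_ ?_ ?_ ?_
  · refine key.unique ?_
    have e1 : (fun n : ℕ => ∫ t, a n * (r * e 1 t) ^ n * e m t ∂mu) = fun _ => 0 := by
      funext n
      have e2 : ∀ t, a n * (r * e 1 t) ^ n * e m t = (a n * (r : ℂ) ^ n) * e (n + m) t := by
        intro t; rw [e_add, e_nat n, mul_pow]; ring
      simp_rw [e2]
      rw [integral_const_mul, int_e, if_neg (by omega), mul_zero]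
    rw [e1]; exact hasSum_zero
  · intro n
    exact ((continuous_const.mul ((continuous_const.mul (e_cont 1)).pow n)).mul
      (e_cont m)).aestronglyMeasurable
  · intro n
    refine Eventually.of_forall fun t => ?_
    rw [norm_mul, norm_mul, norm_pow, hn1, e_norm, mul_one]
  · exact Eventually.of_forall fun t => hsum
  · exact integrable_const _
  · refine Eventually.of_forall fun t => ?_
    exact (ha (r * e 1 t) (by rw [hn1]; exact hr1)).mul_right _

/-- Fourier coefficients of the dilation -/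
lemma fc_dilate {f : T → ℂ} (hf : f ∈ HInf) {r : ℝ} (hr0 : 0 ≤ r) (hr1 : r < 1) (n : ℤ) :
    fourierCoeff (fun t => ext f (r * e 1 t)) n =
      if 0 ≤ n then fourierCoeff f n * (r : ℂ) ^ n.toNat else 0 := by
  obtain ⟨M, hM0, hM⟩ := exists_bound hf.1
  have hint := memLp_integrable hf.1
  have hsum : Summable fun k : ℕ => M * r ^ k := (summable_geometric_of_lt_one hr0 hr1).mul_left _
  have hn1 : ∀ t, ‖(r : ℂ) * e 1 t‖ < 1 := fun t => by
    rw [norm_mul, e_norm, Complex.norm_real, Real.norm_of_nonneg hr0, mul_one]; exact hr1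
  have key := hasSum_integral_of_dominated_convergence (μ := mu)
    (F := fun (k : ℕ) t => e (-n) t * (fourierCoeff f k * (r * e 1 t) ^ k))
    (f := fun t => e (-n) t * ext f (r * e 1 t))
    (fun (k : ℕ) _ => M * r ^ k) ?_ ?_ ?_ ?_ ?_
  · rw [fc_def]
    refine key.unique ?_
    have e1 : ∀ k : ℕ, ∫ t, e (-n) t * (fourierCoeff f k * (r * e 1 t) ^ k) ∂mu =
        if (k : ℤ) = n then fourierCoeff f k * (r : ℂ) ^ k else 0 := by
      intro k
      have e2 : ∀ t, e (-n) t * (fourierCoeff f k * (r * e 1 t) ^ k) =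
          (fourierCoeff f k * (r : ℂ) ^ k) * e (k - n) t := by
        intro t
        rw [show (k : ℤ) - n = -n + k by ring, e_add, e_nat, mul_pow]; ring
      simp_rw [e2]
      rw [integral_const_mul, int_e]
      by_cases h : (k : ℤ) = n
      · rw [if_pos h, if_pos (by omega), mul_one]
      · rw [if_neg h, if_neg (by omega), mul_zero]
    simp_rw [e1]
    by_cases h : 0 ≤ n
    · rw [if_pos h]
      have e3 : (fun k : ℕ => if (k : ℤ) = n then fourierCoeff f k * (r : ℂ) ^ k else 0) =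
          fun k : ℕ => if k = n.toNat then fourierCoeff f n * (r : ℂ) ^ n.toNat else 0 := by
        funext k
        by_cases hk : k = n.toNat
        · rw [if_pos hk, if_pos (by omega), hk, Int.toNat_of_nonneg h]
        · rw [if_neg hk, if_neg (by omega)]
      rw [e3]
      exact hasSum_ite_eq _ _
    · rw [if_neg h]
      convert hasSum_zero with k
      rw [if_neg (by omega)]
  · intro k
    exact ((e_cont (-n)).mul (continuous_const.mul ((continuous_const.mul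
      (e_cont 1)).pow k))).aestronglyMeasurable
  · intro k
    refine Eventually.of_forall fun t => ?_
    rw [norm_mul, norm_mul, norm_pow, norm_mul, e_norm, e_norm, Complex.norm_real,
      Real.norm_of_nonneg hr0, mul_one, one_mul]
    exact mul_le_mul_of_nonneg_right (norm_fc_le hM _) (by positivity)
  · exact Eventually.of_forall fun t => hsum
  · exact integrable_const _
  · refine Eventually.of_forall fun t => ?_
    exact (hasSum_ext hint (hn1 t)).mul_left _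

lemma dilate_cont {f : T → ℂ} (hf : f ∈ HInf) {r : ℝ} (hr0 : 0 ≤ r) (hr1 : r < 1) :
    Continuous fun t => ext f (r * e 1 t) := by
  have h1 : ContinuousOn (ext f) (Metric.ball 0 1) := (ext_diff hf.1).continuousOn
  refine h1.comp_continuous (continuous_const.mul (e_cont 1)) fun t => ?_
  simp only [Metric.mem_ball, dist_zero_right]
  rw [norm_mul, e_norm, Complex.norm_real, Real.norm_of_nonneg hr0, mul_one]; exact hr1

/-- `L²` convergence of dilations -/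
lemma dilate_tendsto {f : T → ℂ} (hf : f ∈ HInf) {δ : ℝ} (hδ : 0 < δ) :
    ∃ r : ℝ, 0 ≤ r ∧ r < 1 ∧ ∫ t, ‖f t - ext f (r * e 1 t)‖ ∂mu ≤ δ := by
  have hf2 := memLp2 hf.1
  have hpar := parseval hf2
  -- the tails
  have htend : Tendsto (fun r : ℝ => ∑' n : ℤ, ‖fourierCoeff f n‖ ^ 2 * (1 - r ^ n.toNat) ^ 2)
      (𝓝[<] 1) (𝓝 (∑' _n : ℤ, (0 : ℝ))) := by
    apply tendsto_tsum_of_dominated_convergence (bound := fun n : ℤ => ‖fourierCoeff f n‖ ^ 2)
    · exact hpar.summable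
    · intro n
      have h1 : Tendsto (fun r : ℝ => ‖fourierCoeff f n‖ ^ 2 * (1 - r ^ n.toNat) ^ 2) (𝓝 1)
          (𝓝 (‖fourierCoeff f n‖ ^ 2 * (1 - 1 ^ n.toNat) ^ 2)) :=
        Continuous.tendsto (by fun_prop) 1
      have h2 := h1.mono_left (nhdsWithin_le_nhds (s := Set.Iio 1))
      simpa using h2
    · have h3 : ∀ᶠ r : ℝ in 𝓝[<] 1, 0 < r := by
        have : ∀ᶠ r : ℝ in 𝓝 1, 0 < r := lt_mem_nhds (by norm_num)
        exact this.filter_mono nhdsWithin_le_nhds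
      filter_upwards [h3, self_mem_nhdsWithin] with r hr0 hr1 n
      have hr1' : r < 1 := hr1
      have h4 : r ^ n.toNat ≤ 1 := pow_le_one₀ hr0.le hr1'.le
      have h5 : 0 < r ^ n.toNat := pow_pos hr0 _
      rw [Real.norm_of_nonneg (by positivity)]
      have h6 : (1 - r ^ n.toNat) ^ 2 ≤ 1 := by nlinarith
      have h7 : 0 ≤ ‖fourierCoeff f n‖ ^ 2 := by positivity
      nlinarith
  rw [tsum_zero] at htend
  have h3 : ∀ᶠ r : ℝ in 𝓝[<] 1, 0 < r := by
    have : ∀ᶠ r : ℝ in 𝓝 1, 0 < r := lt_mem_nhds (by norm_num)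
    exact this.filter_mono nhdsWithin_le_nhds
  have h4 := htend.eventually (gt_mem_nhds (show (0 : ℝ) < δ ^ 2 by positivity))
  obtain ⟨r, ⟨hr0, hrs⟩, hr1⟩ := ((h3.and h4).and self_mem_nhdsWithin).exists
  have hr1' : r < 1 := hr1
  refine ⟨r, hr0.le, hr1', ?_⟩
  have hcont := dilate_cont hf hr0.le hr1'
  have hm2 : MemLp (fun t => ext f (r * e 1 t)) 2 mu := memLp2 (bdd_cont hcont)
  have hsub : MemLp (fun t => f t - ext f (r * e 1 t)) 2 mu := hf2.sub hm2
  refine L1_le_of_L2 hsub hδ ?_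
  have hp := parseval hsub
  have e1 : ∀ n : ℤ, ‖fourierCoeff (fun t => f t - ext f (r * e 1 t)) n‖ ^ 2 =
      ‖fourierCoeff f n‖ ^ 2 * (1 - r ^ n.toNat) ^ 2 := by
    intro n
    have e2 : fourierCoeff (fun t => f t - ext f (r * e 1 t)) n =
        fourierCoeff f n - fourierCoeff (fun t => ext f (r * e 1 t)) n := by
      rw [fc_def, fc_def, fc_def, ← integral_sub]
      · congr 1; funext t; ring
      · exact memLp_integrable (bdd_mul (bdd_e _) hf.1)
      · exact memLp_integrable (bdd_mul (bdd_e _) (bdd_cont hcont))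
    rw [e2, fc_dilate hf hr0.le hr1']
    by_cases hn : 0 ≤ n
    · rw [if_pos hn]
      have : fourierCoeff f n - fourierCoeff f n * (r : ℂ) ^ n.toNat =
          fourierCoeff f n * (((1 - r ^ n.toNat : ℝ)) : ℂ) := by push_cast; ring
      rw [this, norm_mul, mul_pow, Complex.norm_real, Real.norm_eq_abs, sq_abs]
    · rw [if_neg hn, hf.2 n (by omega)]
      simp
  simp_rw [e1] at hp
  rw [← hp.tsum_eq]
  exact hrs.le

/-- an inner function whose extension is bounded below is constant -/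
lemma const_of_lower {S : T → ℂ} (hS : IsInner S) {m0 : ℝ} (hm0 : 0 < m0)
    (hlow : ∀ z : ℂ, ‖z‖ < 1 → m0 ≤ ‖ext S z‖) :
    ∃ c : ℂ, ‖c‖ = 1 ∧ ∀ z : ℂ, ‖z‖ < 1 → ext S z = c := by
  have hSd := ext_diff hS.1.1
  have hne : ∀ z ∈ Metric.ball (0 : ℂ) 1, ext S z ≠ 0 := by
    intro z hz h
    have := hlow z (by simpa using hz)
    rw [h, norm_zero] at this
    linarith
  have hG : DifferentiableOn ℂ (fun z => (ext S z)⁻¹) (Metric.ball 0 1) := hSd.inv hne
  -- conj S is in HInf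
  have hzero : ∀ m : ℕ, 0 < m → ∫ t, conj (S t) * e m t ∂mu = 0 := by
    intro m hm
    rw [← norm_le_zero_iff]
    refine le_of_forall_pos_le_add fun δ hδ => ?_
    rw [zero_add]
    obtain ⟨r, hr0, hr1, hr⟩ := dilate_tendsto hS.1 (δ := δ * m0) (by positivity)
    have hz0 : ∫ t, (ext S (r * e 1 t))⁻¹ * e m t ∂mu = 0 := int_circle hG hr0 hr1 m hm
    have hn1 : ∀ t, ‖(r : ℂ) * e 1 t‖ < 1 := fun t => by
      rw [norm_mul, e_norm, Complex.norm_real, Real.norm_of_nonneg hr0, mul_one]; exact hr1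
    have hcont := dilate_cont hS.1 hr0 hr1
    have hcinv : Continuous fun t => (ext S (r * e 1 t))⁻¹ :=
      hcont.inv₀ fun t => hne _ (by simpa using hn1 t)
    have i1 : Integrable (fun t => conj (S t) * e m t) mu :=
      memLp_integrable (bdd_mul (bdd_conj hS.1.1) (bdd_e _))
    have i2 : Integrable (fun t => (ext S (r * e 1 t))⁻¹ * e m t) mu :=
      cont_int (hcinv.mul (e_cont _))
    have e1 : ∫ t, conj (S t) * e m t ∂mu =
        ∫ t, (conj (S t) * e m t - (ext S (r * e 1 t))⁻¹ * e m t) ∂mu := by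
      rw [integral_sub i1 i2, hz0, sub_zero]
    rw [e1]
    have i3 : Integrable (fun t => m0⁻¹ * ‖S t - ext S (r * e 1 t)‖) mu :=
      (((memLp_integrable hS.1.1).sub (cont_int hcont)).norm).const_mul _
    calc ‖∫ t, (conj (S t) * e m t - (ext S (r * e 1 t))⁻¹ * e m t) ∂mu‖
        ≤ ∫ t, m0⁻¹ * ‖S t - ext S (r * e 1 t)‖ ∂mu := by
          apply norm_integral_le_of_norm_le i3
          filter_upwards [hS.2] with t ht
          have hs1 := mul_conj_of_norm_one ht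
          have hE := hlow _ (hn1 t)
          have hEne : ext S (r * e 1 t) ≠ 0 := hne _ (by simpa using hn1 t)
          have e2 : conj (S t) * e m t - (ext S (r * e 1 t))⁻¹ * e m t =
              conj (S t) * (ext S (r * e 1 t))⁻¹ * (ext S (r * e 1 t) - S t) * e m t := by
            have h5 : (ext S (r * e 1 t))⁻¹ * ext S (r * e 1 t) = 1 := inv_mul_cancel₀ hEne
            linear_combination (-(conj (S t) * e m t)) * h5 +
              ((ext S (r * e 1 t))⁻¹ * e m t) * hs1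
          rw [e2, norm_mul, norm_mul, norm_mul, RCLike.norm_conj, ht, e_norm, norm_inv,
            one_mul, mul_one, norm_sub_rev]
          apply mul_le_mul_of_nonneg_right _ (norm_nonneg _)
          exact inv_anti₀ hm0 hE
      _ = m0⁻¹ * ∫ t, ‖S t - ext S (r * e 1 t)‖ ∂mu := integral_const_mul _ _
      _ ≤ m0⁻¹ * (δ * m0) := mul_le_mul_of_nonneg_left hr (by positivity)
      _ = δ := by field_simp
  have hcoef : ∀ n : ℤ, n ≠ 0 → fourierCoeff S n = 0 := by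
    intro n hn
    rcases lt_or_gt_of_ne hn with h | h
    · exact hS.1.2 n h
    · have h1 := hzero n.toNat (by omega)
      rw [int_mul_e, fc_conj, Int.toNat_of_nonneg h.le, neg_neg] at h1
      have h2 := congrArg conj h1
      rwa [Complex.conj_conj, map_zero] at h2
  have hext : ∀ z : ℂ, ext S z = fourierCoeff S 0 := by
    intro z
    rw [ext]
    have : (fun n : ℕ => fourierCoeff S n * z ^ n) =
        fun n : ℕ => if n = 0 then fourierCoeff S 0 else 0 := by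
      funext n
      by_cases hn : n = 0
      · subst hn; simp
      · rw [if_neg hn, hcoef n (by exact_mod_cast hn), zero_mul]
    rw [this, tsum_ite_eq]
  refine ⟨fourierCoeff S 0, ?_, fun z _ => hext z⟩
  -- the norm is one by Parseval
  have hp := parseval (memLp2 hS.1.1)
  have h1 : ∫ t, ‖S t‖ ^ 2 ∂mu = 1 := by
    have : (fun t => ‖S t‖ ^ 2) =ᵐ[mu] fun _ => (1 : ℝ) := by
      filter_upwards [hS.2] with t ht; rw [ht]; norm_num
    rw [integral_congr_ae this, integral_const]; simp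
  rw [h1] at hp
  have h2 : HasSum (fun i : ℤ => ‖fourierCoeff S i‖ ^ 2) (‖fourierCoeff S 0‖ ^ 2) := by
    have : (fun i : ℤ => ‖fourierCoeff S i‖ ^ 2) =
        fun i : ℤ => if i = 0 then ‖fourierCoeff S 0‖ ^ 2 else 0 := by
      funext i
      by_cases hi : i = 0
      · subst hi; simp
      · rw [if_neg hi, hcoef i hi]; simp
    rw [this]
    exact hasSum_ite_eq _ _
  have h3 := h2.unique hp
  have h4 := norm_nonneg (fourierCoeff S 0)
  nlinarith

end

section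

open MeasureTheory AddCircle Complex Filter Topology
open scoped ENNReal ComplexConjugate

lemma one_sub_sq_le_log {x : ℝ} (hx : 0 < x) : 1 - x ^ 2 ≤ -2 * Real.log x := by
  have h := Real.log_le_sub_one_of_pos (show 0 < x ^ 2 by positivity)
  rw [Real.log_pow] at h
  push_cast at h
  linarith

lemma sum_le_log {s : List ℝ} (hs : ∀ x ∈ s, 0 ≤ x) {ε : ℝ} (hε : 0 < ε) (h : ε < s.prod) :
    (s.map fun x => 1 - x ^ 2).sum ≤ -2 * Real.log ε := by
  have hpos : ∀ x ∈ s, 0 < x := by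
    intro x hx
    refine lt_of_le_of_ne (hs x hx) fun h0 => ?_
    rw [List.prod_eq_zero (h0 ▸ hx)] at h
    linarith
  have key : ∀ l : List ℝ, (∀ x ∈ l, 0 < x) →
      (l.map fun x => 1 - x ^ 2).sum ≤ -2 * Real.log l.prod := by
    intro l hl
    induction l with
    | nil => simp
    | cons a l ih =>
      have ha := hl a (by simp)
      have hl' : ∀ x ∈ l, 0 < x := fun x hx => hl x (by simp [hx])
      have hp : 0 < l.prod := List.prod_pos hl'
      rw [List.map_cons, List.sum_cons, List.prod_cons, Real.log_mul ha.ne' hp.ne']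
      have := one_sub_sq_le_log ha
      have := ih hl'
      linarith
  have h1 := key s hpos
  have h2 := Real.log_le_log hε h.le
  linarith

/-- the basic counting estimate -/
lemma count {f : T → ℂ} (hf1 : ∀ᵐ t ∂mu, ‖f t‖ = 1) {c ε : ℝ} (hc : 0 < c) (hε : 0 < ε)
    (hgood : Good c ε f) {s : List ℂ} (hs : ∀ a ∈ s, ‖a‖ < 1) (hd : DivB f s) {z : ℂ}
    (hz : ‖z‖ < 1) : (s.map fun b => 1 - rh z b ^ 2).sum ≤ -2 * Real.log ε / c := by
  obtain ⟨w, hw, hεw, hcomp⟩ := hgood z hz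
  have h1 := norm_ext_le_of_DivB hf1 hs hd hw
  have h2 : (s.map fun a => ‖blaschkeFactor a w‖) = s.map fun a => rh w a :=
    List.map_congr_left fun a _ => norm_bf
  rw [h2] at h1
  have h3 := sum_le_log (s := s.map fun a => rh w a) (by
    intro x hx
    obtain ⟨a, -, rfl⟩ := List.mem_map.1 hx
    exact rh_nonneg _ _) hε (lt_of_lt_of_le hεw h1)
  rw [List.map_map] at h3
  have h4 : (s.map fun b => c * (1 - rh z b ^ 2)).sum ≤
      (s.map ((fun x => 1 - x ^ 2) ∘ fun a => rh w a)).sum := by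
    apply List.sum_le_sum
    intro b hb
    exact hcomp b (hs b hb)
  rw [List.sum_map_mul_left] at h4
  rw [le_div_iff₀ hc]
  linarith

/-- zeros in the disc -/
def zeros (f : T → ℂ) : Set ℂ := {a | ‖a‖ < 1 ∧ ext f a = 0}

/-- maximal separated sets of zeros exist -/
lemma exists_max_sep (S : Set ℂ) : ∃ Z ⊆ S, (∀ a ∈ Z, ∀ b ∈ Z, a ≠ b → 1 / 2 ≤ rh a b) ∧
    ∀ a ∈ S, ∃ b ∈ Z, rh a b < 1 / 2 := by
  obtain ⟨Z, hZ⟩ := zorn_subset {Z : Set ℂ | Z ⊆ S ∧ ∀ a ∈ Z, ∀ b ∈ Z, a ≠ b → 1 / 2 ≤ rh a b}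
    (by
      intro c hc hchain
      refine ⟨⋃₀ c, ⟨?_, ?_⟩, fun s hs => Set.subset_sUnion_of_mem hs⟩
      · exact Set.sUnion_subset fun s hs => (hc hs).1
      · rintro a ⟨s, hs, has⟩ b ⟨t, ht, hbt⟩ hab
        rcases hchain.total hs ht with h | h
        · exact (hc ht).2 a (h has) b hbt hab
        · exact (hc hs).2 a has b (h hbt) hab)
  refine ⟨Z, hZ.prop.1, hZ.prop.2, fun a ha => ?_⟩
  by_contra hcon
  push Not at hcon
  have haZ : a ∉ Z := fun h => by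
    have := hcon a h
    rw [rh_self] at this
    norm_num at this
  have hins : insert a Z ∈ {Z : Set ℂ | Z ⊆ S ∧ ∀ a ∈ Z, ∀ b ∈ Z, a ≠ b → 1 / 2 ≤ rh a b} := by
    refine ⟨Set.insert_subset ha hZ.prop.1, ?_⟩
    rintro x (rfl | hx) y (rfl | hy) hxy
    · exact absurd rfl hxy
    · exact hcon y hy
    · rw [rh_comm]; exact hcon x hx
    · exact hZ.prop.2 x hx y hy hxy
  exact haZ (hZ.le_of_ge hins (Set.subset_insert a Z) (Set.mem_insert a Z))

/-- the Blaschke product of a separated set of zeros of `f` is interpolating -/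
lemma interpolating {f : T → ℂ} (hf : IsInner f) {c ε : ℝ} (hc : 0 < c) (hε : 0 < ε)
    (hgood : Good c ε f) {Z : Set ℂ} (hZ : Z ⊆ zeros f)
    (hsep : ∀ a ∈ Z, ∀ b ∈ Z, a ≠ b → 1 / 2 ≤ rh a b) :
    Summable (fun a : Z => 1 - ‖(a : ℂ)‖) ∧
    ∃ δ : ℝ, 0 < δ ∧ ∀ a ∈ Z, ∀ F : Finset ℂ, (∀ b ∈ F, b ∈ Z ∧ b ≠ a) →
      δ ≤ ∏ b ∈ F, ‖(a - b) / (1 - conj b * a)‖ := by
  constructor
  · apply summable_of_sum_le (c := -2 * Real.log ε / c)
    · intro a
      have := (hZ a.2).1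
      simp only [Pi.zero_apply]; linarith
    · intro F
      have hnd : (F.toList.map (fun a : Z => (a : ℂ))).Nodup :=
        (F.nodup_toList).map Subtype.val_injective
      have hs : ∀ a ∈ F.toList.map (fun a : Z => (a : ℂ)), ‖a‖ < 1 := by
        intro a ha
        obtain ⟨b, -, rfl⟩ := List.mem_map.1 ha
        exact (hZ b.2).1
      have hd := DivB_of_zeros hf.1 hnd hs (by
        intro a ha
        obtain ⟨b, -, rfl⟩ := List.mem_map.1 ha
        exact (hZ b.2).2)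
      have h1 := count hf.2 hc hε hgood hs hd (z := 0) (by simp)
      rw [List.map_map] at h1
      have h2 : (F.toList.map ((fun b => 1 - rh 0 b ^ 2) ∘ fun a : Z => (a : ℂ))).sum =
          ∑ a ∈ F, (1 - ‖(a : ℂ)‖ ^ 2) := by
        rw [← Finset.sum_map_toList]
        congr 1
        apply List.map_congr_left
        intro a _
        simp [rh]
      rw [h2] at h1
      refine le_trans (Finset.sum_le_sum fun a _ => ?_) h1
      have h3 := (hZ a.2).1
      have h4 := norm_nonneg (a : ℂ)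
      nlinarith
  · refine ⟨Real.exp (4 * Real.log ε / c), Real.exp_pos _, fun a ha F hF => ?_⟩
    have hs : ∀ b ∈ F.toList, ‖b‖ < 1 := fun b hb =>
      (hZ (hF b (Finset.mem_toList.1 hb)).1).1
    have hd := DivB_of_zeros hf.1 F.nodup_toList hs (fun b hb =>
      (hZ (hF b (Finset.mem_toList.1 hb)).1).2)
    have h1 := count hf.2 hc hε hgood hs hd (hZ ha).1
    rw [Finset.sum_map_toList] at h1
    have hrh : ∀ b ∈ F, 1 / 2 ≤ rh a b := fun b hb =>
      hsep a ha b (hF b hb).1 (Ne.symm (hF b hb).2)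
    have hpos : ∀ b ∈ F, 0 < rh a b := fun b hb => by linarith [hrh b hb]
    have hprod : 0 < ∏ b ∈ F, rh a b := Finset.prod_pos hpos
    change Real.exp (4 * Real.log ε / c) ≤ ∏ b ∈ F, rh a b
    rw [← Real.le_log_iff_exp_le hprod, Real.log_prod (fun b hb => (hpos b hb).ne')]
    have h2 : ∀ b ∈ F, -2 * (1 - rh a b ^ 2) ≤ Real.log (rh a b) := by
      intro b hb
      have h3 := hrh b hb
      have h4 := hpos b hb
      have h5 := Real.one_sub_inv_le_log_of_pos (show 0 < rh a b ^ 2 by positivity)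
      rw [Real.log_pow] at h5
      push_cast at h5
      have h6 : -4 * (1 - rh a b ^ 2) ≤ 1 - (rh a b ^ 2)⁻¹ := by
        have h7 : rh a b ≤ 1 := rh_le_one (hZ ha).1 (hZ (hF b hb).1).1
        have h8 : (1 : ℝ) / 4 ≤ rh a b ^ 2 := by nlinarith
        have h9 : rh a b ^ 2 ≤ 1 := by nlinarith
        have h10 : 1 - (rh a b ^ 2)⁻¹ = -(1 - rh a b ^ 2) / rh a b ^ 2 := by
          field_simp
          ring
        rw [h10, le_div_iff₀ (by positivity)]
        nlinarith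
      linarith
    have h3 := Finset.sum_le_sum h2
    rw [← Finset.mul_sum] at h3
    have h4 : 4 * Real.log ε / c = -2 * (-2 * Real.log ε / c) := by ring
    rw [h4]
    linarith

/-- zero-free case -/
lemma const_of_zero_free {f : T → ℂ} (hf : IsInner f) {c ε : ℝ} (hc : 0 < c) (hε : 0 < ε)
    (hε1 : ε < 1) (hgood : Good c ε f) (h0 : ∀ a, ‖a‖ < 1 → ext f a ≠ 0) :
    ∃ k : ℂ, ‖k‖ = 1 ∧ ∀ z : ℂ, ‖z‖ < 1 → ext f z = k := by
  refine const_of_lower hf (Real.exp_pos (-(4 / c * (1 - Real.log ε)))) fun z hz => ?_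
  obtain ⟨w, hw, hεw, hcomp⟩ := hgood z hz
  have h1 := hcomp z hz
  rw [rh_self] at h1
  rw [rh_comm] at h1
  refine lower_of_zero_free (ext_diff hf.1.1) ?_ ?_ hz hw hε hε1 hεw hc (by linarith)
  · intro ξ hξ
    exact h0 ξ (by simpa using hξ)
  · intro ξ hξ
    exact ext_bound hf.1 (by filter_upwards [hf.2] with t ht; exact ht.le) (by simpa using hξ)

lemma main_induction {c ε : ℝ} (hc : 0 < c) (hε : 0 < ε) (hε1 : ε < 1) (N : ℕ) :
    ∀ f : T → ℂ, IsInner f → Good c ε f →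
      (∀ a, ‖a‖ < 1 → ext f a = 0 → ∀ s : List ℂ, (∀ b ∈ s, ‖b‖ < 1 ∧ rh a b < 1 / 2) →
        DivB f s → s.length ≤ N) →
      ∃ k : ℂ, ‖k‖ = 1 ∧ ∃ l : List (ℂ → ℂ), (∀ B ∈ l, IsInterpolatingBlaschke B) ∧
        ∀ z : ℂ, ‖z‖ < 1 → ext f z = k * (l.map fun B => B z).prod := by
  induction N with
  | zero =>
    intro f hf hgood hcount
    have h0 : ∀ a, ‖a‖ < 1 → ext f a ≠ 0 := by
      intro a ha h
      have hd : DivB f [a] := DivB_of_zeros hf.1 (by simp) (by simpa using ha) (by simpa using h)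
      have := hcount a ha h [a] (by
        intro b hb
        rw [List.mem_singleton] at hb
        subst hb
        exact ⟨ha, by rw [rh_self]; norm_num⟩) hd
      simp at this
    obtain ⟨k, hk, hext⟩ := const_of_zero_free hf hc hε hε1 hgood h0
    exact ⟨k, hk, [], by simp, fun z hz => by rw [hext z hz]; simp⟩
  | succ N ih =>
    intro f hf hgood hcount
    obtain ⟨Z, hZ, hsep, hmax⟩ := exists_max_sep (zeros f)
    have hZ1 : ∀ a ∈ Z, ‖a‖ < 1 := fun a ha => (hZ ha).1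
    obtain ⟨hsum, hint⟩ := interpolating hf hc hε hgood hZ hsep
    obtain ⟨B, hB, hBprod, hBdiv⟩ := exists_blaschke hZ1 hsum
    -- division
    have hF : ∀ F : Finset Z, (fun t => f t * conj (bF F t)) ∈ HInf := by
      intro F
      have hnd : (F.toList.map (fun a : Z => (a : ℂ))).Nodup :=
        (F.nodup_toList).map Subtype.val_injective
      have hd := DivB_of_zeros hf.1 hnd (by
        intro a ha
        obtain ⟨b, -, rfl⟩ := List.mem_map.1 ha
        exact (hZ b.2).1) (by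
        intro a ha
        obtain ⟨b, -, rfl⟩ := List.mem_map.1 ha
        exact (hZ b.2).2)
      refine congr_HInf hd (Eventually.of_forall fun t => ?_)
      have : bP (F.toList.map (fun a : Z => (a : ℂ))) t = bF F t := by
        rw [bP, bF, List.map_map, ← Finset.prod_map_toList]; rfl
      simp only [this]
    have hg := hBdiv f hf.1.1 hF
    set g : T → ℂ := fun t => f t * conj (B t) with hgdef
    have hg1 : ∀ᵐ t ∂mu, ‖g t‖ = 1 := by
      filter_upwards [hf.2, hB.2] with t h1 h2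
      rw [hgdef]; simp only
      rw [norm_mul, RCLike.norm_conj, h1, h2, one_mul]
    have hgi : IsInner g := ⟨hg, hg1⟩
    have hfac : ∀ z : ℂ, ‖z‖ < 1 → ext f z = ext B z * ext g z := by
      intro z hz
      rw [← ext_mul hB.1 hg hz]
      apply ext_congr
      filter_upwards [hB.2] with t ht
      have := mul_conj_of_norm_one ht
      rw [hgdef]; simp only
      linear_combination (-f t) * this
    have hB1 : ∀ z : ℂ, ‖z‖ < 1 → ‖ext B z‖ ≤ 1 := fun z hz =>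
      ext_bound hB.1 (by filter_upwards [hB.2] with t ht; exact ht.le) hz
    have hgood' : Good c ε g := by
      intro z hz
      obtain ⟨w, hw, hεw, hcomp⟩ := hgood z hz
      refine ⟨w, hw, ?_, hcomp⟩
      rw [hfac w hw, norm_mul] at hεw
      have := hB1 w hw
      nlinarith [norm_nonneg (ext g w)]
    have hcount' : ∀ a, ‖a‖ < 1 → ext g a = 0 → ∀ s : List ℂ,
        (∀ b ∈ s, ‖b‖ < 1 ∧ rh a b < 1 / 2) → DivB g s → s.length ≤ N := by
      intro a ha ha0 s hs hds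
      have hfa : ext f a = 0 := by rw [hfac a ha, ha0, mul_zero]
      obtain ⟨b, hbZ, hab⟩ := hmax a ⟨ha, hfa⟩
      have hb1 := hZ1 b hbZ
      -- `ext B b = 0`
      have hBb : ext B b = 0 := by
        have h1 : Tendsto (fun F : Finset Z => ∏ a ∈ F, blaschkeFactor (a : ℂ) b) atTop
            (𝓝 (ext B b)) := by simpa [HasProd] using hBprod b hb1
        have h2 : blaschkeFactor b b = 0 := (bf_zero_iff hb1 hb1).2 rfl
        refine tendsto_nhds_unique h1 (tendsto_const_nhds.congr' ?_)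
        have h3 : ∀ᶠ F : Finset Z in atTop, (⟨b, hbZ⟩ : Z) ∈ F := by
          filter_upwards [eventually_ge_atTop ({⟨b, hbZ⟩} : Finset Z)] with F hF
          exact hF (Finset.mem_singleton_self _)
        have h4 : ∀ᶠ F : Finset Z in atTop, (0 : ℂ) = ∏ a ∈ F, blaschkeFactor (a : ℂ) b := by
          filter_upwards [h3] with F hF
          exact (Finset.prod_eq_zero hF h2).symm
        exact h4
      have h5 := div_bb hB.1 hb1 hBb
      have h6 := mul_HInf h5 hds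
      have h7 : DivB f (b :: s) := by
        refine congr_HInf h6 ?_
        filter_upwards [hB.2] with t ht
        have := mul_conj_of_norm_one ht
        simp only [bP_cons, map_mul, hgdef]
        linear_combination (f t * conj (bb b t) * conj (bP s t)) * this
      have h8 := hcount a ha hfa (b :: s) (by
        intro x hx
        rcases List.mem_cons.1 hx with h | h
        · rw [h]; exact ⟨hb1, hab⟩
        · exact hs x h) h7
      simp only [List.length_cons] at h8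
      omega
    obtain ⟨k, hk, l, hl, hprod⟩ := ih g hgi hgood' hcount'
    refine ⟨k, hk, ext B :: l, ?_, fun z hz => ?_⟩
    · intro B' hB'
      rcases List.mem_cons.1 hB' with h | h
      · rw [h]
        exact ⟨Z, hZ1, hsum, hint, hBprod⟩
      · exact hl B' h
    · rw [hfac z hz, hprod z hz, List.map_cons, List.prod_cons]
      ring

/-- An inner function that is not too small anywhere satisfies the Carleson condition. -/
theorem carleson_of_good {f : T → ℂ} (hf : IsInner f) {c ε : ℝ} (hc : 0 < c) (hε : 0 < ε)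
    (hgood : Good c ε f) : CarlesonCondition f := by
  have hε1 : ε < 1 := by
    obtain ⟨w, hw, hεw, -⟩ := hgood 0 (by simp)
    have := ext_bound hf.1 (M := 1) (by filter_upwards [hf.2] with t ht; exact ht.le) hw
    linarith
  obtain ⟨N, hN⟩ := exists_nat_gt (4 / 3 * (-2 * Real.log ε / c))
  obtain ⟨k, hk, l, hl, hprod⟩ := main_induction hc hε hε1 N f hf hgood (by
    intro a ha _ s hs hd
    have h1 := count hf.2 hc hε hgood (fun b hb => (hs b hb).1) hd ha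
    have h2 : (s.length : ℝ) * (3 / 4) ≤ (s.map fun b => 1 - rh a b ^ 2).sum := by
      have h3 : (s.map fun _ : ℂ => (3 : ℝ) / 4).sum ≤ (s.map fun b => 1 - rh a b ^ 2).sum := by
        apply List.sum_le_sum
        intro b hb
        have h4 := (hs b hb).2
        have h5 := rh_nonneg a b
        nlinarith
      rw [List.map_const', List.sum_replicate, nsmul_eq_mul] at h3
      exact h3
    have h3 : (s.length : ℝ) < N := by linarith
    exact_mod_cast h3.le)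
  refine ⟨k, hk, l.length, fun j => l.get j, fun j => hl _ (List.get_mem l j), fun z hz => ?_⟩
  rw [hprod z hz]
  congr 1
  rw [← List.prod_ofFn]
  congr 1
  apply List.ext_get
  · simp
  · intro n h1 h2
    simp

/-- Sanity check: the coordinate function is inner and invertible in `D_b`. -/
theorem sanity_e1 : IsInner (e 1) ∧ ∃ g ∈ Db, ∀ᵐ t ∂mu, e 1 t * g t = 1 := by
  refine ⟨⟨e1_HInf, Eventually.of_forall fun t => e_norm 1 t⟩, e (-1),
    ⟨fun _ => 0, const_HInf 0, e (-1), ⟨bdd_e _, fun f hf => ?_⟩,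
      Eventually.of_forall fun t => by simp⟩, Eventually.of_forall fun t => e_mul_neg t⟩
  refine ⟨bdd_mul (bdd_e _) hf.1, fun ε hε => ?_⟩
  obtain ⟨g, hg, h, hh, hgh⟩ := hf.2 ε hε
  refine ⟨fun t => e (-1) t * (g t - fourierCoeff g 0), ?_,
    fun t => h t * e 1 t + conj (fourierCoeff g 0) * e 1 t, ?_, ?_⟩
  · have hb : MemLp (fun t => g t - fourierCoeff g 0) ∞ mu := hg.1.sub (memLp_const _)
    refine (mem_HInf_iff (bdd_mul (bdd_e _) hb)).2 fun n hn => ?_
    have e1 : ∀ t, e (-1) t * (g t - fourierCoeff g 0) * e n t =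
        g t * e (n - 1) t - fourierCoeff g 0 * e (n - 1) t := by
      intro t
      rw [show (n : ℤ) - 1 = -1 + n by ring, e_add]; ring
    simp_rw [e1]
    have i1 : Integrable (fun t => g t * e (n - 1) t) mu :=
      memLp_integrable (bdd_mul hg.1 (bdd_e _))
    have i2 : Integrable (fun t => fourierCoeff g 0 * e (n - 1) t) mu :=
      (cont_int (e_cont _)).const_mul _
    rw [integral_sub i1 i2, int_mul_e, integral_const_mul, int_e]
    by_cases hn1 : n = 1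
    · subst hn1; simp
    · rw [hg.2 _ (by omega), if_neg (by omega)]; simp
  · exact add_HInf (mul_e_HInf hh) (smul_HInf e1_HInf _)
  · filter_upwards [hgh] with t ht
    have e2 : e (-1) t * f t - (e (-1) t * (g t - fourierCoeff g 0) +
        conj (h t * e 1 t + conj (fourierCoeff g 0) * e 1 t)) =
        e (-1) t * (f t - (g t + conj (h t))) := by
      rw [map_add, map_mul, map_mul, Complex.conj_conj, ← e_neg]; ring
    rw [e2, norm_mul, e_norm, one_mul]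
    exact ht

/-- **Main theorem (answer to Q1: yes).** Every inner function that is invertible in the Douglas
algebra `D_b` satisfies the Carleson condition, i.e. is, up to a unimodular constant, a finite
product of interpolating Blaschke products. -/
theorem result (I : T → ℂ) (hI : IsInner I) (hinv : ∃ g ∈ Db, ∀ᵐ t ∂mu, I t * g t = 1) :
    CarlesonCondition I := by
  obtain ⟨n, hn, ε, hε, h⟩ := radial_lower_of_inv hI hinv
  exact carleson_of_good hI (by positivity) hε (good_of_radial h)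

end

end Pool.Agent.Results.MP_7a0cb1_an.InnerCarleson
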